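import Pool.Agent.Q196.XB.Flow

/-! The chart given by the flow out of a source. -/

set_option autoImplicit false
set_option linter.unusedSectionVars false

open scoped Topology ContDiff Manifold RealInnerProductSpace Gradient
open Set Metric Filter Bundle

noncomputable section

namespace Pool.Agent.Q196.XB

variable {E : Type} [NormedAddCommGroup E] [InnerProductSpace ℝ E] [FiniteDimensional ℝ E]
  {N : Type} [TopologicalSpace N] [ChartedSpace E N] [IsManifold 𝓘(ℝ, E) ∞ N]

/-- The field `X` is the radial field around `p` on the sheet `σ '' U`. -/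
structure Src (u : N → E) (X : N → E) (U : Set E) (σ : E → N) (p : E) : Prop where
  sec : Sec u U σ
  conv : Convex ℝ U
  mem : p ∈ U
  rad : ∀ z ∈ U, X (σ z) = z - p

lemma Src.seg {u X : N → E} {U : Set E} {σ : E → N} {p : E} (hs : Src u X U σ p) {z : E}
    (hz : z ∈ U) {t : ℝ} (ht : 0 ≤ t) : p + Real.exp (-t) • (z - p) ∈ U := by
  have h1 : p + Real.exp (-t) • (z - p) = (1 - Real.exp (-t)) • p + Real.exp (-t) • z := by
    rw [smul_sub, sub_smul, one_smul]; abel
  rw [h1]
  exact hs.conv hs.mem hz (by linarith [Real.exp_le_one_iff.2 (neg_nonpos.2 ht)])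
    (Real.exp_pos _).le (by ring)

theorem src_flow [T2Space N] {u X : N → E} {Fl : ℝ → N → N} (h : IsFlow u X Fl)
    {U : Set E} {σ : E → N} {p : E} (hs : Src u X U σ p) {z : E} (hz : z ∈ U) {t : ℝ}
    (ht : 0 ≤ t) : Fl (-t) (σ z) = σ (p + Real.exp (-t) • (z - p)) := by
  set γ : ℝ → N := fun t => σ (p + Real.exp (-t) • (z - p)) with hγ
  set c : ℝ → N := fun t => Fl (-t) (σ z) with hc
  have hcc : Continuous c := (h.cont_t (σ z)).comp continuous_neg
  have hγc : ContinuousOn γ (Icc 0 t) := by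
    intro s hs'
    have h1 := hs.seg hz hs'.1
    have h2 : ContinuousAt (fun t : ℝ => p + Real.exp (-t) • (z - p)) s := by fun_prop
    exact (ContinuousAt.comp (f := fun t : ℝ => p + Real.exp (-t) • (z - p)) (g := σ)
      (hs.sec.contAt h1) h2).continuousWithinAt
  have hclosed : IsClosed ({s | c s = γ s} ∩ Icc 0 t) := by
    have h1 : IsClosed {s ∈ Icc 0 t | c s = γ s} :=
      isClosed_Icc.isClosed_eq hcc.continuousOn hγc
    have h2 : {s | c s = γ s} ∩ Icc 0 t = {s ∈ Icc 0 t | c s = γ s} := by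
      ext s; simp [and_comm]
    rw [h2]; exact h1
  have h0 : (0:ℝ) ∈ {s | c s = γ s} := by
    show Fl (-0) (σ z) = σ (p + Real.exp (-0) • (z - p))
    rw [neg_zero, h.zero, Real.exp_zero, one_smul, add_sub_cancel]
  have hstep : ∀ x ∈ {s | c s = γ s} ∩ Ico 0 t, {s | c s = γ s} ∈ 𝓝[>] x := by
    rintro s ⟨hs1, hs2, hs3⟩
    have hs1' : c s = γ s := hs1
    have hsU := hs.seg hz hs2
    have h1 : ∀ᶠ r in 𝓝 s, c r ∈ σ '' U := by
      refine hcc.continuousAt.eventually (hs.sec.image.mem_nhds ?_)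
      rw [hs1']
      exact ⟨_, hsU, rfl⟩
    obtain ⟨δ, hδ, hδ'⟩ := Metric.eventually_nhds_iff.1 h1
    refine mem_nhdsGT_iff_exists_Ioo_subset.2 ⟨s + δ, by simpa using hδ, ?_⟩
    intro r hr
    -- the function `e^a (u (c a) - p)` is constant on `[s, r]`
    have hmem : ∀ a ∈ Icc s r, c a ∈ σ '' U := by
      intro a ha
      apply hδ'
      rw [Real.dist_eq, abs_of_nonneg (by linarith [ha.1])]
      linarith [ha.2, hr.2]
    have hd : ∀ a ∈ Icc s r, HasDerivAt (fun a => Real.exp a • (u (c a) - p)) 0 a := by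
      intro a ha
      have h2 : HasDerivAt (fun a => u (c a)) (-(X (c a))) a := h.deriv_u_neg (σ z) a
      have h3 : X (c a) = u (c a) - p := by
        have h4 := hs.sec.left (hmem a ha)
        have h5 := hs.rad (u (c a)) (hs.sec.mem (hmem a ha))
        rwa [h4] at h5
      have h6 := (Real.hasDerivAt_exp a).smul (h2.sub_const p)
      refine h6.congr_deriv ?_
      rw [h3, ← smul_add, neg_add_cancel, smul_zero]
    have hconst := constant_of_has_deriv_right_zero (a := s) (b := r)
      (fun a ha => (hd a ha).continuousAt.continuousWithinAt)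
      (fun a ha => (hd a ⟨ha.1, ha.2.le⟩).hasDerivWithinAt) r ⟨hr.1.le, le_rfl⟩
    have h7 : u (c s) = p + Real.exp (-s) • (z - p) := by
      rw [hs1']
      exact hs.sec.right _ hsU
    have h8 : u (c r) = p + Real.exp (-r) • (z - p) := by
      have hconst : Real.exp r • (u (c r) - p) = Real.exp s • (u (c s) - p) := hconst
      rw [h7, add_sub_cancel_left, smul_smul, ← Real.exp_add, add_neg_cancel, Real.exp_zero,
        one_smul] at hconst
      have h9 : u (c r) - p = Real.exp (-r) • (z - p) := by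
        rw [← hconst, smul_smul, ← Real.exp_add, neg_add_cancel, Real.exp_zero, one_smul]
      rw [← h9]; abel
    show c r = γ r
    rw [← hs.sec.left (hmem r ⟨hr.1.le, le_rfl⟩), h8]
  exact hclosed.Icc_subset_of_forall_mem_nhdsWithin h0 hstep ⟨ht, le_rfl⟩

/-- Points of the sheet stay in the sheet under the backward flow. -/
lemma src_stay [T2Space N] {u X : N → E} {Fl : ℝ → N → N} (h : IsFlow u X Fl)
    {U : Set E} {σ : E → N} {p : E} (hs : Src u X U σ p) {x : N} (hx : x ∈ σ '' U) {t : ℝ}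
    (ht : 0 ≤ t) : Fl (-t) x ∈ σ '' U := by
  obtain ⟨z, hz, rfl⟩ := hx
  rw [src_flow h hs hz ht]
  exact ⟨_, hs.seg hz ht, rfl⟩

/-- The chart of `N` given by the flow out of the source. -/
def Phi (Fl : ℝ → N → N) (σ : E → N) (p : E) (r : ℝ) (z : E) : N :=
  Fl (Real.log (1 + ‖z‖ / r)) (σ (p + Real.exp (-Real.log (1 + ‖z‖ / r)) • z))

section phi

variable [T2Space N] {u X : N → E} {Fl : ℝ → N → N} (h : IsFlow u X Fl)
  {U : Set E} {σ : E → N} {p : E} (hs : Src u X U σ p) {r : ℝ} (hr : 0 < r) (hrU : ball p r ⊆ U)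
include h hs hr hrU

lemma Phi_two {z : E} {s t : ℝ} (hst : s ≤ t) (h1 : Real.exp (-s) * ‖z‖ < r) :
    Fl t (σ (p + Real.exp (-t) • z)) = Fl s (σ (p + Real.exp (-s) • z)) := by
  have h2 : p + Real.exp (-s) • z ∈ U := by
    apply hrU
    rw [mem_ball, dist_eq_norm, add_sub_cancel_left, norm_smul, Real.norm_eq_abs,
      abs_of_pos (Real.exp_pos _)]
    exact h1
  have h3 := src_flow h hs h2 (sub_nonneg.2 hst)
  rw [add_sub_cancel_left, smul_smul, ← Real.exp_add] at h3
  have h4 : -(t - s) + -s = -t := by ring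
  rw [h4] at h3
  rw [← h3, ← h.add]
  congr 1
  ring

lemma Phi_eq {z : E} {t : ℝ} (h1 : Real.exp (-t) * ‖z‖ < r) :
    Phi Fl σ p r z = Fl t (σ (p + Real.exp (-t) • z)) := by
  set T := Real.log (1 + ‖z‖ / r) with hT
  have hpos : 0 < 1 + ‖z‖ / r := by positivity
  have h2 : Real.exp (-T) * ‖z‖ < r := by
    rw [Real.exp_neg, hT, Real.exp_log hpos, ← div_eq_inv_mul, div_lt_iff₀ hpos]
    have : r * (1 + ‖z‖ / r) = r + ‖z‖ := by field_simp
    rw [this]; linarith
  show Fl T (σ (p + Real.exp (-T) • z)) = _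
  rcases le_total T t with h3 | h3
  · exact (Phi_two h hs hr hrU h3 h2).symm
  · exact Phi_two h hs hr hrU h3 h1

lemma exists_time (z : E) : ∃ T : ℝ, ∀ t ≥ T, Real.exp (-t) * ‖z‖ < r := by
  have h1 : Tendsto (fun t : ℝ => Real.exp (-t) * ‖z‖) atTop (𝓝 (0 * ‖z‖)) :=
    (Real.tendsto_exp_neg_atTop_nhds_zero).mul_const _
  rw [zero_mul] at h1
  exact eventually_atTop.1 (h1.eventually_lt_const hr)

lemma Phi_exp (s : ℝ) (z : E) : Phi Fl σ p r (Real.exp s • z) = Fl s (Phi Fl σ p r z) := by
  obtain ⟨T, hT⟩ := exists_time h hs hr hrU z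
  have h1 := hT T le_rfl
  have h2 : Real.exp (-(s + T)) * ‖Real.exp s • z‖ < r := by
    rw [norm_smul, Real.norm_eq_abs, abs_of_pos (Real.exp_pos _), ← mul_assoc, ← Real.exp_add]
    convert h1 using 3
    ring
  rw [Phi_eq h hs hr hrU h2, Phi_eq h hs hr hrU h1, smul_smul, ← Real.exp_add, ← h.add]
  congr 5
  ring

lemma Phi_inj : Function.Injective (Phi Fl σ p r) := by
  intro z w hzw
  obtain ⟨T, hT⟩ := exists_time h hs hr hrU z
  obtain ⟨T', hT'⟩ := exists_time h hs hr hrU w
  set t := max T T'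
  have h1 := hT t (le_max_left _ _)
  have h2 := hT' t (le_max_right _ _)
  rw [Phi_eq h hs hr hrU h1, Phi_eq h hs hr hrU h2] at hzw
  have h3 := congrArg (Fl (-t)) hzw
  rw [h.neg_add, h.neg_add] at h3
  have hmem : ∀ w : E, Real.exp (-t) * ‖w‖ < r → p + Real.exp (-t) • w ∈ U := by
    intro w hw
    apply hrU
    rw [mem_ball, dist_eq_norm, add_sub_cancel_left, norm_smul, Real.norm_eq_abs,
      abs_of_pos (Real.exp_pos _)]
    exact hw
  have h4 := congrArg u h3
  rw [hs.sec.right _ (hmem z h1), hs.sec.right _ (hmem w h2)] at h4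
  have h5 : Real.exp (-t) • z = Real.exp (-t) • w := add_left_cancel h4
  exact smul_right_injective E (Real.exp_pos _).ne' h5

omit h hr hrU in
lemma sec_locdiff (hu : ContMDiff 𝓘(ℝ, E) 𝓘(ℝ, E) ∞ u) {z : E} (hz : z ∈ U) :
    IsLocalDiffeomorphAt 𝓘(ℝ, E) 𝓘(ℝ, E) ∞ σ z := by
  refine ⟨{ toFun := σ, invFun := u, source := U, target := σ '' U,
            map_source' := fun z hz => ⟨z, hz, rfl⟩,
            map_target' := fun x hx => hs.sec.mem hx,
            left_inv' := fun z hz => hs.sec.right z hz,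
            right_inv' := fun x hx => hs.sec.left hx,
            open_source := hs.sec.isOpen,
            open_target := hs.sec.image,
            contMDiffOn_toFun := hs.sec.smooth,
            contMDiffOn_invFun := hu.contMDiffOn }, hz, fun z _ => rfl⟩

lemma Phi_locdiff (hu : ContMDiff 𝓘(ℝ, E) 𝓘(ℝ, E) ∞ u) :
    IsLocalDiffeomorph 𝓘(ℝ, E) 𝓘(ℝ, E) ∞ (Phi Fl σ p r) := by
  intro z
  obtain ⟨T, hT⟩ := exists_time h hs hr hrU z
  have h1 := hT T le_rfl
  have h2 : ∀ᶠ w in 𝓝 z, Real.exp (-T) * ‖w‖ < r := by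
    have : ContinuousAt (fun w : E => Real.exp (-T) * ‖w‖) z := by fun_prop
    exact this.eventually_lt_const h1
  have h3 : ∀ᶠ w in 𝓝 z, Phi Fl σ p r w = Fl T (σ (p + Real.exp (-T) • w)) := by
    filter_upwards [h2] with w hw using Phi_eq h hs hr hrU hw
  have hA : IsLocalDiffeomorphAt 𝓘(ℝ, E) 𝓘(ℝ, E) ∞ (fun w : E => p + Real.exp (-T) • w) z := by
    let D : E ≃ₘ^∞⟮𝓘(ℝ, E), 𝓘(ℝ, E)⟯ E :=
      { toFun := fun w => p + Real.exp (-T) • w
        invFun := fun w => Real.exp T • (w - p)
        left_inv := fun w => by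
          simp only [add_sub_cancel_left, smul_smul, ← Real.exp_add, add_neg_cancel,
            Real.exp_zero, one_smul]
        right_inv := fun w => by
          simp only [smul_smul, ← Real.exp_add, neg_add_cancel, Real.exp_zero, one_smul]
          abel
        contMDiff_toFun := by
          have : ContDiff ℝ ∞ (fun w : E => p + Real.exp (-T) • w) := by fun_prop
          exact this.contMDiff
        contMDiff_invFun := by
          have : ContDiff ℝ ∞ (fun w : E => Real.exp T • (w - p)) := by fun_prop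
          exact this.contMDiff }
    exact D.isLocalDiffeomorph z
  have hmem : p + Real.exp (-T) • z ∈ U := by
    apply hrU
    rw [mem_ball, dist_eq_norm, add_sub_cancel_left, norm_smul, Real.norm_eq_abs,
      abs_of_pos (Real.exp_pos _)]
    exact h1
  have hB := sec_locdiff hs hu hmem
  have hC := h.isLocalDiffeomorph T (σ (p + Real.exp (-T) • z))
  have hD := hA.comp 𝓘(ℝ, E) N hB
  have hF := hD.comp 𝓘(ℝ, E) N hC
  obtain ⟨Ψ, hΨ1, hΨ2⟩ := hF
  obtain ⟨O, hO1, hO2, hO3⟩ := _root_.mem_nhds_iff.1 h3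
  refine ⟨{ toPartialEquiv := Ψ.toPartialEquiv.restr O
            open_source := by
              rw [PartialEquiv.restr_source]
              exact Ψ.open_source.inter hO2
            open_target := ?_
            contMDiffOn_toFun := Ψ.contMDiffOn_toFun.mono (by
              rw [PartialEquiv.restr_source]; exact inter_subset_left)
            contMDiffOn_invFun := Ψ.contMDiffOn_invFun.mono (by
              rw [PartialEquiv.restr_target]; exact inter_subset_left) }, ?_, ?_⟩
  · rw [PartialEquiv.restr_target]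
    exact Ψ.contMDiffOn_invFun.continuousOn.isOpen_inter_preimage Ψ.open_target hO2
  · show z ∈ (Ψ.toPartialEquiv.restr O).source
    rw [PartialEquiv.restr_source]
    exact ⟨hΨ1, hO3⟩
  · intro w hw
    have hw' : w ∈ Ψ.source ∩ O := by
      rw [← PartialEquiv.restr_source]; exact hw
    rw [hO1 hw'.2]
    exact hΨ2 hw'.1

lemma Phi_openEmbedding (hu : ContMDiff 𝓘(ℝ, E) 𝓘(ℝ, E) ∞ u) :
    Topology.IsOpenEmbedding (Phi Fl σ p r) := by
  have h1 := Phi_locdiff h hs hr hrU hu
  exact .of_continuous_injective_isOpenMap h1.contMDiff.continuous (Phi_inj h hs hr hrU)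
    h1.isOpenMap

end phi

end Pool.Agent.Q196.XB
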