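import Mathlib

/-! A compact domain which is transversal to the radial field is a smooth ball. -/

set_option autoImplicit false
set_option linter.unusedSectionVars false

open scoped Topology ContDiff Manifold RealInnerProductSpace Gradient
open Set Metric Filter Bundle

noncomputable section

namespace Pool.Agent.Q196.XB

variable {E : Type} [NormedAddCommGroup E] [InnerProductSpace ℝ E] [FiniteDimensional ℝ E]

/-- inverse function theorem -/
theorem locdiff_of_contDiff {f : E → E} {x : E} (hf : ContDiff ℝ ∞ f)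
    (A : E ≃L[ℝ] E) (hA : HasFDerivAt f (A : E →L[ℝ] E) x) :
    IsLocalDiffeomorphAt 𝓘(ℝ, E) 𝓘(ℝ, E) ∞ f x := by
  have hn : (∞ : WithTop ℕ∞) ≠ 0 := by simp
  have hfx : ContDiffAt ℝ ∞ f x := hf.contDiffAt
  set Φ := hfx.toOpenPartialHomeomorph f hA hn with hΦ
  have hxs : x ∈ Φ.source := hfx.mem_toOpenPartialHomeomorph_source hA hn
  have hcoe : (Φ : E → E) = f := hfx.toOpenPartialHomeomorph_coe hA hn
  have hfd : fderiv ℝ f x = A := hA.fderiv
  have hcont : ContinuousAt (fderiv ℝ f) x :=
    (hfx.fderiv_right (m := 0) (by simp)).continuousAt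
  have h2 : ∀ᶠ y in 𝓝 x, fderiv ℝ f y ∈ range ((↑) : (E ≃L[ℝ] E) → (E →L[ℝ] E)) := by
    apply hcont
    rw [hfd]
    exact ContinuousLinearEquiv.nhds A
  obtain ⟨s, hs, hso, hxs'⟩ := _root_.eventually_nhds_iff.1 h2
  let Ψ := Φ.restrOpen s hso
  refine ⟨{ toPartialEquiv := Ψ.toPartialEquiv
            open_source := Ψ.open_source
            open_target := Ψ.open_target
            contMDiffOn_toFun := ?_
            contMDiffOn_invFun := ?_ }, ?_, ?_⟩
  · intro y hy
    have : ContDiffAt ℝ ∞ f y := hf.contDiffAt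
    rw [← hcoe] at this
    exact (contMDiffAt_iff_contDiffAt.2 this).contMDiffWithinAt
  · intro z hz
    have hz' : z ∈ Ψ.target := hz
    have h4 : Ψ.symm z ∈ Ψ.source := Ψ.map_target hz'
    rw [OpenPartialHomeomorph.restrOpen_source] at h4
    obtain ⟨B, hB⟩ := hs _ h4.2
    have h7 : HasFDerivAt Ψ (B : E →L[ℝ] E) (Ψ.symm z) := by
      have h8 : (Ψ : E → E) = f := hcoe
      rw [h8, hB]
      exact (hf.differentiable hn _).hasFDerivAt
    have h9 : ContDiffAt ℝ ∞ Ψ (Ψ.symm z) := by
      have h8 : (Ψ : E → E) = f := hcoe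
      rw [h8]
      exact hf.contDiffAt
    exact (contMDiffAt_iff_contDiffAt.2 (Ψ.contDiffAt_symm hz' h7 h9)).contMDiffWithinAt
  · change x ∈ Ψ.source
    rw [OpenPartialHomeomorph.restrOpen_source]
    exact ⟨hxs, hxs'⟩
  · intro y hy
    change f y = Φ y
    rw [hcoe]

theorem locdiff_of_injective {f : E → E} {x : E} (hf : ContDiff ℝ ∞ f)
    (hi : ∀ v, fderiv ℝ f x v = 0 → v = 0) :
    IsLocalDiffeomorphAt 𝓘(ℝ, E) 𝓘(ℝ, E) ∞ f x := by
  have hinj : Function.Injective (fderiv ℝ f x) :=
    (injective_iff_map_eq_zero _).2 hi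
  let A : E ≃L[ℝ] E := (LinearEquiv.ofInjectiveEndo (fderiv ℝ f x : E →ₗ[ℝ] E)
    hinj).toContinuousLinearEquiv
  refine locdiff_of_contDiff hf A ?_
  have : (A : E →L[ℝ] E) = fderiv ℝ f x := by
    ext v; rfl
  rw [this]
  exact (hf.differentiable (by simp) x).hasFDerivAt

/-- A function which is increasing at its zeros has at most one zero. -/
lemma cross {φ φ' : ℝ → ℝ} (hd : ∀ s, HasDerivAt φ (φ' s) s) (hz : ∀ s, φ s = 0 → 0 < φ' s)
    {a b : ℝ} (hab : a < b) (h : 0 ≤ φ a) : 0 < φ b := by
  have h1 : ∀ x ∈ Icc a b, -φ x ≤ 0 := by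
    refine image_le_of_deriv_right_lt_deriv_boundary (f := fun x => -φ x) (f' := fun x => -φ' x)
      (B := fun _ => 0) (B' := fun _ => 0) ?_ ?_ (by linarith) ?_ ?_
    · exact fun x _ => (hd x).neg.continuousAt.continuousWithinAt
    · exact fun x _ => (hd x).neg.hasDerivWithinAt
    · exact fun x => hasDerivAt_const x 0
    · intro x _ hx
      have hx' : φ x = 0 := by linarith
      have := hz x hx'
      linarith
  have h2 : 0 ≤ φ b := by linarith [h1 b ⟨hab.le, le_rfl⟩]
  rcases h2.eq_or_lt with h3 | h3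
  · exfalso
    have h4 := hz b h3.symm
    have h5 : ∀ᶠ r in 𝓝[<] b, 0 < slope φ b r :=
      (hasDerivWithinAt_iff_tendsto_slope' (s := Iio b) (self_notMem_Iio)).1
        (hd b).hasDerivWithinAt |>.eventually_const_lt h4
    obtain ⟨r, hr1, hr2⟩ := (h5.and (Ioo_mem_nhdsLT hab)).exists
    rw [slope_def_field, ← h3, sub_zero] at hr1
    have h6 : φ r < 0 := by
      rcases div_pos_iff.1 hr1 with h7 | h7
      · linarith [h7.2, hr2.2]
      · exact h7.1
    linarith [h1 r ⟨hr2.1.le, hr2.2.le⟩]
  · exact h3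

section star

variable {g : E → ℝ} (hg : ContDiff ℝ ∞ g) (hc : IsCompact {z | g z ≤ 0}) (h0 : g 0 < 0)
  (hr : ∀ z, g z = 0 → 0 < fderiv ℝ g z z)

include hg

lemma ray_deriv (z : E) (s : ℝ) :
    HasDerivAt (fun s => g (Real.exp s • z)) (fderiv ℝ g (Real.exp s • z) (Real.exp s • z)) s := by
  have h1 : HasDerivAt (fun s => Real.exp s • z) (Real.exp s • z) s :=
    (Real.hasDerivAt_exp s).smul_const z
  exact ((hg.differentiable (by simp) _).hasFDerivAt).comp_hasDerivAt s h1

include hc h0 hr

lemma exists_beta {z : E} (hz : z ≠ 0) : ∃! s : ℝ, g (Real.exp s • z) = 0 := by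
  have hcont : Continuous (fun s : ℝ => g (Real.exp s • z)) :=
    hg.continuous.comp (by fun_prop)
  obtain ⟨R, hR⟩ := hc.isBounded.subset_closedBall (0 : E)
  have hzn : 0 < ‖z‖ := norm_pos_iff.2 hz
  -- large times
  obtain ⟨b, hb⟩ : ∃ b : ℝ, 0 < g (Real.exp b • z) := by
    have h1 : Tendsto (fun s : ℝ => Real.exp s * ‖z‖) atTop atTop :=
      Real.tendsto_exp_atTop.atTop_mul_const hzn
    obtain ⟨b, hb⟩ := (h1.eventually_gt_atTop R).exists
    refine ⟨b, ?_⟩
    by_contra hle
    have h2 := hR (show Real.exp b • z ∈ {z | g z ≤ 0} from not_lt.1 hle)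
    rw [mem_closedBall_zero_iff, norm_smul, Real.norm_eq_abs, abs_of_pos (Real.exp_pos _)] at h2
    linarith
  obtain ⟨a, ha⟩ : ∃ a : ℝ, g (Real.exp a • z) < 0 := by
    have h1 : Tendsto (fun s : ℝ => Real.exp s • z) atBot (𝓝 ((0:ℝ) • z)) :=
      Real.tendsto_exp_atBot.smul_const z
    rw [zero_smul] at h1
    have h2 := hg.continuous.continuousAt.tendsto.comp h1
    exact (h2.eventually_lt_const h0).exists
  have hz' : ∀ s, g (Real.exp s • z) = 0 → 0 < fderiv ℝ g (Real.exp s • z) (Real.exp s • z) :=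
    fun s hs => hr _ hs
  obtain ⟨s, hs⟩ : ∃ s : ℝ, g (Real.exp s • z) = 0 :=
    mem_range_of_exists_le_of_exists_ge hcont ⟨a, ha.le⟩ ⟨b, hb.le⟩
  refine ⟨s, hs, fun s' hs' => ?_⟩
  rcases lt_trichotomy s s' with h | h | h
  · have := cross (ray_deriv hg z) hz' h hs.ge
    simp only at hs'
    linarith
  · exact h.symm
  · have := cross (ray_deriv hg z) hz' h (le_of_eq hs'.symm)
    linarith

omit hc h0 hr in
/-- The logarithmic distance to the boundary in direction `z`. -/
def beta (g : E → ℝ) (z : E) : ℝ :=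
  open Classical in if h : ∃ s : ℝ, g (Real.exp s • z) = 0 then h.choose else 0

lemma beta_spec {z : E} (hz : z ≠ 0) : g (Real.exp (beta g z) • z) = 0 := by
  have h := (exists_beta hg hc h0 hr hz).exists
  unfold beta
  rw [dif_pos h]
  exact h.choose_spec

lemma beta_unique {z : E} (hz : z ≠ 0) {s : ℝ} (hs : g (Real.exp s • z) = 0) : beta g z = s :=
  (exists_beta hg hc h0 hr hz).unique (beta_spec hg hc h0 hr hz) hs

lemma beta_exp {z : E} (hz : z ≠ 0) (s : ℝ) : beta g (Real.exp s • z) = beta g z - s := by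
  refine beta_unique hg hc h0 hr (smul_ne_zero (Real.exp_pos s).ne' hz) ?_
  rw [smul_smul, ← Real.exp_add, sub_add_cancel]
  exact beta_spec hg hc h0 hr hz

lemma le_iff_beta {z : E} (hz : z ≠ 0) : g z ≤ 0 ↔ 0 ≤ beta g z := by
  have hz' : ∀ s, g (Real.exp s • z) = 0 → 0 < fderiv ℝ g (Real.exp s • z) (Real.exp s • z) :=
    fun s hs => hr _ hs
  have e0 : g (Real.exp 0 • z) = g z := by rw [Real.exp_zero, one_smul]
  have hb := beta_spec hg hc h0 hr hz
  constructor
  · intro h
    by_contra hlt
    push Not at hlt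
    have := cross (ray_deriv hg z) hz' hlt hb.ge
    rw [e0] at this
    linarith
  · intro h
    by_contra hlt
    push Not at hlt
    rcases h.eq_or_lt with h1 | h1
    · rw [← h1, e0] at hb
      linarith
    · have := cross (ray_deriv hg z) hz' h1 (by rw [e0]; exact hlt.le)
      linarith

lemma beta_smooth {z : E} (hz : z ≠ 0) : ContDiffAt ℝ ∞ (beta g) z := by
  have hF : ContDiff ℝ ∞ (fun q : E × ℝ => g (Real.exp q.2 • q.1)) := by
    exact hg.comp ((Real.contDiff_exp.comp contDiff_snd).smul contDiff_fst)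
  set F : E × ℝ → ℝ := fun q => g (Real.exp q.2 • q.1) with hFd
  have cdf : ContDiffAt ℝ ∞ F (z, beta g z) := hF.contDiffAt
  have hpn : (∞ : WithTop ℕ∞) ≠ 0 := by simp
  have hval : (fderiv ℝ F (z, beta g z) ∘L .inr ℝ E ℝ) 1 =
      fderiv ℝ g (Real.exp (beta g z) • z) (Real.exp (beta g z) • z) := by
    have h1 := ray_deriv hg z (beta g z)
    have h2 : HasDerivAt (fun s : ℝ => F (z, s)) (fderiv ℝ F (z, beta g z) (0, 1)) (beta g z) := by
      have h3 : HasDerivAt (fun s : ℝ => ((z, s) : E × ℝ)) ((0 : E), (1:ℝ)) (beta g z) :=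
        (hasDerivAt_const _ z).prodMk (hasDerivAt_id _)
      exact ((hF.differentiable (by simp) _).hasFDerivAt).comp_hasDerivAt _ h3
    exact h2.unique h1
  have hpos : 0 < (fderiv ℝ F (z, beta g z) ∘L .inr ℝ E ℝ) 1 := by
    rw [hval]
    exact hr _ (beta_spec hg hc h0 hr hz)
  have hinv : (fderiv ℝ F (z, beta g z) ∘L .inr ℝ E ℝ).IsInvertible := by
    set c := (fderiv ℝ F (z, beta g z) ∘L .inr ℝ E ℝ) 1 with hcdef
    refine ⟨ContinuousLinearEquiv.smulLeft (Units.mk0 c hpos.ne'), ?_⟩
    ext
    simp [Units.smul_def, hcdef]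
  have h1 := cdf.contDiffAt_implicitFunction hpn hinv
  have h2 := cdf.eventually_apply_implicitFunction hpn hinv
  refine h1.congr_of_eventuallyEq ?_
  have h3 : ∀ᶠ w in 𝓝 z, w ≠ 0 := isOpen_ne.mem_nhds hz
  filter_upwards [h2, h3] with w hw hw0
  refine beta_unique hg hc h0 hr hw0 ?_
  have h4 : F (w, cdf.implicitFunction hpn hinv w) = F (z, beta g z) := hw
  have h5 : F (z, beta g z) = 0 := beta_spec hg hc h0 hr hz
  rw [h5] at h4
  exact h4

omit hg hc h0 hr in
/-- The derivative of the smooth transition function is bounded. -/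
lemma exists_trans_bound : ∃ C : ℝ, 0 < C ∧ ∀ t, |deriv Real.smoothTransition t| ≤ C := by
  have hcd : ContDiff ℝ ∞ Real.smoothTransition := Real.smoothTransition.contDiff
  have hcont : Continuous (deriv Real.smoothTransition) := hcd.continuous_deriv (by simp)
  obtain ⟨C, hC⟩ := (isCompact_Icc (a := (-1:ℝ)) (b := 2)).exists_bound_of_continuousOn
    hcont.continuousOn
  refine ⟨max C 1, lt_max_of_lt_right one_pos, fun t => ?_⟩
  by_cases ht : t ∈ Icc (-1:ℝ) 2
  · exact (hC t ht).trans (le_max_left _ _)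
  · have h0 : deriv Real.smoothTransition t = 0 := by
      rw [mem_Icc, not_and_or, not_le, not_le] at ht
      rcases ht with h | h
      · have : Real.smoothTransition =ᶠ[𝓝 t] fun _ => 0 := by
          filter_upwards [Iio_mem_nhds (show t < 0 by linarith)] with s hs
          exact Real.smoothTransition.zero_of_nonpos (le_of_lt hs)
        rw [this.deriv_eq, deriv_const]
      · have : Real.smoothTransition =ᶠ[𝓝 t] fun _ => 1 := by
          filter_upwards [Ioi_mem_nhds (show 1 < t by linarith)] with s hs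
          exact Real.smoothTransition.one_of_one_le (le_of_lt hs)
        rw [this.deriv_eq, deriv_const]
    rw [h0, abs_zero]
    positivity

omit hg hc h0 hr in
/-- A slow transition function. -/
lemma exists_kappa (a : ℝ) {Λ : ℝ} (hΛ : 0 < Λ) : ∃ κ : ℝ → ℝ, ContDiff ℝ ∞ κ ∧
    (∀ t, a ≤ t → κ t = 1) ∧ (∃ c, ∀ t ≤ c, κ t = 0) ∧ ∀ t, |deriv κ t| * Λ < 1 := by
  obtain ⟨C, hC, hC'⟩ := exists_trans_bound
  set L := 2 * C * Λ with hL
  have hLpos : 0 < L := by positivity
  have hd : ∀ t, HasDerivAt (fun t : ℝ => 1 + (t - a) / L) (1 / L) t := fun t =>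
    (((hasDerivAt_id t).sub_const a).div_const L).const_add 1
  refine ⟨fun t => Real.smoothTransition (1 + (t - a) / L), ?_, ?_, ⟨a - L, ?_⟩, ?_⟩
  · have h1 : ContDiff ℝ ∞ Real.smoothTransition := Real.smoothTransition.contDiff
    exact h1.comp (by fun_prop)
  · intro t ht
    apply Real.smoothTransition.one_of_one_le
    have : 0 ≤ (t - a) / L := div_nonneg (by linarith) hLpos.le
    linarith
  · intro t ht
    apply Real.smoothTransition.zero_of_nonpos
    have : (t - a) / L ≤ -1 := by
      rw [div_le_iff₀ hLpos]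
      linarith
    linarith
  · intro t
    have hcd : ContDiff ℝ ∞ Real.smoothTransition := Real.smoothTransition.contDiff
    have h1 : HasDerivAt (fun t => Real.smoothTransition (1 + (t - a) / L))
        (deriv Real.smoothTransition (1 + (t - a) / L) * (1 / L)) t :=
      ((hcd.differentiable (by simp) _).hasDerivAt).comp t (hd t)
    rw [h1.deriv, abs_mul, abs_of_pos (show 0 < 1 / L by positivity)]
    have h2 := hC' (1 + (t - a) / L)
    have h3 : |deriv Real.smoothTransition (1 + (t - a) / L)| * (1 / L) * Λ ≤ C * (1 / L) * Λ := by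
      gcongr
    have h4 : C * (1 / L) * Λ = 1 / 2 := by
      rw [hL]; field_simp
    linarith

/-- **A compact domain which is transversal to the radial field is a smooth ball.** -/
theorem star_ball : ∃ Θ : E ≃ₘ^∞⟮𝓘(ℝ, E), 𝓘(ℝ, E)⟯ E, Θ '' closedBall 0 1 = {z | g z ≤ 0} := by
  classical
  -- the logarithmic radius
  set lam : E → ℝ := fun z => beta g z + Real.log ‖z‖ with hlam
  have hlog : ∀ z : E, z ≠ 0 → ContDiffAt ℝ ∞ (fun z : E => Real.log ‖z‖) z := fun z hz =>
    (contDiffAt_norm ℝ hz).log (norm_pos_iff.2 hz).ne'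
  have hlams : ∀ z : E, z ≠ 0 → ContDiffAt ℝ ∞ lam z := fun z hz =>
    (beta_smooth hg hc h0 hr hz).add (hlog z hz)
  have hlogexp : ∀ (z : E) (s : ℝ), z ≠ 0 → Real.log ‖Real.exp s • z‖ = s + Real.log ‖z‖ := by
    intro z s hz
    rw [norm_smul, Real.norm_eq_abs, abs_of_pos (Real.exp_pos s),
      Real.log_mul (Real.exp_pos s).ne' (norm_pos_iff.2 hz).ne', Real.log_exp]
  have hlam_exp : ∀ (z : E) (s : ℝ), z ≠ 0 → lam (Real.exp s • z) = lam z := by
    intro z s hz
    simp only [hlam]
    rw [beta_exp hg hc h0 hr hz, hlogexp z s hz]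
    ring
  obtain ⟨Λ0, hΛ0⟩ := (isCompact_sphere (0:E) 1).exists_bound_of_continuousOn (f := lam) (by
    intro z hz
    have hz0 : z ≠ 0 := by
      rintro rfl
      simp at hz
    exact (hlams z hz0).continuousAt.continuousWithinAt)
  have hlamb : ∀ z : E, z ≠ 0 → |lam z| ≤ max Λ0 1 := by
    intro z hz
    have hzn : 0 < ‖z‖ := norm_pos_iff.2 hz
    have h1 : lam (Real.exp (-Real.log ‖z‖) • z) = lam z := hlam_exp z _ hz
    rw [← h1]
    refine (hΛ0 _ ?_).trans (le_max_left _ _)
    rw [mem_sphere_zero_iff_norm, norm_smul, Real.norm_eq_abs, abs_of_pos (Real.exp_pos _),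
      Real.exp_neg, Real.exp_log hzn, inv_mul_cancel₀ hzn.ne']
  set Λ := max Λ0 1 with hΛ
  have hΛpos : 0 < Λ := lt_max_of_lt_right one_pos
  obtain ⟨κ, hκ, hκ1, ⟨c0, hκ0⟩, hκd⟩ := exists_kappa (-Λ) hΛpos
  set F : E → E := fun z => Real.exp (-(κ (Real.log ‖z‖) * lam z)) • z with hF
  -- along rays
  have hFexp : ∀ (z : E) (s : ℝ), z ≠ 0 → F (Real.exp s • z) =
      Real.exp (s - κ (s + Real.log ‖z‖) * lam z) • z := by
    intro z s hz
    simp only [hF]
    rw [hlogexp z s hz, hlam_exp z s hz, smul_smul, ← Real.exp_add]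
    congr 2
    ring
  have hmono : ∀ z : E, z ≠ 0 → StrictMono (fun t : ℝ => t - κ t * lam z) := by
    intro z hz
    refine strictMono_of_deriv_pos fun t => ?_
    have h1 : HasDerivAt (fun t : ℝ => t - κ t * lam z) (1 - deriv κ t * lam z) t :=
      (hasDerivAt_id t).sub (((hκ.differentiable (by simp) t).hasDerivAt).mul_const _)
    rw [h1.deriv]
    have h2 : |deriv κ t * lam z| < 1 := by
      rw [abs_mul]
      exact (mul_le_mul_of_nonneg_left (hlamb z hz) (abs_nonneg _)).trans_lt (hκd t)
    linarith [(abs_lt.1 h2).2]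
  -- smoothness
  have hF0 : F =ᶠ[𝓝 (0:E)] fun z => z := by
    have h1 : ball (0:E) (Real.exp c0) ∈ 𝓝 (0:E) := ball_mem_nhds _ (Real.exp_pos _)
    filter_upwards [h1] with z hz
    by_cases hz0 : z = 0
    · rw [hz0]; simp [hF]
    · have h2 : Real.log ‖z‖ ≤ c0 := by
        rw [mem_ball_zero_iff] at hz
        exact ((Real.log_lt_iff_lt_exp (norm_pos_iff.2 hz0)).2 hz).le
      simp only [hF]
      rw [hκ0 _ h2, zero_mul, neg_zero, Real.exp_zero, one_smul]
  have hFs : ContDiff ℝ ∞ F := by
    rw [contDiff_iff_contDiffAt]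
    intro z
    by_cases hz : z = 0
    · rw [hz]
      exact contDiffAt_id.congr_of_eventuallyEq hF0
    · have h1 : ContDiffAt ℝ ∞ (fun z => κ (Real.log ‖z‖)) z :=
        hκ.contDiffAt.comp z (hlog z hz)
      exact (((h1.mul (hlams z hz)).neg).exp).smul contDiffAt_id
  -- the derivative
  have hFd : ∀ z v, fderiv ℝ F z v = 0 → v = 0 := by
    intro z v hv
    by_cases hz : z = 0
    · rw [hz, hF0.fderiv_eq] at hv
      simpa using hv
    · have hh : ContDiffAt ℝ ∞ (fun z => Real.exp (-(κ (Real.log ‖z‖) * lam z))) z := by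
        have h1 : ContDiffAt ℝ ∞ (fun z => κ (Real.log ‖z‖)) z :=
          hκ.contDiffAt.comp z (hlog z hz)
        exact ((h1.mul (hlams z hz)).neg).exp
      set hh' := fun z => Real.exp (-(κ (Real.log ‖z‖) * lam z)) with hh'd
      have h1 : fderiv ℝ F z v = hh' z • v + (fderiv ℝ hh' z v) • z := by
        have h2 : HasFDerivAt F _ z :=
          (hh.differentiableAt (by simp)).hasFDerivAt.smul (hasFDerivAt_id z)
        rw [h2.fderiv]
        simp
      have hpos : 0 < hh' z := Real.exp_pos _
      obtain ⟨μ, hμ⟩ : ∃ μ : ℝ, v = μ • z := by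
        refine ⟨-(fderiv ℝ hh' z v) / hh' z, ?_⟩
        rw [hv] at h1
        have h3 : hh' z • v = -(fderiv ℝ hh' z v) • z := by
          rw [neg_smul]
          exact (neg_eq_of_add_eq_zero_left h1.symm).symm
        have h4 : (hh' z)⁻¹ • (hh' z • v) = v := by
          rw [smul_smul, inv_mul_cancel₀ hpos.ne', one_smul]
        refine h4.symm.trans ?_
        rw [h3, smul_smul]
        congr 1
        ring
      -- derivative along the ray
      have h5 : HasDerivAt (fun s : ℝ => F (Real.exp s • z)) (fderiv ℝ F z z) 0 := by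
        have h6 : HasDerivAt (fun s : ℝ => Real.exp s • z) z 0 := by
          have := (Real.hasDerivAt_exp 0).smul_const z
          rwa [Real.exp_zero, one_smul] at this
        have h7 : HasFDerivAt F (fderiv ℝ F z) (Real.exp 0 • z) := by
          rw [Real.exp_zero, one_smul]
          exact (hFs.differentiable (by simp) z).hasFDerivAt
        exact h7.comp_hasDerivAt 0 h6
      have h8 : HasDerivAt (fun s : ℝ => F (Real.exp s • z))
          ((Real.exp (0 - κ (0 + Real.log ‖z‖) * lam z) *
            (1 - deriv κ (0 + Real.log ‖z‖) * lam z)) • z) 0 := by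
        have h9 : (fun s : ℝ => F (Real.exp s • z)) =
            fun s => Real.exp (s - κ (s + Real.log ‖z‖) * lam z) • z := by
          funext s; exact hFexp z s hz
        rw [h9]
        have h10 : HasDerivAt (fun s : ℝ => κ (s + Real.log ‖z‖))
            (deriv κ (0 + Real.log ‖z‖)) 0 := by
          have := ((hκ.differentiable (by simp) (0 + Real.log ‖z‖)).hasDerivAt).comp_add_const 0
            (Real.log ‖z‖)
          exact this
        have h11 : HasDerivAt (fun s : ℝ => s - κ (s + Real.log ‖z‖) * lam z)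
            (1 - deriv κ (0 + Real.log ‖z‖) * lam z) 0 :=
          (hasDerivAt_id 0).sub (h10.mul_const _)
        exact (h11.exp).smul_const z
      have h12 := h5.unique h8
      have h13 : |deriv κ (0 + Real.log ‖z‖) * lam z| < 1 := by
        rw [abs_mul]
        exact (mul_le_mul_of_nonneg_left (hlamb z hz) (abs_nonneg _)).trans_lt (hκd _)
      have h14 : 0 < Real.exp (0 - κ (0 + Real.log ‖z‖) * lam z) *
            (1 - deriv κ (0 + Real.log ‖z‖) * lam z) :=
        mul_pos (Real.exp_pos _) (by linarith [(abs_lt.1 h13).2])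
      rw [hμ, map_smul, h12, smul_smul, smul_eq_zero] at hv
      rcases hv with h15 | h15
      · rcases mul_eq_zero.1 h15 with h16 | h16
        · rw [hμ, h16, zero_smul]
        · exact absurd h16 h14.ne'
      · exact absurd h15 hz
  have hFne : ∀ z, F z = 0 → z = 0 := by
    intro z hz
    simp only [hF] at hz
    rcases smul_eq_zero.1 hz with h1 | h1
    · exact absurd h1 (Real.exp_pos _).ne'
    · exact h1
  -- bijectivity
  have hFb : Function.Bijective F := by
    constructor
    · intro z w hzw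
      by_cases hz : z = 0
      · rw [hz] at hzw
        have : F 0 = 0 := by simp [hF]
        rw [this] at hzw
        rw [hz, hFne w hzw.symm]
      · have hw : w ≠ 0 := by
          rintro rfl
          have : F 0 = 0 := by simp [hF]
          rw [this] at hzw
          exact hz (hFne z hzw)
        set c := -(κ (Real.log ‖z‖) * lam z)
        set d := -(κ (Real.log ‖w‖) * lam w)
        have h1 : Real.exp c • z = Real.exp d • w := hzw
        have h2 : w = Real.exp (c - d) • z := by
          have : w = Real.exp (-d) • (Real.exp d • w) := by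
            rw [smul_smul, ← Real.exp_add, neg_add_cancel, Real.exp_zero, one_smul]
          rw [this, ← h1, smul_smul, ← Real.exp_add]
          congr 2
          ring
        have h3 := hFexp z (c - d) hz
        have h4 := hFexp z 0 hz
        rw [Real.exp_zero, one_smul] at h4
        rw [← h2, ← hzw, h4] at h3
        have h5 := Real.exp_injective (smul_left_injective ℝ hz h3)
        have h6 : 0 + Real.log ‖z‖ = (c - d) + Real.log ‖z‖ := (hmono z hz).injective (by
            show 0 + Real.log ‖z‖ - κ (0 + Real.log ‖z‖) * lam z =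
              (c - d) + Real.log ‖z‖ - κ ((c - d) + Real.log ‖z‖) * lam z
            linarith)
        have h7 : c - d = 0 := by linarith
        rw [h2, h7, Real.exp_zero, one_smul]
    · intro y
      by_cases hy : y = 0
      · exact ⟨0, by rw [hy]; simp [hF]⟩
      · have hcont : Continuous (fun t : ℝ => t - κ t * lam y) :=
          continuous_id.sub (hκ.continuous.mul continuous_const)
        have hup : Tendsto (fun t : ℝ => t - κ t * lam y) atTop atTop := by
          have h1 : Tendsto (fun t : ℝ => t - lam y) atTop atTop :=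
            tendsto_atTop_add_const_right _ _ tendsto_id
          refine h1.congr' ?_
          filter_upwards [eventually_ge_atTop (-Λ)] with t ht
          rw [hκ1 t ht, one_mul]
        have hdn : Tendsto (fun t : ℝ => t - κ t * lam y) atBot atBot := by
          refine tendsto_id.congr' ?_
          filter_upwards [eventually_le_atBot c0] with t ht
          rw [hκ0 t ht, zero_mul, sub_zero]
          rfl
        obtain ⟨t, ht⟩ := hcont.surjective hup hdn (Real.log ‖y‖)
        refine ⟨Real.exp (t - Real.log ‖y‖) • y, ?_⟩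
        rw [hFexp y _ hy, sub_add_cancel]
        have : t - Real.log ‖y‖ - κ t * lam y = 0 := by
          have ht' : t - κ t * lam y = Real.log ‖y‖ := ht
          linarith
        rw [this, Real.exp_zero, one_smul]
  -- the diffeomorphism
  have hloc : IsLocalDiffeomorph 𝓘(ℝ, E) 𝓘(ℝ, E) ∞ F := fun z =>
    locdiff_of_injective hFs fun v hv => hFd z v hv
  let D := hloc.diffeomorphOfBijective hFb
  have hDF : ∀ z, D z = F z := fun z => rfl
  refine ⟨D.symm, ?_⟩
  have himg : ∀ z, z ∈ {z | g z ≤ 0} ↔ D z ∈ closedBall (0:E) 1 := by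
    intro z
    rw [hDF, mem_closedBall_zero_iff]
    by_cases hz : z = 0
    · rw [hz]
      have : F 0 = 0 := by simp [hF]
      rw [this, norm_zero]
      exact ⟨fun _ => zero_le_one, fun _ => h0.le⟩
    · have h1 : ‖F z‖ = Real.exp (Real.log ‖z‖ - κ (Real.log ‖z‖) * lam z) := by
        simp only [hF]
        rw [norm_smul, Real.norm_eq_abs, abs_of_pos (Real.exp_pos _), Real.exp_sub,
          Real.exp_log (norm_pos_iff.2 hz), Real.exp_neg]
        ring
      have hm := hmono z hz
      have h2 : lam z - κ (lam z) * lam z = 0 := by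
        rw [hκ1 _ (by linarith [(abs_le.1 (hlamb z hz)).1])]
        ring
      rw [h1, Real.exp_le_one_iff]
      show g z ≤ 0 ↔ _
      rw [le_iff_beta hg hc h0 hr hz]
      have h3 : (Real.log ‖z‖ - κ (Real.log ‖z‖) * lam z ≤ 0) ↔ Real.log ‖z‖ ≤ lam z := by
        rw [← h2]
        exact hm.le_iff_le
      rw [h3]
      simp only [hlam]
      constructor <;> intro <;> linarith
  ext z
  constructor
  · rintro ⟨w, hw, rfl⟩
    rw [himg, D.apply_symm_apply]
    exact hw
  · intro hz
    exact ⟨D z, (himg z).1 hz, D.symm_apply_apply z⟩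

end star

end Pool.Agent.Q196.XB
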