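import Pool.Agent.Q196.XB.Chart
import Pool.Agent.Q196.XB.Star

/-! A domain all of whose points flow backwards into one source is a smooth ball. -/

set_option autoImplicit false
set_option linter.unusedSectionVars false

open scoped Topology ContDiff Manifold RealInnerProductSpace Gradient
open Set Metric Filter Bundle

noncomputable section

namespace Pool.Agent.Q196.XB

variable {E : Type} [NormedAddCommGroup E] [InnerProductSpace ℝ E] [FiniteDimensional ℝ E]
  {N : Type} [TopologicalSpace N] [ChartedSpace E N] [IsManifold 𝓘(ℝ, E) ∞ N]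

/-- `M` is a smoothly embedded closed ball. -/
def IsBall (E : Type) [NormedAddCommGroup E] [InnerProductSpace ℝ E] {N : Type}
    [TopologicalSpace N] [ChartedSpace E N] (M : Set N) : Prop :=
  ∃ Φ : E → N, Topology.IsOpenEmbedding Φ ∧ IsLocalDiffeomorph 𝓘(ℝ, E) 𝓘(ℝ, E) ∞ Φ ∧
    Φ '' closedBall 0 1 = M

theorem core [T2Space N] {u X : N → E} (hu : IsLocalDiffeomorph 𝓘(ℝ, E) 𝓘(ℝ, E) ∞ u)
    {Fl : ℝ → N → N} (h : IsFlow u X Fl) {ρ : N → ℝ} (hρ : ContMDiff 𝓘(ℝ, E) 𝓘(ℝ, ℝ) ∞ ρ)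
    (hcomp : IsCompact {x | ρ x ≤ 0}) {U : Set E} {σ : E → N} {p : E} (hs : Src u X U σ p)
    (hq : ρ (σ p) < 0) (hout : ∀ x, ρ x = 0 → 0 < ⟪gr u ρ x, X x⟫)
    (hbas : ∀ x, ρ x ≤ 0 → ∃ t, 0 ≤ t ∧ Fl (-t) x ∈ σ '' U) : IsBall E {x | ρ x ≤ 0} := by
  obtain ⟨r, hr, hrU⟩ := Metric.isOpen_iff.1 hs.sec.isOpen p hs.mem
  set Φ := Phi Fl σ p r with hΦ
  have hus : ContMDiff 𝓘(ℝ, E) 𝓘(ℝ, E) ∞ u := hu.contMDiff
  have hloc := Phi_locdiff h hs hr hrU hus
  have hemb := Phi_openEmbedding h hs hr hrU hus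
  have hexp := Phi_exp h hs hr hrU
  have hsmall : ∀ z : E, ‖z‖ < r → Φ z = σ (p + z) := by
    intro z hz
    have h1 : Real.exp (-0) * ‖z‖ < r := by simpa using hz
    rw [hΦ, Phi_eq h hs hr hrU h1, h.zero]
    simp
  have hrange : {x | ρ x ≤ 0} ⊆ range Φ := by
    intro x hx
    obtain ⟨t, ht, z, hz, hzx⟩ := hbas x hx
    obtain ⟨T, hT⟩ := exists_time h hs hr hrU (z - p)
    set s := max T 0
    have h1 := hT s (le_max_left _ _)
    have h2 := src_flow h hs hz (le_max_right T 0)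
    have h3 : Φ (Real.exp (-s) • (z - p)) = Fl (-s) (σ z) := by
      rw [hsmall, h2]
      rw [norm_smul, Real.norm_eq_abs, abs_of_pos (Real.exp_pos _)]
      exact h1
    refine ⟨Real.exp (t + s) • (Real.exp (-s) • (z - p)), ?_⟩
    rw [hΦ, hexp, ← hΦ, h3, hzx, ← h.add, ← h.add]
    rw [show t + s + -s + -t = 0 by ring, h.zero]
  set g : E → ℝ := fun z => ρ (Φ z) with hg
  have hgs : ContDiff ℝ ∞ g := by
    rw [← contMDiff_iff_contDiff]
    exact hρ.comp hloc.contMDiff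
  have hgc : IsCompact {z | g z ≤ 0} :=
    hemb.toIsInducing.isCompact_preimage' hcomp hrange
  have hg0 : g 0 < 0 := by
    show ρ (Φ 0) < 0
    rw [hsmall 0 (by simpa using hr), add_zero]
    exact hq
  have hgr : ∀ z, g z = 0 → 0 < fderiv ℝ g z z := by
    intro z hz
    have h1 := hout (Φ z) hz
    have h2 := h.deriv ρ hρ (Φ z) 0
    rw [h.zero] at h2
    have h3 : HasDerivAt (fun s : ℝ => g (Real.exp s • z)) (fderiv ℝ g z z) 0 := by
      have := ray_deriv hgs z 0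
      rwa [Real.exp_zero, one_smul] at this
    have h4 : (fun s : ℝ => g (Real.exp s • z)) = fun s => ρ (Fl s (Φ z)) := by
      funext s
      show ρ (Φ (Real.exp s • z)) = _
      rw [hΦ, hexp]
    rw [h4] at h3
    rw [h3.unique h2]
    exact h1
  obtain ⟨Θ, hΘ⟩ := star_ball hgs hgc hg0 hgr
  refine ⟨Φ ∘ Θ, ?_, ?_, ?_⟩
  · exact hemb.comp Θ.toHomeomorph.isOpenEmbedding
  · intro z
    exact (Θ.isLocalDiffeomorph z).comp 𝓘(ℝ, E) N (hloc (Θ z))
  · rw [image_comp, hΘ]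
    ext x
    constructor
    · rintro ⟨z, hz, rfl⟩
      exact hz
    · intro hx
      obtain ⟨z, rfl⟩ := hrange hx
      exact ⟨z, hx, rfl⟩

/-- Backward orbits reach the set `O` outside of which `f` increases along the field. -/
theorem reach [T2Space N] {u X : N → E} (hu : IsLocalDiffeomorph 𝓘(ℝ, E) 𝓘(ℝ, E) ∞ u)
    (hX : Continuous X)
    {Fl : ℝ → N → N} (h : IsFlow u X Fl) {ρ : N → ℝ} (hρ : ContMDiff 𝓘(ℝ, E) 𝓘(ℝ, ℝ) ∞ ρ)
    (hcomp : IsCompact {x | ρ x ≤ 0}) (hout : ∀ x, ρ x = 0 → 0 < ⟪gr u ρ x, X x⟫)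
    {f : N → ℝ} (hf : ContMDiff 𝓘(ℝ, E) 𝓘(ℝ, ℝ) ∞ f) {O : Set N} (hO : IsOpen O)
    (hfX : ∀ x, ρ x ≤ 0 → x ∉ O → 0 < ⟪gr u f x, X x⟫) {x : N} (hx : ρ x ≤ 0) :
    ∃ t, 0 ≤ t ∧ Fl (-t) x ∈ O := by
  by_contra hne
  push Not at hne
  have hin : ∀ t, 0 ≤ t → ρ (Fl (-t) x) ≤ 0 := fun t ht =>
    h.stay hρ hx (fun s _ _ _ hs => hout _ hs) t ⟨ht, le_rfl⟩
  have hK : IsCompact ({x | ρ x ≤ 0} \ O) := hcomp.diff hO
  have hKn : ({x | ρ x ≤ 0} \ O).Nonempty := ⟨x, hx, by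
    have := hne 0 le_rfl
    rwa [neg_zero, h.zero] at this⟩
  have hcont : Continuous (fun x => ⟪gr u f x, X x⟫ : N → ℝ) :=
    (gr_smooth hu hf).continuous.inner hX
  obtain ⟨y, hy, hymin⟩ := hK.exists_isMinOn hKn hcont.continuousOn
  set c : ℝ := ⟪gr u f y, X y⟫ with hc
  have hc0 : 0 < c := hfX y hy.1 hy.2
  obtain ⟨z, hz, hzmin⟩ := hcomp.exists_isMinOn ⟨x, hx⟩ hf.continuous.continuousOn
  have hbound : ∀ t, 0 ≤ t → f (Fl (-t) x) ≤ f x - c * t := by
    intro t ht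
    have h1 := image_le_of_deriv_right_le_deriv_boundary (f := fun t => f (Fl (-t) x))
      (f' := fun t => -⟪gr u f (Fl (-t) x), X (Fl (-t) x)⟫) (a := 0) (b := t)
      (B := fun t => f x - c * t) (B' := fun _ => -c)
      (fun s _ => (h.deriv_neg hf x s).continuousAt.continuousWithinAt)
      (fun s _ => (h.deriv_neg hf x s).hasDerivWithinAt)
      (by simp [h.zero])
      (fun s _ => by
        have h2 : ContinuousAt (fun t : ℝ => f x - c * t) s := by fun_prop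
        exact h2.continuousWithinAt)
      (fun s _ => by
        have := ((hasDerivAt_id s).const_mul c).const_sub (f x)
        simp only [mul_one] at this
        exact this.hasDerivWithinAt)
      (fun s hs => by
        have h3 : c ≤ ⟪gr u f (Fl (-s) x), X (Fl (-s) x)⟫ :=
          isMinOn_iff.1 hymin _ ⟨hin s hs.1, hne s hs.1⟩
        linarith)
    exact h1 ⟨ht, le_rfl⟩
  have h5 := isMinOn_iff.1 hzmin
  have h6 : ∀ t, 0 ≤ t → f z ≤ f x - c * t := fun t ht =>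
    (h5 _ (hin t ht)).trans (hbound t ht)
  have h7 := h6 ((f x - f z + 1) / c) (by
    have := h5 x hx
    apply div_nonneg _ hc0.le
    linarith)
  rw [mul_div_cancel₀ _ hc0.ne'] at h7
  linarith

/-- If every point flows backwards into one of several sources, then all points of a connected
domain flow into the same one. -/
theorem one_source [T2Space N] {u X : N → E} {Fl : ℝ → N → N} (h : IsFlow u X Fl) {M : Set N}
    (hM : IsPreconnected M) {p : E} {ι : Type} {U : ι → Set E} {σ : ι → E → N}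
    (hs : ∀ i, Src u X (U i) (σ i) p) (hinj : ∀ i j, σ i p = σ j p → i = j)
    (hbas : ∀ x ∈ M, ∃ i, ∃ t, 0 ≤ t ∧ Fl (-t) x ∈ σ i '' U i) (i : ι) (hi : σ i p ∈ M) :
    ∀ x ∈ M, ∃ t, 0 ≤ t ∧ Fl (-t) x ∈ σ i '' U i := by
  classical
  set B : ι → Set N := fun j => {x | ∃ t, 0 ≤ t ∧ Fl (-t) x ∈ σ j '' U j} with hB
  have hBo : ∀ j, IsOpen (B j) := by
    intro j
    have : B j = ⋃ t ∈ Ici (0:ℝ), Fl (-t) ⁻¹' (σ j '' U j) := by
      ext x; simp [hB]
    rw [this]
    exact isOpen_biUnion fun t _ => (hs j).sec.image.preimage (h.cont_x (-t))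
  have hlim : ∀ j, ∀ x ∈ B j, Tendsto (fun t => Fl (-t) x) atTop (𝓝 (σ j p)) := by
    rintro j x ⟨t, ht, z, hz, hzx⟩
    have h1 : Tendsto (fun s : ℝ => σ j (p + Real.exp (-s) • (z - p))) atTop (𝓝 (σ j p)) := by
      have h2 : Tendsto (fun s : ℝ => p + Real.exp (-s) • (z - p)) atTop (𝓝 p) := by
        have h3 : Tendsto (fun s : ℝ => p + Real.exp (-s) • (z - p)) atTop
            (𝓝 (p + (0:ℝ) • (z - p))) :=
          ((Real.tendsto_exp_neg_atTop_nhds_zero).smul_const _).const_add _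
        simpa using h3
      exact ((hs j).sec.contAt (hs j).mem).tendsto.comp h2
    have h4 : Tendsto (fun s : ℝ => s - t) atTop atTop := tendsto_atTop_add_const_right _ _ tendsto_id
    refine (h1.comp h4).congr' ?_
    filter_upwards [eventually_ge_atTop t] with s hs'
    show σ j (p + Real.exp (-(s - t)) • (z - p)) = Fl (-s) x
    rw [← src_flow h (hs j) hz (sub_nonneg.2 hs'), hzx, ← h.add]
    congr 1
    ring
  set V : Set N := ⋃ j ∈ {j | j ≠ i}, B j with hV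
  have hVo : IsOpen V := isOpen_biUnion fun j _ => hBo j
  have hdisj : Disjoint (B i) V := by
    rw [Set.disjoint_left]
    intro x hx hxV
    simp only [hV, mem_iUnion] at hxV
    obtain ⟨j, hj, hxj⟩ := hxV
    exact hj (hinj j i (tendsto_nhds_unique (hlim j x hxj) (hlim i x hx)))
  have hcov : M ⊆ B i ∪ V := by
    intro x hx
    obtain ⟨j, hj⟩ := hbas x hx
    by_cases hji : j = i
    · left; rw [← hji]; exact hj
    · right
      simp only [hV, mem_iUnion]
      exact ⟨j, hji, hj⟩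
  have hne : (M ∩ B i).Nonempty := by
    refine ⟨σ i p, hi, 0, le_rfl, ?_⟩
    rw [neg_zero, h.zero]
    exact ⟨p, (hs i).mem, rfl⟩
  intro x hx
  exact hM.subset_left_of_subset_union (hBo i) hVo hdisj hcov hne hx

end Pool.Agent.Q196.XB
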