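import Mathlib
import Pool.Agent.H826R2.Wein.Flw

/-! Manifolds with a local diffeomorphism to a Euclidean space: sections, lifted vector fields,
gradients. -/

set_option autoImplicit false
set_option linter.unusedSectionVars false

open scoped Topology ContDiff Manifold RealInnerProductSpace
open Set Metric Filter Bundle

noncomputable section

namespace Pool.Agent.Q196.XB

variable {E : Type} [NormedAddCommGroup E] [InnerProductSpace ℝ E] [FiniteDimensional ℝ E]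
  {N : Type} [TopologicalSpace N] [ChartedSpace E N] [IsManifold 𝓘(ℝ, E) ∞ N]

/-- `σ` is a section of `u` over the open set `U`. -/
structure Sec (u : N → E) (U : Set E) (σ : E → N) : Prop where
  isOpen : IsOpen U
  right : ∀ z ∈ U, u (σ z) = z
  smooth : ContMDiffOn 𝓘(ℝ, E) 𝓘(ℝ, E) ∞ σ U
  image : IsOpen (σ '' U)

lemma Sec.left {u : N → E} {U : Set E} {σ : E → N} (h : Sec u U σ) {x : N} (hx : x ∈ σ '' U) :
    σ (u x) = x := by
  obtain ⟨z, hz, rfl⟩ := hx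
  rw [h.right z hz]

lemma Sec.mem {u : N → E} {U : Set E} {σ : E → N} (h : Sec u U σ) {x : N} (hx : x ∈ σ '' U) :
    u x ∈ U := by
  obtain ⟨z, hz, rfl⟩ := hx
  rwa [h.right z hz]

lemma Sec.inj {u : N → E} {U : Set E} {σ : E → N} (h : Sec u U σ) : InjOn u (σ '' U) := by
  intro x hx y hy hxy
  rw [← h.left hx, ← h.left hy, hxy]

lemma Sec.mono {u : N → E} {U V : Set E} {σ : E → N} (h : Sec u U σ) (hu : Continuous u)
    (hV : IsOpen V) (hVU : V ⊆ U) : Sec u V σ := by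
  refine ⟨hV, fun z hz => h.right z (hVU hz), h.smooth.mono hVU, ?_⟩
  have : σ '' V = σ '' U ∩ u ⁻¹' V := by
    ext x
    constructor
    · rintro ⟨z, hz, rfl⟩
      exact ⟨⟨z, hVU hz, rfl⟩, by show u (σ z) ∈ V; rwa [h.right z (hVU hz)]⟩
    · rintro ⟨hx, hx2⟩
      exact ⟨u x, hx2, h.left hx⟩
  rw [this]
  exact h.image.inter (hV.preimage hu)

lemma Sec.cont {u : N → E} {U : Set E} {σ : E → N} (h : Sec u U σ) : ContinuousOn σ U :=
  h.smooth.continuousOn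

lemma Sec.contAt {u : N → E} {U : Set E} {σ : E → N} (h : Sec u U σ) {z : E} (hz : z ∈ U) :
    ContinuousAt σ z := h.cont.continuousAt (h.isOpen.mem_nhds hz)

lemma Sec.smoothAt {u : N → E} {U : Set E} {σ : E → N} (h : Sec u U σ) {z : E} (hz : z ∈ U) :
    ContMDiffAt 𝓘(ℝ, E) 𝓘(ℝ, E) ∞ σ z := h.smooth.contMDiffAt (h.isOpen.mem_nhds hz)

variable {u : N → E} (hu : IsLocalDiffeomorph 𝓘(ℝ, E) 𝓘(ℝ, E) ∞ u)
include hu

lemma exists_sec (x : N) : ∃ U σ, Sec u U σ ∧ u x ∈ U ∧ σ (u x) = x := by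
  obtain ⟨Φ, hx, he⟩ := hu x
  refine ⟨Φ.target, Φ.symm, ⟨Φ.open_target, ?_, Φ.symm.contMDiffOn_toFun, ?_⟩, ?_, ?_⟩
  · intro z hz
    have h1 : Φ.symm z ∈ Φ.source := Φ.toPartialEquiv.map_target hz
    rw [he h1]
    exact Φ.toPartialEquiv.right_inv hz
  · have : (Φ.symm : E → N) '' Φ.target = Φ.source := Φ.toPartialEquiv.symm.image_source_eq_target
    rw [this]
    exact Φ.open_source
  · rw [he hx]
    exact Φ.toPartialEquiv.map_source hx
  · rw [he hx]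
    exact Φ.toPartialEquiv.left_inv hx

lemma exists_ball_sec (x : N) {W : Set N} (hW : W ∈ 𝓝 x) : ∃ σ : E → N, ∃ r > 0,
    Sec u (ball (u x) r) σ ∧ σ (u x) = x ∧ σ '' ball (u x) r ⊆ W := by
  obtain ⟨U, σ, hσ, hxU, hx⟩ := exists_sec hu x
  have h1 : σ ⁻¹' W ∈ 𝓝 (u x) := (hσ.contAt hxU).preimage_mem_nhds (by rwa [hx])
  obtain ⟨r, hr, hrU⟩ := Metric.mem_nhds_iff.1 (Filter.inter_mem h1 (hσ.isOpen.mem_nhds hxU))
  refine ⟨σ, r, hr, hσ.mono hu.contMDiff.continuous isOpen_ball (fun z hz => (hrU hz).2), hx, ?_⟩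
  rintro _ ⟨z, hz, rfl⟩
  exact (hrU hz).1

lemma inv_du (x : N) : (mfderiv 𝓘(ℝ, E) 𝓘(ℝ, E) u x).IsInvertible :=
  ⟨hu.mfderivToContinuousLinearEquiv (by simp) x, hu.mfderivToContinuousLinearEquiv_coe (by simp) x⟩

omit hu in
/-- The inverse of the differential of `u`. -/
def dI (u : N → E) (x : N) : E →L[ℝ] E :=
  (mfderiv 𝓘(ℝ, E) 𝓘(ℝ, E) u x).inverse

omit hu in
/-- The vector field on `N` which projects to `X`. -/
def lift (u : N → E) (X : N → E) (x : N) : TangentSpace 𝓘(ℝ, E) x := dI u x (X x)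

lemma du_lift (X : N → E) (x : N) : mfderiv 𝓘(ℝ, E) 𝓘(ℝ, E) u x (lift u X x) = X x :=
  (inv_du hu x).self_apply_inverse _

lemma lift_smooth {X : N → E} (hX : ContMDiff 𝓘(ℝ, E) 𝓘(ℝ, E) ∞ X) :
    ContMDiff 𝓘(ℝ, E) 𝓘(ℝ, E).tangent ∞ (fun x => (⟨x, lift u X x⟩ : TangentBundle 𝓘(ℝ, E) N)) := by
  let b := stdOrthonormalBasis ℝ E
  have h1 : ∀ i, ContMDiff 𝓘(ℝ, E) 𝓘(ℝ, E).tangent ∞
      (fun x => (⟨x, VectorField.mpullback 𝓘(ℝ, E) 𝓘(ℝ, E) u (fun _ => b i) x⟩ :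
        TangentBundle 𝓘(ℝ, E) N)) := by
    intro i
    refine ContMDiff.mpullback_vectorField (n := ∞) ?_ hu.contMDiff (inv_du hu) (by simp)
    exact contMDiff_vectorSpace_iff_contDiff.2 contDiff_const
  have h2 : ∀ i, ContMDiff 𝓘(ℝ, E) 𝓘(ℝ, ℝ) ∞ (fun x => ⟪b i, X x⟫) := by
    intro i
    have : ContDiff ℝ ∞ (fun z : E => ⟪b i, z⟫) := contDiff_const.inner ℝ contDiff_id
    exact this.contMDiff.comp hX
  have h3 : ContMDiff 𝓘(ℝ, E) 𝓘(ℝ, E).tangent ∞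
      (fun x => (⟨x, ∑ i, (⟪b i, X x⟫ : ℝ) • VectorField.mpullback 𝓘(ℝ, E) 𝓘(ℝ, E) u
        (fun _ => b i) x⟩ : TangentBundle 𝓘(ℝ, E) N)) := by
    apply ContMDiff.sum_section
    intro i _
    exact ContMDiff.smul_section (h2 i) (h1 i)
  convert h3 using 3 with x
  have h4 : X x = ∑ i, (⟪b i, X x⟫ : ℝ) • b i := (b.sum_repr' (X x)).symm
  show dI u x (X x) = ∑ i, (⟪b i, X x⟫ : ℝ) • dI u x (b i)
  conv_lhs => rw [h4]
  rw [map_sum]
  refine Finset.sum_congr rfl fun i _ => ?_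
  rw [map_smul]

end Pool.Agent.Q196.XB
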