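import Pool.Agent.Q196.XB.Second

/-! Final form of the theorem on outward normal rays. -/

set_option autoImplicit false
set_option linter.unusedSectionVars false

open scoped Topology ContDiff Manifold RealInnerProductSpace Gradient
open Set Metric Filter Bundle

noncomputable section

namespace Pool.Agent.Q196.XB

variable {E : Type} [NormedAddCommGroup E] [InnerProductSpace ℝ E] [FiniteDimensional ℝ E]
  {N : Type} [TopologicalSpace N] [ChartedSpace E N] [IsManifold 𝓘(ℝ, E) ∞ N]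

/-- The nearest point argument. -/
theorem nearest {u : N → E} (hu : IsLocalDiffeomorph 𝓘(ℝ, E) 𝓘(ℝ, E) ∞ u) {ρ : N → ℝ}
    (hρ : ContMDiff 𝓘(ℝ, E) 𝓘(ℝ, ℝ) ∞ ρ) (hreg : ∀ x, ρ x = 0 → gr u ρ x ≠ 0)
    (hcomp : IsCompact {x | ρ x ≤ 0}) (hne : {x | ρ x ≤ 0}.Nonempty) {p : E}
    (hp : ∀ x, ρ x ≤ 0 → u x ≠ p) : ∃ x, ρ x = 0 ∧ ∃ s : ℝ, 0 ≤ s ∧ u x + s • gr u ρ x = p := by
  have hus : ContMDiff 𝓘(ℝ, E) 𝓘(ℝ, E) ∞ u := hu.contMDiff
  have hfs := fd_smooth hus p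
  obtain ⟨x, hx, hmin⟩ := hcomp.exists_isMinOn hne hfs.continuous.continuousOn
  have hx' : ρ x ≤ 0 := hx
  -- a direction which decreases the distance and stays in the domain
  have key : ∀ v : E, 0 < ⟪u x - p, v⟫ → (ρ x = 0 → 0 < ⟪gr u ρ x, v⟫) → False := by
    intro v hv1 hv2
    obtain ⟨U, σ, h, hxU, hσx⟩ := exists_sec hu x
    have hx'' : x ∈ σ '' U := ⟨u x, hxU, hσx⟩
    have hline : HasDerivAt (fun t : ℝ => u x - t • v) (-v) 0 := by
      simpa using ((hasDerivAt_id (0:ℝ)).smul_const v).const_sub (u x)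
    have hder : ∀ g : N → ℝ, ContMDiff 𝓘(ℝ, E) 𝓘(ℝ, ℝ) ∞ g →
        HasDerivAt (fun t : ℝ => g (σ (u x - t • v))) (-⟪gr u g x, v⟫) 0 := by
      intro g hg
      have h1 : ContDiffAt ℝ ∞ (g ∘ σ) (u x) := by
        have : ContDiffOn ℝ ∞ (g ∘ σ) U := by
          rw [← contMDiffOn_iff_contDiffOn]
          exact hg.comp_contMDiffOn h.smooth
        exact this.contDiffAt (h.isOpen.mem_nhds hxU)
      have h2 : HasGradientAt (g ∘ σ) (gr u g x) (u x) := by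
        rw [gr_sec hu h hx'' (hg.mdifferentiableAt (by simp))]
        exact (h1.differentiableAt (by simp)).hasGradientAt
      have h3 : HasFDerivAt (g ∘ σ) ((InnerProductSpace.toDual ℝ E) (gr u g x))
          (u x - (0:ℝ) • v) := by
        rw [zero_smul, sub_zero]; exact h2.hasFDerivAt
      have h4 := h3.comp_hasDerivAt 0 hline
      refine h4.congr_deriv ?_
      simp
    have hbase : σ (u x - (0:ℝ) • v) = x := by rw [zero_smul, sub_zero]; exact hσx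
    have hcs : ∀ g : N → ℝ, ContMDiff 𝓘(ℝ, E) 𝓘(ℝ, ℝ) ∞ g → 0 < ⟪gr u g x, v⟫ →
        ∀ᶠ t in 𝓝[>] (0:ℝ), g (σ (u x - t • v)) < g x := by
      intro g hg hpos
      have h6 : ∀ᶠ r in 𝓝[>] (0:ℝ), slope (fun t : ℝ => g (σ (u x - t • v))) 0 r < 0 :=
        (hasDerivWithinAt_iff_tendsto_slope' (s := Ioi (0:ℝ)) self_notMem_Ioi).1
          (hder g hg).hasDerivWithinAt |>.eventually_lt_const (by linarith)
      filter_upwards [h6, self_mem_nhdsWithin] with r h7 hr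
      have hr' : 0 < r := hr
      rw [slope_def_field, sub_zero, div_lt_iff₀ hr', hbase] at h7
      linarith
    have hf := hcs (fd u p) hfs (by rw [gr_fd hu]; exact hv1)
    have hr : ∀ᶠ t in 𝓝[>] (0:ℝ), ρ (σ (u x - t • v)) ≤ 0 := by
      rcases hx'.eq_or_lt with h0 | h0
      · filter_upwards [hcs ρ hρ (hv2 h0)] with t ht
        rw [h0] at ht
        exact ht.le
      · have hc : ContinuousAt (fun t : ℝ => ρ (σ (u x - t • v))) 0 := (hder ρ hρ).continuousAt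
        have h1 : ρ (σ (u x - (0:ℝ) • v)) < 0 := by rw [hbase]; exact h0
        exact nhdsWithin_le_nhds ((hc.eventually_lt_const h1).mono fun t ht => ht.le)
    obtain ⟨t, ht1, ht2⟩ := (hf.and hr).exists
    exact absurd ht1 (not_lt.2 (isMinOn_iff.1 hmin _ ht2))
  have hne' : u x - p ≠ 0 := sub_ne_zero.2 (hp x hx')
  have hρx : ρ x = 0 := by
    rcases hx'.eq_or_lt with h0 | h0
    · exact h0
    · exfalso
      refine key (u x - p) ?_ (fun h => absurd h h0.ne)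
      rw [real_inner_self_eq_norm_sq]
      have := norm_pos_iff.2 hne'
      positivity
  refine ⟨x, hρx, ?_⟩
  by_contra hno
  push Not at hno
  obtain ⟨v, h1, h2⟩ := exists_common hne' (hreg x hρx) (fun s hs h => hno s hs (by
    rw [← sub_eq_zero, ← h]; abel))
  exact key v h1 fun _ => h2

/-- The outward normal rays of a domain which is not a ball cover everything. -/
theorem cover [T2Space N] [SigmaCompactSpace N] {u : N → E}
    (hu : IsLocalDiffeomorph 𝓘(ℝ, E) 𝓘(ℝ, E) ∞ u) {ρ : N → ℝ}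
    (hρ : ContMDiff 𝓘(ℝ, E) 𝓘(ℝ, ℝ) ∞ ρ) (hreg : ∀ x, ρ x = 0 → gr u ρ x ≠ 0)
    (hcomp : IsCompact {x | ρ x ≤ 0}) (hconn : IsConnected {x | ρ x ≤ 0})
    (hball : ¬IsBall E {x | ρ x ≤ 0}) (p : E) :
    ∃ x, ρ x = 0 ∧ ∃ s : ℝ, 0 ≤ s ∧ u x + s • gr u ρ x = p := by
  by_cases hp : ∃ q, ρ q ≤ 0 ∧ u q = p
  · obtain ⟨q, hq1, hq2⟩ := hp
    by_contra hno
    push Not at hno
    exact hball (rays hu hρ hreg hcomp hconn.isPreconnected hq2 hq1 hno)
  · push Not at hp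
    exact nearest hu hρ hreg hcomp hconn.nonempty hp

/-- At interior values there is a ray starting at a point with a large negative curvature. -/
theorem curved [T2Space N] [SigmaCompactSpace N] {u : N → E}
    (hu : IsLocalDiffeomorph 𝓘(ℝ, E) 𝓘(ℝ, E) ∞ u) {ρ : N → ℝ}
    (hρ : ContMDiff 𝓘(ℝ, E) 𝓘(ℝ, ℝ) ∞ ρ) (hreg : ∀ x, ρ x = 0 → gr u ρ x ≠ 0)
    (hcomp : IsCompact {x | ρ x ≤ 0}) (hconn : IsConnected {x | ρ x ≤ 0})
    (hball : ¬IsBall E {x | ρ x ≤ 0}) {p : E} {q : N} (hq : ρ q ≤ 0) (hqp : u q = p)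
    (hb : ∀ x, ρ x = 0 → u x ≠ p) :
    ∃ x, ρ x = 0 ∧ ∃ s : ℝ, 0 < s ∧ u x + s • gr u ρ x = p ∧
      (¬∀ᶠ y in 𝓝 x, ρ y ≤ 0 → y ≠ x → ‖u x - p‖ < ‖u y - p‖) ∧
      ∃ v, v ≠ 0 ∧ ⟪gr u ρ x, v⟫ = 0 ∧ ‖v‖ ^ 2 + s * hs u ρ x v ≤ 0 := by
  by_contra hno
  have hmin : ∀ x, ρ x = 0 → ∀ s : ℝ, 0 < s → u x + s • gr u ρ x = p →
      ∀ᶠ y in 𝓝 x, ρ y ≤ 0 → y ≠ x → ‖u x - p‖ < ‖u y - p‖ := by
    intro x hx s hs hsp
    by_contra hn
    refine hno ⟨x, hx, s, hs, hsp, hn, ?_⟩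
    by_contra h1
    push Not at h1
    exact hn (second_order hu hρ hx hs hsp fun v hv hwv => h1 v hv hwv)
  have hCr := no_crit hu hρ hreg hcomp hconn.isPreconnected hqp hq hb hmin
  refine hball (rays hu hρ hreg hcomp hconn.isPreconnected hqp hq fun x hx s hs h => ?_)
  have := mem_Cr_of hx hs h
  rw [hCr] at this
  exact this

end Pool.Agent.Q196.XB
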