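import Pool.Agent.Q196.XB.Grad

/-! Flows of lifted vector fields. -/

set_option autoImplicit false
set_option linter.unusedSectionVars false

open scoped Topology ContDiff Manifold RealInnerProductSpace Gradient
open Set Metric Filter Bundle Pool.Agent.Helper186

noncomputable section

namespace Pool.Agent.Q196.XB

variable {E : Type} [NormedAddCommGroup E] [InnerProductSpace ℝ E] [FiniteDimensional ℝ E]
  {N : Type} [TopologicalSpace N] [ChartedSpace E N] [IsManifold 𝓘(ℝ, E) ∞ N]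

/-- `Fl` is the flow of the vector field on `N` which projects to `X`. -/
structure IsFlow (u : N → E) (X : N → E) (Fl : ℝ → N → N) : Prop where
  zero : ∀ x, Fl 0 x = x
  add : ∀ s t x, Fl (s + t) x = Fl s (Fl t x)
  smooth : ContMDiff (𝓘(ℝ, ℝ).prod 𝓘(ℝ, E)) 𝓘(ℝ, E) ∞ (fun p : ℝ × N => Fl p.1 p.2)
  deriv : ∀ g : N → ℝ, ContMDiff 𝓘(ℝ, E) 𝓘(ℝ, ℝ) ∞ g → ∀ x t,
    HasDerivAt (fun t => g (Fl t x)) ⟪gr u g (Fl t x), X (Fl t x)⟫ t
  deriv_u : ∀ x t, HasDerivAt (fun t => u (Fl t x)) (X (Fl t x)) t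

theorem exists_flow [T2Space N] {u : N → E} (hu : IsLocalDiffeomorph 𝓘(ℝ, E) 𝓘(ℝ, E) ∞ u)
    {X : N → E} (hX : ContMDiff 𝓘(ℝ, E) 𝓘(ℝ, E) ∞ X) {K : Set N} (hK : IsCompact K)
    (hXK : ∀ x ∉ K, X x = 0) : ∃ Fl, IsFlow u X Fl := by
  have : IsManifold 𝓘(ℝ, E) 1 N := IsManifold.of_le (n := ∞) (by simp)
  have hV := lift_smooth hu hX
  have hV0 : ∀ x ∉ K, lift u X x = 0 := by
    intro x hx
    show dI u x (X x) = 0
    rw [hXK x hx, map_zero]
  choose c hc0 hc using fun x => H826R2.Wein.complete_of_compact hV hK hV0 x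
  have hadd := fun x s t => flow_add hV hc0 hc x s t
  refine ⟨fun t x => c x t, hc0, fun s t x => ?_, ?_, ?_, ?_⟩
  · rw [add_comm]
    exact hadd x t s
  · exact (contMDiff_flow hV hc0 hc).comp (contMDiff_snd.prodMk contMDiff_fst)
  · intro g hg x t
    have h1 := hc x t
    have h2 := HasMFDerivAt.comp t (g := g) (f := c x)
      (hg.mdifferentiableAt (by simp)).hasMFDerivAt h1
    have h3 : HasFDerivAt (fun s => g (c x s)) (show ℝ →L[ℝ] ℝ from
        (mfderiv 𝓘(ℝ, E) 𝓘(ℝ, ℝ) g (c x t)).comp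
          ((1 : ℝ →L[ℝ] ℝ).smulRight (lift u X (c x t)))) t :=
      hasMFDerivAt_iff_hasFDerivAt.1 h2
    refine h3.hasDerivAt.congr_deriv ?_
    show (mfderiv 𝓘(ℝ, E) 𝓘(ℝ, ℝ) g (c x t)) ((1:ℝ) • lift u X (c x t)) = _
    rw [one_smul]
    exact inner_lift hu g X (c x t)
  · intro x t
    have h1 := hc x t
    have h2 := HasMFDerivAt.comp t (g := u) (f := c x)
      (hu.contMDiff.mdifferentiableAt (by simp)).hasMFDerivAt h1
    have h3 : HasFDerivAt (fun s => u (c x s)) (show ℝ →L[ℝ] E from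
        (mfderiv 𝓘(ℝ, E) 𝓘(ℝ, E) u (c x t)).comp
          ((1 : ℝ →L[ℝ] ℝ).smulRight (lift u X (c x t)))) t :=
      hasMFDerivAt_iff_hasFDerivAt.1 h2
    refine h3.hasDerivAt.congr_deriv ?_
    show (mfderiv 𝓘(ℝ, E) 𝓘(ℝ, E) u (c x t)) ((1:ℝ) • lift u X (c x t)) = _
    rw [one_smul]
    exact du_lift hu X (c x t)

namespace IsFlow

variable {u : N → E} {X : N → E} {Fl : ℝ → N → N} (h : IsFlow u X Fl)
include h

lemma cont : Continuous (fun p : ℝ × N => Fl p.1 p.2) := h.smooth.continuous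

lemma cont_t (x : N) : Continuous (fun t => Fl t x) :=
  h.cont.comp (by fun_prop : Continuous fun t : ℝ => (t, x))

lemma cont_x (t : ℝ) : Continuous (Fl t) :=
  h.cont.comp (by fun_prop : Continuous fun x : N => (t, x))

lemma smooth_x (t : ℝ) : ContMDiff 𝓘(ℝ, E) 𝓘(ℝ, E) ∞ (Fl t) :=
  h.smooth.comp (contMDiff_const.prodMk contMDiff_id)

lemma neg_add (t : ℝ) (x : N) : Fl (-t) (Fl t x) = x := by
  rw [← h.add, neg_add_cancel, h.zero]

lemma add_neg (t : ℝ) (x : N) : Fl t (Fl (-t) x) = x := by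
  rw [← h.add, add_neg_cancel, h.zero]

/-- The time `t` map as a diffeomorphism. -/
def diffeo (t : ℝ) : N ≃ₘ^∞⟮𝓘(ℝ, E), 𝓘(ℝ, E)⟯ N where
  toFun := Fl t
  invFun := Fl (-t)
  left_inv := h.neg_add t
  right_inv := h.add_neg t
  contMDiff_toFun := h.smooth_x t
  contMDiff_invFun := h.smooth_x (-t)

lemma isLocalDiffeomorph (t : ℝ) : IsLocalDiffeomorph 𝓘(ℝ, E) 𝓘(ℝ, E) ∞ (Fl t) :=
  (h.diffeo t).isLocalDiffeomorph

lemma deriv_neg {g : N → ℝ} (hg : ContMDiff 𝓘(ℝ, E) 𝓘(ℝ, ℝ) ∞ g) (x : N) (t : ℝ) :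
    HasDerivAt (fun t => g (Fl (-t) x)) (-⟪gr u g (Fl (-t) x), X (Fl (-t) x)⟫) t := by
  have h1 := (h.deriv g hg x (-t)).scomp t (hasDerivAt_neg t)
  have h2 : HasDerivAt (fun t => g (Fl (-t) x))
      ((-1 : ℝ) • ⟪gr u g (Fl (-t) x), X (Fl (-t) x)⟫) t := h1
  simpa using h2

lemma deriv_u_neg (x : N) (t : ℝ) :
    HasDerivAt (fun t => u (Fl (-t) x)) (-(X (Fl (-t) x))) t := by
  have h1 := (h.deriv_u x (-t)).scomp t (hasDerivAt_neg t)
  have h2 : HasDerivAt (fun t => u (Fl (-t) x)) ((-1 : ℝ) • (X (Fl (-t) x))) t := h1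
  simpa using h2

/-- **Staying in the domain.** If the field points outwards at the boundary points of `{ρ ≤ 0}`
which are met, then the backward orbit stays in the domain. -/
theorem stay {ρ : N → ℝ} (hρ : ContMDiff 𝓘(ℝ, E) 𝓘(ℝ, ℝ) ∞ ρ) {x : N} {T : ℝ}
    (hx : ρ x ≤ 0)
    (hout : ∀ t, 0 ≤ t → t < T → (∀ s ∈ Icc 0 t, ρ (Fl (-s) x) ≤ 0) → ρ (Fl (-t) x) = 0 →
      0 < ⟪gr u ρ (Fl (-t) x), X (Fl (-t) x)⟫) :
    ∀ t ∈ Icc 0 T, ρ (Fl (-t) x) ≤ 0 := by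
  intro t ht
  set P : ℝ → ℝ := fun t => ρ (Fl (-t) x) with hP
  have hPc : Continuous P := hρ.continuous.comp ((h.cont_t x).comp continuous_neg)
  have hP0 : P 0 ≤ 0 := by simpa [hP, h.zero] using hx
  by_contra hne
  push Not at hne
  -- the first time
  let S : Set ℝ := {s | s ∈ Icc 0 t ∧ ∀ r ∈ Icc 0 s, P r ≤ 0}
  have hS0 : (0:ℝ) ∈ S := ⟨⟨le_rfl, ht.1⟩, fun r hr => by
    have : r = 0 := le_antisymm hr.2 hr.1
    rw [this]; exact hP0⟩
  have hSb : BddAbove S := ⟨t, fun s hs => hs.1.2⟩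
  set τ := sSup S with hτ
  have hτ0 : 0 ≤ τ := le_csSup hSb hS0
  have hτt : τ ≤ t := csSup_le ⟨0, hS0⟩ fun s hs => hs.1.2
  have hlt : ∀ r, 0 ≤ r → r < τ → P r ≤ 0 := by
    intro r hr0 hr
    obtain ⟨s, hs, hrs⟩ := exists_lt_of_lt_csSup ⟨0, hS0⟩ hr
    exact hs.2 r ⟨hr0, hrs.le⟩
  have hPτ : P τ ≤ 0 := by
    rcases hτ0.eq_or_lt with h0 | h0
    · rw [← h0]; exact hP0
    · have h1 : τ ∈ closure (Ico 0 τ) := by
        rw [closure_Ico h0.ne]; exact ⟨h0.le, le_rfl⟩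
      have h2 : IsClosed {r | P r ≤ 0} := isClosed_le hPc continuous_const
      exact closure_minimal (fun r hr => hlt r hr.1 hr.2) h2 h1
  have hall : ∀ r ∈ Icc 0 τ, P r ≤ 0 := by
    intro r hr
    rcases hr.2.eq_or_lt with h1 | h1
    · rw [h1]; exact hPτ
    · exact hlt r hr.1 h1
  have hτt' : τ < t := by
    rcases hτt.eq_or_lt with h1 | h1
    · exfalso
      rw [h1] at hPτ
      linarith
    · exact h1
  have hτT : τ < T := hτt'.trans_le ht.2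
  -- a bit further
  obtain ⟨δ, hδ, hδ'⟩ : ∃ δ > 0, ∀ r, τ < r → r < τ + δ → P r ≤ 0 := by
    rcases hPτ.eq_or_lt with h1 | h1
    · have h2 := h.deriv_neg hρ x τ
      have h3 := hout τ hτ0 hτT hall h1
      have h4 : HasDerivAt P (-⟪gr u ρ (Fl (-τ) x), X (Fl (-τ) x)⟫) τ := h2
      have h5 := h4.isLittleO
      have h6 : ∀ᶠ r in 𝓝[>] τ, slope P τ r < 0 :=
        (hasDerivWithinAt_iff_tendsto_slope' (lt_irrefl τ)).1 h4.hasDerivWithinAt
          |>.eventually_lt_const (by linarith)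
      obtain ⟨δ', hδ1, hδ2⟩ := (mem_nhdsGT_iff_exists_Ioo_subset).1 h6
      refine ⟨δ' - τ, by simpa using hδ1, fun r hr1 hr2 => ?_⟩
      have h7 : slope P τ r < 0 := hδ2 ⟨hr1, by linarith⟩
      rw [slope_def_field, div_lt_iff₀ (by linarith)] at h7
      rw [h1] at h7
      linarith
    · have h2 : ∀ᶠ r in 𝓝 τ, P r < 0 := hPc.continuousAt.eventually_lt_const h1
      obtain ⟨δ, hδ, hδ'⟩ := Metric.eventually_nhds_iff.1 h2
      refine ⟨δ, hδ, fun r hr1 hr2 => (hδ' ?_).le⟩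
      rw [Real.dist_eq, abs_of_pos (by linarith)]
      linarith
  set r := min (τ + δ / 2) t with hr
  have hr1 : τ < r := lt_min (by linarith) hτt'
  have hrS : r ∈ S := by
    refine ⟨⟨hτ0.trans hr1.le, min_le_right _ _⟩, fun s hs => ?_⟩
    rcases le_or_gt s τ with h1 | h1
    · exact hall s ⟨hs.1, h1⟩
    · exact hδ' s h1 (hs.2.trans_lt ((min_le_left _ _).trans_lt (by linarith)))
  have := le_csSup hSb hrS
  linarith

end IsFlow

end Pool.Agent.Q196.XB
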