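import Pool.Agent.Q196.XB.Height

/-! If the outward normal takes some value at exactly one boundary point, and regularly, then the
domain is a ball. -/

set_option autoImplicit false
set_option linter.unusedSectionVars false

open scoped Topology ContDiff Manifold RealInnerProductSpace Gradient
open Set Metric Filter Bundle

noncomputable section

namespace Pool.Agent.Q196.XB

variable {E : Type} [NormedAddCommGroup E] [InnerProductSpace ℝ E] [FiniteDimensional ℝ E]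
  {N : Type} [TopologicalSpace N] [ChartedSpace E N] [IsManifold 𝓘(ℝ, E) ∞ N]

/-- A locally strictly convex function lies above its tangent planes. -/
lemma support_ineq {L : E → ℝ} {G : E → E} {z₀ : E} {U : Set E} (hU : U ∈ 𝓝 z₀)
    (hL : ∀ z ∈ U, HasGradientAt L (G z) z) (hG : ∀ z ∈ U, DifferentiableAt ℝ G z)
    (hG' : ContinuousAt (fderiv ℝ G) z₀)
    (hpos : ∀ v ∈ sphere (0:E) 1, 0 < ⟪fderiv ℝ G z₀ v, v⟫) :
    ∀ᶠ z in 𝓝 z₀, L z - L z₀ ≤ ⟪G z, z - z₀⟫ := by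
  have h1 : ∀ᶠ z in 𝓝 z₀, ∀ v ∈ sphere (0:E) 1, 0 < ⟪fderiv ℝ G z v, v⟫ := by
    apply (isCompact_sphere (0:E) 1).eventually_forall_of_forall_eventually
    intro v hv
    have h2 : ContinuousAt (fun q : E × E => ⟪fderiv ℝ G q.1 q.2, q.2⟫) (z₀, v) := by
      have h3 : ContinuousAt (fun q : E × E => fderiv ℝ G q.1) (z₀, v) :=
        ContinuousAt.comp (g := fderiv ℝ G) (f := fun q : E × E => q.1) hG' continuousAt_fst
      exact (h3.clm_apply continuousAt_snd).inner continuousAt_snd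
    exact h2.eventually_const_lt (hpos v hv)
  have h4 : ∀ᶠ z in 𝓝 z₀, z ∈ U := hU
  obtain ⟨ε, hε, hε'⟩ := Metric.eventually_nhds_iff_ball.1 (h1.and h4)
  filter_upwards [ball_mem_nhds z₀ hε] with z hz
  by_cases hne : z = z₀
  · rw [hne]; simp
  have hseg : ∀ t ∈ Icc (0:ℝ) 1, z₀ + t • (z - z₀) ∈ ball z₀ ε := by
    intro t ht
    rw [mem_ball, dist_eq_norm, add_sub_cancel_left, norm_smul, Real.norm_eq_abs,
      abs_of_nonneg ht.1]
    rw [mem_ball, dist_eq_norm] at hz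
    calc t * ‖z - z₀‖ ≤ 1 * ‖z - z₀‖ := by gcongr; exact ht.2
      _ < ε := by rw [one_mul]; exact hz
  set v := z - z₀ with hv
  have hv0 : 0 < ‖v‖ := norm_pos_iff.2 (sub_ne_zero.2 hne)
  have hline : ∀ t : ℝ, HasDerivAt (fun t : ℝ => z₀ + t • v) v t := by
    intro t
    simpa using ((hasDerivAt_id t).smul_const v).const_add z₀
  have hd1 : ∀ t ∈ Icc (0:ℝ) 1, HasDerivAt (fun t : ℝ => L (z₀ + t • v)) ⟪G (z₀ + t • v), v⟫ t := by
    intro t ht
    have h5 := (hL _ (hε' _ (hseg t ht)).2).hasFDerivAt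
    exact h5.comp_hasDerivAt t (hline t)
  have hd2 : ∀ t ∈ Icc (0:ℝ) 1, HasDerivAt (fun t : ℝ => ⟪G (z₀ + t • v), v⟫)
      ⟪fderiv ℝ G (z₀ + t • v) v, v⟫ t := by
    intro t ht
    have h5 := (hG _ (hε' _ (hseg t ht)).2).hasFDerivAt.comp_hasDerivAt t (hline t)
    have h6 := h5.inner ℝ (hasDerivAt_const t v)
    simpa using h6
  have hpos2 : ∀ t ∈ Icc (0:ℝ) 1, 0 < ⟪fderiv ℝ G (z₀ + t • v) v, v⟫ := by
    intro t ht
    have h7 := (hε' _ (hseg t ht)).1 (‖v‖⁻¹ • v) (by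
      rw [mem_sphere_zero_iff_norm, norm_smul, norm_inv, norm_norm, inv_mul_cancel₀ hv0.ne'])
    rw [map_smul, inner_smul_left, inner_smul_right] at h7
    simp only [conj_trivial] at h7
    have h8 : 0 < ‖v‖⁻¹ := inv_pos.2 hv0
    have h9 : 0 < ‖v‖⁻¹ * ‖v‖⁻¹ := mul_pos h8 h8
    have h10 : 0 < (‖v‖⁻¹ * ‖v‖⁻¹) * ⟪fderiv ℝ G (z₀ + t • v) v, v⟫ := by
      rw [mul_assoc]; exact h7
    exact (mul_pos_iff_of_pos_left h9).1 h10
  have hmono : StrictMonoOn (fun t : ℝ => ⟪G (z₀ + t • v), v⟫) (Icc 0 1) := by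
    apply strictMonoOn_of_deriv_pos (convex_Icc 0 1)
    · exact fun t ht => (hd2 t ht).continuousAt.continuousWithinAt
    · intro t ht
      rw [interior_Icc] at ht
      rw [(hd2 t ⟨ht.1.le, ht.2.le⟩).deriv]
      exact hpos2 t ⟨ht.1.le, ht.2.le⟩
  obtain ⟨θ, hθ, hθ'⟩ := exists_hasDerivAt_eq_slope (fun t : ℝ => L (z₀ + t • v))
    (fun t : ℝ => ⟪G (z₀ + t • v), v⟫) (zero_lt_one (α := ℝ))
    (fun t ht => (hd1 t ht).continuousAt.continuousWithinAt)
    (fun t ht => hd1 t ⟨ht.1.le, ht.2.le⟩)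
  have h11 := hmono.monotoneOn ⟨hθ.1.le, hθ.2.le⟩ (⟨zero_le_one, le_rfl⟩ : (1:ℝ) ∈ Icc (0:ℝ) 1)
    hθ.2.le
  rw [zero_smul, add_zero, one_smul, hv, add_sub_cancel, sub_zero, div_one] at hθ'
  rw [one_smul, hv, add_sub_cancel] at h11
  rw [← hθ', ← hv]
  exact h11

section

variable {u : N → E} (hu : IsLocalDiffeomorph 𝓘(ℝ, E) 𝓘(ℝ, E) ∞ u) {ρ : N → ℝ}
    (hρ : ContMDiff 𝓘(ℝ, E) 𝓘(ℝ, ℝ) ∞ ρ)
include hu hρ

/-- second order necessary condition at a minimum of the height -/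
lemma second_nec {e : E} (he : ‖e‖ = 1) {x : N} (hx : ρ x = 0)
    (hmin : ∀ y, ρ y ≤ 0 → ht u e x ≤ ht u e y) {c : ℝ} (hc : 0 < c) (hg : gr u ρ x = -(c • e))
    {v : E} (hv : ⟪gr u ρ x, v⟫ = 0) : 0 ≤ hb u ρ x v v := by
  by_contra hneg
  push Not at hneg
  obtain ⟨U, σ, h, hxU, hσx⟩ := exists_sec hu x
  have hx' : x ∈ σ '' U := ⟨u x, hxU, hσx⟩
  set g : E → ℝ := ρ ∘ σ with hgd
  have hgU : ContDiffOn ℝ ∞ g U := by
    rw [← contMDiffOn_iff_contDiffOn]
    exact hρ.comp_contMDiffOn h.smooth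
  have hgAt : ∀ z ∈ U, ContDiffAt ℝ ∞ g z := fun z hz => hgU.contDiffAt (h.isOpen.mem_nhds hz)
  have hgw : ∇ g (u x) = gr u ρ x := (gr_sec hu h hx' (hρ.mdifferentiableAt (by simp))).symm
  have hGs : ∀ z ∈ U, ContDiffAt ℝ ∞ (∇ g) z := by
    intro z hz
    unfold gradient
    exact (InnerProductSpace.toDual ℝ E).symm.contDiff.contDiffAt.comp z
      ((hgAt z hz).fderiv_right (m := ∞) (by simp))
  set B := hb u ρ x v v with hB
  have hB' : B = ⟪fderiv ℝ (∇ g) (u x) v, v⟫ := hb_sec hu hρ h hx' v v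
  have hev : ⟪e, v⟫ = 0 := by
    rw [hg, inner_neg_left, inner_smul_left] at hv
    simp only [conj_trivial, neg_eq_zero, mul_eq_zero] at hv
    rcases hv with h0 | h0
    · exact absurd h0 hc.ne'
    · exact h0
  set a := B / (4 * c) with ha
  have ha0 : a < 0 := div_neg_of_neg_of_pos hneg (by positivity)
  set z : ℝ → E := fun t => u x + t • v + (a * t ^ 2) • e with hz
  have hzd : ∀ t, HasDerivAt z (v + (a * (2 * t)) • e) t := by
    intro t
    have h1 : HasDerivAt (fun t : ℝ => u x + t • v) v t := by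
      simpa using ((hasDerivAt_id t).smul_const v).const_add (u x)
    have h2 : HasDerivAt (fun t : ℝ => (a * t ^ 2) • e) ((a * (2 * t)) • e) t := by
      have h3 : HasDerivAt (fun t : ℝ => a * t ^ 2) (a * (2 * t)) t := by
        have := (hasDerivAt_pow 2 t).const_mul a
        simpa using this
      exact h3.smul_const e
    exact h1.add h2
  have hz0 : z 0 = u x := by simp [hz]
  have hzc : ContinuousAt z 0 := (hzd 0).continuousAt
  have hzU : ∀ᶠ t in 𝓝 (0:ℝ), z t ∈ U := by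
    apply hzc.eventually
    rw [hz0]
    exact h.isOpen.mem_nhds hxU
  have hψ : ∀ t, z t ∈ U → HasDerivAt (fun t => g (z t)) ⟪∇ g (z t), v + (a * (2 * t)) • e⟫ t := by
    intro t ht
    have h1 := ((hgAt _ ht).differentiableAt (by simp)).hasGradientAt.hasFDerivAt
    exact h1.comp_hasDerivAt t (hzd t)
  have hd0 : deriv (fun t => g (z t)) 0 = 0 := by
    rw [(hψ 0 (by rw [hz0]; exact hxU)).deriv, hz0, hgw]
    simp [hv]
  have hdd : deriv (deriv (fun t => g (z t))) 0 = B / 2 := by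
    have h1 : deriv (fun t => g (z t)) =ᶠ[𝓝 0] fun t => ⟪∇ g (z t), v + (a * (2 * t)) • e⟫ := by
      filter_upwards [hzU] with t ht using (hψ t ht).deriv
    rw [h1.deriv_eq]
    have h2 : HasDerivAt (fun t => ∇ g (z t)) (fderiv ℝ (∇ g) (u x) v) 0 := by
      have h3 : HasFDerivAt (∇ g) (fderiv ℝ (∇ g) (u x)) (z 0) := by
        rw [hz0]
        exact ((hGs _ hxU).differentiableAt (by simp)).hasFDerivAt
      have h4 := h3.comp_hasDerivAt 0 (hzd 0)
      rw [mul_zero, mul_zero, zero_smul, add_zero] at h4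
      exact h4
    have h5 : HasDerivAt (fun t : ℝ => v + (a * (2 * t)) • e) ((a * 2) • e) 0 := by
      have h6 : HasDerivAt (fun t : ℝ => a * (2 * t)) (a * 2) 0 := by
        have := ((hasDerivAt_id (0:ℝ)).const_mul 2).const_mul a
        simpa using this
      simpa using (h6.smul_const e).const_add v
    have h7 := h2.inner ℝ h5
    rw [h7.deriv, hz0, hgw]
    simp only [mul_zero, zero_smul, add_zero]
    rw [← hB', hg, inner_smul_right, inner_neg_left, inner_smul_left, real_inner_self_eq_norm_sq,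
      he]
    simp only [conj_trivial]
    rw [ha]
    field_simp
    ring
  have hmax : IsLocalMax (fun t => g (z t)) 0 := by
    apply isLocalMax_of_deriv_deriv_neg _ hd0
    · exact (hψ 0 (by rw [hz0]; exact hxU)).continuousAt
    · rw [hdd]; linarith
  have hex : ∃ t : ℝ, t ≠ 0 ∧ z t ∈ U ∧ g (z t) ≤ g (z 0) := by
    have h1 : ∀ᶠ t in 𝓝 (0:ℝ), z t ∈ U ∧ g (z t) ≤ g (z 0) := hzU.and hmax
    obtain ⟨δ, hδ, hδ'⟩ := Metric.eventually_nhds_iff.1 h1
    refine ⟨δ / 2, by positivity, hδ' ?_⟩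
    rw [Real.dist_eq, sub_zero, abs_of_pos (by positivity)]
    linarith
  obtain ⟨t, ht0, htU, hle⟩ := hex
  have h1 : ρ (σ (z t)) ≤ 0 := by
    have : g (z 0) = 0 := by rw [hz0]; show ρ (σ (u x)) = 0; rw [hσx, hx]
    rw [this] at hle
    exact hle
  have h2 := hmin _ h1
  unfold Pool.Agent.Q196.XB.ht at h2
  rw [h.right _ htU] at h2
  simp only [hz] at h2
  rw [inner_add_right, inner_add_right, inner_smul_right, inner_smul_right, hev,
    real_inner_self_eq_norm_sq, he] at h2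
  have h3 : 0 < t ^ 2 := by positivity
  have h4 : a * t ^ 2 < 0 := mul_neg_of_neg_of_pos ha0 h3
  linarith

/-- **The outward normal takes a value once.** -/
theorem normal_once [T2Space N] [SigmaCompactSpace N] (hreg : ∀ x, ρ x = 0 → gr u ρ x ≠ 0)
    (hcomp : IsCompact {x | ρ x ≤ 0}) (hne : {x | ρ x ≤ 0}.Nonempty) {e : E} (he : ‖e‖ = 1)
    (huniq : ∀ x y, ρ x = 0 → ρ y = 0 → (∃ c : ℝ, 0 < c ∧ gr u ρ x = -(c • e)) →
      (∃ c : ℝ, 0 < c ∧ gr u ρ y = -(c • e)) → x = y)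
    (hnd : ∀ x, ρ x = 0 → (∃ c : ℝ, 0 < c ∧ gr u ρ x = -(c • e)) →
      ∀ v, v ≠ 0 → ⟪gr u ρ x, v⟫ = 0 → ∃ v', ⟪gr u ρ x, v'⟫ = 0 ∧ hb u ρ x v v' ≠ 0) :
    IsBall E {x | ρ x ≤ 0} := by
  classical
  have hus : ContMDiff 𝓘(ℝ, E) 𝓘(ℝ, E) ∞ u := hu.contMDiff
  have huc : Continuous u := hus.continuous
  have hgc : Continuous (gr u ρ) := (gr_smooth hu hρ).continuous
  have hhs := ht_smooth hus e
  have he0 : e ≠ 0 := by rintro rfl; simp at he
  obtain ⟨x₀, hx₀', hmin'⟩ := hcomp.exists_isMinOn hne hhs.continuous.continuousOn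
  have hmin : ∀ y, ρ y ≤ 0 → ht u e x₀ ≤ ht u e y := fun y hy => isMinOn_iff.1 hmin' y hy
  obtain ⟨hx₀, c, hc, hgx⟩ := min_normal hu hρ hreg he0 hx₀' hmin
  set w := gr u ρ x₀ with hw
  -- the minimum is unique
  have hstrict : ∀ y, ρ y ≤ 0 → y ≠ x₀ → ht u e x₀ < ht u e y := by
    intro y hy hne'
    rcases (hmin y hy).eq_or_lt with h1 | h1
    · exfalso
      obtain ⟨hy0, c', hc', hgy⟩ := min_normal hu hρ hreg he0 hy
        (fun z hz => by rw [← h1]; exact hmin z hz)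
      exact hne' (huniq y x₀ hy0 hx₀ ⟨c', hc', hgy⟩ ⟨c, hc, hgx⟩)
    · exact h1
  -- positive definiteness
  have hpsd : ∀ v, ⟪w, v⟫ = 0 → 0 ≤ hb u ρ x₀ v v := fun v hv =>
    second_nec hu hρ he hx₀ hmin hc hgx hv
  have hpd : ∀ v, v ≠ 0 → ⟪w, v⟫ = 0 → 0 < hb u ρ x₀ v v := by
    intro v hv hwv
    rcases (hpsd v hwv).eq_or_lt with h1 | h1
    · exfalso
      obtain ⟨v', hv', hne'⟩ := hnd x₀ hx₀ ⟨c, hc, hgx⟩ v hv hwv
      have hexp : ∀ t : ℝ, 0 ≤ 2 * t * hb u ρ x₀ v v' + t ^ 2 * hb u ρ x₀ v' v' := by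
        intro t
        have h2 := hpsd (v + t • v') (by rw [inner_add_right, inner_smul_right, hwv, hv']; simp)
        have h3 : hb u ρ x₀ (v + t • v') (v + t • v') = hb u ρ x₀ v v +
            t * hb u ρ x₀ v v' + t * hb u ρ x₀ v' v + t ^ 2 * hb u ρ x₀ v' v' := by
          unfold hb
          rw [map_add, map_add, map_smul, map_smul]
          simp only [inner_add_left, inner_add_right, inner_smul_left, inner_smul_right,
            conj_trivial]
          ring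
        rw [h3, ← h1, hb_symm hu hρ x₀ v' v] at h2
        linarith
      set b := hb u ρ x₀ v v'
      set d := hb u ρ x₀ v' v' with hd
      have hd0 : 0 ≤ d := hpsd v' hv'
      have h4 := hexp (-(b / (d + 1)))
      have h5 : 2 * (-(b / (d + 1))) * b + (-(b / (d + 1))) ^ 2 * d =
          -(b ^ 2 / (d + 1)) * (2 - d / (d + 1)) := by
        field_simp
        ring
      rw [h5] at h4
      have h6 : 0 < b ^ 2 / (d + 1) := by positivity
      have h7 : d / (d + 1) < 1 := by rw [div_lt_one (by positivity)]; linarith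
      nlinarith
    · exact h1
  -- the sheet
  obtain ⟨U, σ, h, hxU, hσx⟩ := exists_sec hu x₀
  have hx' : x₀ ∈ σ '' U := ⟨u x₀, hxU, hσx⟩
  set g : E → ℝ := ρ ∘ σ with hg
  set z₀ := u x₀ with hz₀
  have hgU : ContDiffOn ℝ ∞ g U := by
    rw [← contMDiffOn_iff_contDiffOn]
    exact hρ.comp_contMDiffOn h.smooth
  have hgAt : ∀ z ∈ U, ContDiffAt ℝ ∞ g z := fun z hz => hgU.contDiffAt (h.isOpen.mem_nhds hz)
  have hgw : ∇ g z₀ = w := (gr_sec hu h hx' (hρ.mdifferentiableAt (by simp))).symm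
  have hg0 : g z₀ = 0 := by show ρ (σ (u x₀)) = 0; rw [hσx, hx₀]
  have hGs : ∀ z ∈ U, ContDiffAt ℝ ∞ (∇ g) z := by
    intro z hz
    unfold gradient
    exact (InnerProductSpace.toDual ℝ E).symm.contDiff.contDiffAt.comp z
      ((hgAt z hz).fderiv_right (m := ∞) (by simp))
  have hgrad : ∀ z ∈ U, HasGradientAt g (∇ g z) z := fun z hz =>
    ((hgAt z hz).differentiableAt (by simp)).hasGradientAt
  obtain ⟨K, hK, hKpos⟩ := finsler (Q := fun v => ⟪fderiv ℝ (∇ g) z₀ v, v⟫)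
    (by fun_prop) w (fun v hv hwv => by
      have h1 := hpd v hv hwv
      rw [hb_sec hu hρ h hx' v] at h1
      exact h1)
  set L : E → ℝ := fun z => g z + K * (g z * g z) with hL
  set G : E → E := fun z => ∇ g z + (2 * K * g z) • ∇ g z with hG
  have hLG : ∀ z ∈ U, HasGradientAt L (G z) z := by
    intro z hz
    rw [hasGradientAt_iff_hasFDerivAt]
    have h2 := (hgrad z hz).hasFDerivAt
    refine (h2.add ((h2.mul h2).const_mul K)).congr_fderiv ?_
    ext v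
    simp [hG]
    ring
  have hGd : ∀ z ∈ U, HasFDerivAt G (fderiv ℝ (∇ g) z +
      ((2 * K * g z) • fderiv ℝ (∇ g) z +
        ((2 * K) • fderiv ℝ g z).smulRight (∇ g z))) z := by
    intro z hz
    have h1 := ((hGs z hz).differentiableAt (by simp)).hasFDerivAt
    have h2 := ((hgAt z hz).differentiableAt (by simp)).hasFDerivAt
    exact h1.add ((h2.const_mul (2 * K)).smul h1)
  have hGc : ContDiffAt ℝ ∞ G z₀ :=
    (hGs _ hxU).add ((contDiffAt_const.mul (hgAt _ hxU)).smul (hGs _ hxU))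
  have hsup := support_ineq (L := L) (G := G) (z₀ := z₀) (h.isOpen.mem_nhds hxU) hLG
    (fun z hz => (hGd z hz).differentiableAt)
    ((hGc.fderiv_right (m := 0) (by simp)).continuousAt)
    (fun v hv => by
      rw [(hGd _ hxU).fderiv, hg0, hgw]
      have h1 := hKpos v hv
      have h2 : fderiv ℝ g z₀ v = ⟪w, v⟫ := by
        rw [← hgw]
        have := (hgrad _ hxU).hasFDerivAt.fderiv
        rw [this]
        rfl
      simp only [mul_zero, zero_smul, zero_add, _root_.add_apply, _root_.smul_apply,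
        ContinuousLinearMap.smulRight_apply, inner_add_left, inner_smul_left, conj_trivial,
        smul_eq_mul, h2]
      nlinarith)
  have hdir : ∀ᶠ z in 𝓝 z₀, ⟪∇ g z, e⟫ < 0 := by
    have h1 : ContinuousAt (fun z => ⟪∇ g z, e⟫) z₀ := (hGs _ hxU).continuousAt.inner continuousAt_const
    refine h1.eventually_lt_const ?_
    show ⟪∇ g z₀, e⟫ < 0
    rw [hgw, hgx, inner_neg_left, inner_smul_left, real_inner_self_eq_norm_sq, he]
    simpa using hc
  obtain ⟨δ, hδ, hδ'⟩ := Metric.eventually_nhds_iff_ball.1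
    (hsup.and (hdir.and (h.isOpen.eventually_mem hxU)))
  have hballU : ball z₀ δ ⊆ U := fun z hz => (hδ' z hz).2.2
  have hray : ∀ z ∈ ball z₀ δ, g z = 0 → ∀ ε : ℝ, 0 < ε →
      0 < ⟪∇ g z, z - (z₀ + ε • e)⟫ := by
    intro z hz hgz ε hε
    obtain ⟨h1, h2, h3⟩ := hδ' z hz
    have h4 : L z - L z₀ = 0 := by simp only [hL]; rw [hgz, hg0]; ring
    have h5 : G z = ∇ g z := by simp only [hG]; rw [hgz]; simp
    rw [h4, h5] at h1
    have h6 : z - (z₀ + ε • e) = (z - z₀) - ε • e := by abel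
    rw [h6, inner_sub_right, inner_smul_right]
    have h7 : ε * ⟪∇ g z, e⟫ < 0 := mul_neg_of_pos_of_neg hε h2
    linarith
  -- the sets
  set r := δ / 2 with hr
  have hr0 : 0 < r := by positivity
  set S₁ : Set N := σ '' ball z₀ r with hS₁
  set S₀ : Set N := σ '' closedBall z₀ r with hS₀
  set S₂ : Set N := σ '' ball z₀ δ with hS₂
  have hcb : closedBall z₀ r ⊆ ball z₀ δ := closedBall_subset_ball (by rw [hr]; linarith)
  have hS₁o : IsOpen S₁ := (h.mono huc isOpen_ball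
    ((ball_subset_closedBall.trans hcb).trans hballU)).image
  have hS₂o : IsOpen S₂ := (h.mono huc isOpen_ball hballU).image
  have hS₀c : IsCompact S₀ := (isCompact_closedBall z₀ r).image_of_continuousOn
    (h.cont.mono (hcb.trans hballU))
  have hS₁₀ : S₁ ⊆ S₀ := image_mono ball_subset_closedBall
  have hS₀₂ : S₀ ⊆ S₂ := image_mono hcb
  have hx₀S : x₀ ∈ S₁ := ⟨z₀, mem_ball_self hr0, hσx⟩
  obtain ⟨m, hm, hm'⟩ : ∃ m > 0, ∀ y, ρ y ≤ 0 → y ∉ S₁ → ht u e x₀ + m ≤ ht u e y := by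
    have hKc : IsCompact ({x | ρ x ≤ 0} \ S₁) := hcomp.diff hS₁o
    by_cases hKn : ({x | ρ x ≤ 0} \ S₁).Nonempty
    · obtain ⟨y, hy, hymin⟩ := hKc.exists_isMinOn hKn hhs.continuous.continuousOn
      have h1 := hstrict y hy.1 (by rintro rfl; exact hy.2 hx₀S)
      refine ⟨ht u e y - ht u e x₀, by linarith, fun z hz hzS => ?_⟩
      have := isMinOn_iff.1 hymin z ⟨hz, hzS⟩
      linarith
    · exact ⟨1, one_pos, fun y hy hyS => absurd ⟨y, hy, hyS⟩ hKn⟩
  obtain ⟨ε, hε0, hεm, hεr, hερ⟩ : ∃ ε : ℝ, 0 < ε ∧ ε < m ∧ ε < r ∧ ρ (σ (z₀ + ε • e)) < 0 := by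
    have h1 := sheet_deriv hu h hx' hρ (-e)
    have h2 : -⟪gr u ρ x₀, -e⟫ < 0 := by
      rw [inner_neg_right, neg_neg, ← hw, hgx, inner_neg_left, inner_smul_left,
        real_inner_self_eq_norm_sq, he]
      simpa using hc
    have h6 : ∀ᶠ t in 𝓝[>] (0:ℝ), slope (fun t : ℝ => ρ (σ (u x₀ - t • (-e)))) 0 t < 0 :=
      (hasDerivWithinAt_iff_tendsto_slope' (s := Ioi (0:ℝ)) self_notMem_Ioi).1
        h1.hasDerivWithinAt |>.eventually_lt_const h2
    have h7 : ∀ᶠ t in 𝓝[>] (0:ℝ), t < m := nhdsWithin_le_nhds (gt_mem_nhds hm)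
    have h8 : ∀ᶠ t in 𝓝[>] (0:ℝ), t < r := nhdsWithin_le_nhds (gt_mem_nhds hr0)
    obtain ⟨t, ⟨ht1, ht2, ht3⟩, ht4⟩ := ((h6.and (h7.and h8)).and self_mem_nhdsWithin).exists
    have ht0 : 0 < t := ht4
    refine ⟨t, ht0, ht2, ht3, ?_⟩
    rw [slope_def_field, sub_zero, div_lt_iff₀ ht0] at ht1
    have h9 : u x₀ - (0:ℝ) • (-e) = z₀ := by rw [zero_smul, sub_zero]
    have h10 : u x₀ - t • (-e) = z₀ + t • e := by rw [smul_neg, sub_neg_eq_add]
    rw [h9, h10, hz₀, hσx, hx₀] at ht1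
    linarith
  set p := z₀ + ε • e with hp
  -- the field
  let t : N → Set E := fun x => {v | (x ∈ S₀ → v ∈ ({u x - p} : Set E)) ∧
    (ρ x ≤ 0 ∧ x ∉ S₁ → v ∈ {v : E | 0 < ⟪e, v⟫}) ∧
    (ρ x = 0 → v ∈ {v : E | 0 < ⟪gr u ρ x, v⟫})}
  have ht : ∀ x, Convex ℝ (t x) := fun x =>
    (convex_imp (convex_singleton _)).inter ((convex_imp (convex_pos _)).inter
      (convex_imp (convex_pos _)))
  have hloc : ∀ x : N, ∃ V ∈ 𝓝 x, ∃ X : N → E, ContMDiffOn 𝓘(ℝ, E) 𝓘(ℝ, E) ∞ X V ∧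
      ∀ y ∈ V, X y ∈ t y := by
    intro x
    by_cases hxS : x ∈ S₂
    · refine ⟨S₂, hS₂o.mem_nhds hxS, fun y => u y - p, (hus.sub contMDiff_const).contMDiffOn, ?_⟩
      intro y hy
      refine ⟨fun _ => rfl, fun hy' => ?_, fun hy0 => ?_⟩
      · have h1 := hm' y hy'.1 hy'.2
        show 0 < ⟪e, u y - p⟫
        rw [hp, inner_sub_right, inner_add_right, inner_smul_right, real_inner_self_eq_norm_sq, he]
        unfold Pool.Agent.Q196.XB.ht at h1
        linarith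
      · obtain ⟨z, hz, rfl⟩ := hy
        have hzU := hballU hz
        have h1 : u (σ z) = z := h.right z hzU
        have h2 := gr_sec hu h (x := σ z) ⟨z, hzU, rfl⟩ (hρ.mdifferentiableAt (by simp))
        show 0 < ⟪gr u ρ (σ z), u (σ z) - p⟫
        rw [h2, h1]
        exact hray z hz hy0 ε hε0
    · have hxS₀ : x ∉ S₀ := fun h' => hxS (hS₀₂ h')
      have hn0 : ∀ᶠ y in 𝓝 x, y ∉ S₀ := hS₀c.isClosed.isOpen_compl.mem_nhds hxS₀
      rcases lt_trichotomy (ρ x) 0 with hx | hx | hx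
      · refine ⟨{y | y ∉ S₀ ∧ ρ y < 0}, ?_, fun _ => e, contMDiffOn_const, ?_⟩
        · filter_upwards [hn0, ev_lt hρ.continuous hx] with y a b using ⟨a, b⟩
        · intro y hy
          refine ⟨fun h' => absurd h' hy.1, fun _ => ?_, fun h' => absurd h' hy.2.ne⟩
          show 0 < ⟪e, e⟫
          rw [real_inner_self_eq_norm_sq, he]; norm_num
      · obtain ⟨v, hv1, hv2⟩ := exists_common he0 (hreg x hx) (fun s hs' h' => by
          have hs0 : s ≠ 0 := by
            rintro rfl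
            rw [zero_smul, add_zero] at h'
            exact he0 h'
          have hsp : 0 < s := lt_of_le_of_ne hs' (Ne.symm hs0)
          have h3 : gr u ρ x = s⁻¹ • (s • gr u ρ x) := by
            rw [smul_smul, inv_mul_cancel₀ hs0, one_smul]
          have h4 : s • gr u ρ x = -e := (neg_eq_of_add_eq_zero_right h').symm
          have h5 : x = x₀ := huniq x x₀ hx hx₀ ⟨s⁻¹, inv_pos.2 hsp, by rw [h3, h4, smul_neg]⟩
            ⟨c, hc, hgx⟩
          exact hxS (by rw [h5]; exact hS₀₂ (hS₁₀ hx₀S)))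
        refine ⟨{y | y ∉ S₀ ∧ 0 < ⟪gr u ρ y, v⟫}, ?_, fun _ => v, contMDiffOn_const, ?_⟩
        · filter_upwards [hn0, ev_gt (f := fun y => ⟪gr u ρ y, v⟫) (by fun_prop) hv2] with y a b
            using ⟨a, b⟩
        · intro y hy
          exact ⟨fun h' => absurd h' hy.1, fun _ => hv1, fun _ => hy.2⟩
      · refine ⟨{y | y ∉ S₀ ∧ 0 < ρ y}, ?_, fun _ => 0, contMDiffOn_const, ?_⟩
        · filter_upwards [hn0, ev_gt hρ.continuous hx] with y a b using ⟨a, b⟩
        · intro y hy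
          exact ⟨fun h' => absurd h' hy.1, fun h' => absurd h'.1 (not_le.2 hy.2),
            fun h' => absurd h' hy.2.ne'⟩
  obtain ⟨X₀, hX₀⟩ := exists_contMDiffMap_forall_mem_convex_of_local (n := ⊤) 𝓘(ℝ, E) ht hloc
  obtain ⟨χ, K', hχ, hK', -, hχ1, hχ0⟩ := Helper186.exists_cutoff 𝓘(ℝ, E) (hcomp.union hS₀c)
    isOpen_univ (subset_univ ({x | ρ x ≤ 0} ∪ S₀))
  set X : N → E := fun x => χ x • X₀ x with hX
  have hXs : ContMDiff 𝓘(ℝ, E) 𝓘(ℝ, E) ∞ X := hχ.smul X₀.contMDiff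
  have hX1 : ∀ x, (ρ x ≤ 0 ∨ x ∈ S₀) → X x = X₀ x := by
    intro x hx
    have : χ x = 1 := hχ1.self_of_nhdsSet x (by
      rcases hx with h' | h'
      · exact Or.inl h'
      · exact Or.inr h')
    simp only [hX]
    rw [this, one_smul]
  obtain ⟨Fl, hFl⟩ := exists_flow hu hXs hK' (fun x hx => by
    simp only [hX]
    rw [hχ0 x hx, zero_smul])
  have hout : ∀ x, ρ x = 0 → 0 < ⟪gr u ρ x, X x⟫ := by
    intro x hx
    rw [hX1 x (Or.inl hx.le)]
    exact (hX₀ x).2.2 hx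
  have hsrc : Src u X (ball z₀ r) σ p := by
    refine ⟨h.mono huc isOpen_ball ((ball_subset_closedBall.trans hcb).trans hballU),
      convex_ball _ _, ?_, ?_⟩
    · rw [hp, mem_ball, dist_eq_norm, add_sub_cancel_left, norm_smul, he, mul_one,
        Real.norm_eq_abs, abs_of_pos hε0]
      exact hεr
    · intro z hz
      have hz' : z ∈ closedBall z₀ r := ball_subset_closedBall hz
      have h1 : σ z ∈ S₀ := ⟨z, hz', rfl⟩
      rw [hX1 _ (Or.inr h1)]
      have h2 := (hX₀ (σ z)).1 h1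
      rw [mem_singleton_iff, h.right z (hballU (hcb hz'))] at h2
      exact h2
  refine core hu hFl hρ hcomp hsrc hερ hout ?_
  intro x hx
  refine reach hu hXs.continuous hFl hρ hcomp hout hhs hS₁o ?_ hx
  intro y hy hyS
  rw [gr_ht hu, hX1 y (Or.inl hy)]
  exact (hX₀ y).2.1 ⟨hy, hyS⟩

end

end Pool.Agent.Q196.XB
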