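import Pool.Agent.Q196.XB.Etale

/-! Gradients with respect to the flat metric pulled back by a local diffeomorphism. -/

set_option autoImplicit false
set_option linter.unusedSectionVars false

open scoped Topology ContDiff Manifold RealInnerProductSpace Gradient
open Set Metric Filter Bundle

noncomputable section

namespace Pool.Agent.Q196.XB

variable {E : Type} [NormedAddCommGroup E] [InnerProductSpace ℝ E] [FiniteDimensional ℝ E]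
  {N : Type} [TopologicalSpace N] [ChartedSpace E N] [IsManifold 𝓘(ℝ, E) ∞ N]

/-- The gradient of `g` at `x` for the flat metric pulled back by `u`. -/
def gr (u : N → E) (g : N → ℝ) (x : N) : E :=
  (InnerProductSpace.toDual ℝ E).symm
    ((show E →L[ℝ] ℝ from mfderiv 𝓘(ℝ, E) 𝓘(ℝ, ℝ) g x) ∘L dI u x)

lemma gr_inner (u : N → E) (g : N → ℝ) (x : N) (w : E) :
    ⟪gr u g x, w⟫ = (show E →L[ℝ] ℝ from mfderiv 𝓘(ℝ, E) 𝓘(ℝ, ℝ) g x) (dI u x w) := by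
  unfold gr
  rw [InnerProductSpace.toDual_symm_apply]
  rfl

variable {u : N → E} (hu : IsLocalDiffeomorph 𝓘(ℝ, E) 𝓘(ℝ, E) ∞ u)
include hu

lemma exists_equiv (x : N) : ∃ L : E ≃L[ℝ] E,
    (∀ v : E, L v = (show E →L[ℝ] E from mfderiv 𝓘(ℝ, E) 𝓘(ℝ, E) u x) v) ∧
    ∀ w : E, dI u x w = L.symm w := by
  obtain ⟨L, hL⟩ := inv_du hu x
  refine ⟨L, fun v => ?_, fun w => ?_⟩
  · rw [← hL]; rfl
  · unfold dI
    rw [← hL]
    exact DFunLike.congr_fun (ContinuousLinearMap.inverse_equiv L) w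

lemma mfderiv_sec {U : Set E} {σ : E → N} (h : Sec u U σ) {x : N} (hx : x ∈ σ '' U) :
    (show E →L[ℝ] E from mfderiv 𝓘(ℝ, E) 𝓘(ℝ, E) σ (u x)) = dI u x := by
  have hxU := h.mem hx
  have hσx := h.left hx
  have h1 : MDifferentiableAt 𝓘(ℝ, E) 𝓘(ℝ, E) σ (u x) :=
    (h.smoothAt hxU).mdifferentiableAt (by simp)
  have h2 : MDifferentiableAt 𝓘(ℝ, E) 𝓘(ℝ, E) u (σ (u x)) :=
    hu.contMDiff.mdifferentiableAt (by simp)
  have h3 := mfderiv_comp (u x) h2 h1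
  have h4 : (u ∘ σ) =ᶠ[𝓝 (u x)] id := by
    filter_upwards [h.isOpen.mem_nhds hxU] with z hz
    exact h.right z hz
  rw [h4.mfderiv_eq, mfderiv_id, hσx] at h3
  obtain ⟨L, hL, hL'⟩ := exists_equiv hu x
  ext w
  rw [hL']
  apply L.injective
  rw [L.apply_symm_apply, hL]
  exact (DFunLike.congr_fun h3 w).symm

lemma gr_sec {g : N → ℝ} {U : Set E} {σ : E → N} (h : Sec u U σ) {x : N} (hx : x ∈ σ '' U)
    (hg : MDifferentiableAt 𝓘(ℝ, E) 𝓘(ℝ, ℝ) g x) : gr u g x = ∇ (g ∘ σ) (u x) := by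
  have hxU := h.mem hx
  have hσx := h.left hx
  have h1 : MDifferentiableAt 𝓘(ℝ, E) 𝓘(ℝ, E) σ (u x) :=
    (h.smoothAt hxU).mdifferentiableAt (by simp)
  have h2 : MDifferentiableAt 𝓘(ℝ, E) 𝓘(ℝ, ℝ) g (σ (u x)) := by rwa [hσx]
  have h3 := mfderiv_comp (u x) h2 h1
  have h4 := mfderiv_sec hu h hx
  unfold gr gradient
  congr 1
  have h5 : fderiv ℝ (g ∘ σ) (u x) = mfderiv 𝓘(ℝ, E) 𝓘(ℝ, ℝ) (g ∘ σ) (u x) := mfderiv_eq_fderiv.symm
  rw [h5, h3, hσx, ← h4]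
  rfl

lemma gr_comp {φ : E → ℝ} (x : N) (hφ : DifferentiableAt ℝ φ (u x)) :
    gr u (φ ∘ u) x = ∇ φ (u x) := by
  obtain ⟨U, σ, h, hxU, hx⟩ := exists_sec hu x
  have hx' : x ∈ σ '' U := ⟨u x, hxU, hx⟩
  have h1 : MDifferentiableAt 𝓘(ℝ, E) 𝓘(ℝ, ℝ) (φ ∘ u) x :=
    hφ.mdifferentiableAt.comp x (hu.contMDiff.mdifferentiableAt (by simp))
  rw [gr_sec hu h hx' h1]
  have h2 : ((φ ∘ u) ∘ σ) =ᶠ[𝓝 (u x)] φ := by
    filter_upwards [h.isOpen.mem_nhds hxU] with z hz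
    show φ (u (σ z)) = φ z
    rw [h.right z hz]
  unfold gradient
  rw [h2.fderiv_eq]

lemma gr_smooth {g : N → ℝ} (hg : ContMDiff 𝓘(ℝ, E) 𝓘(ℝ, ℝ) ∞ g) :
    ContMDiff 𝓘(ℝ, E) 𝓘(ℝ, E) ∞ (gr u g) := by
  intro x
  obtain ⟨U, σ, h, hxU, hx⟩ := exists_sec hu x
  have hx' : x ∈ σ '' U := ⟨u x, hxU, hx⟩
  have h1 : (gr u g) =ᶠ[𝓝 x] (fun y => ∇ (g ∘ σ) (u y)) := by
    filter_upwards [h.image.mem_nhds hx'] with y hy
    exact gr_sec hu h hy (hg.mdifferentiableAt (by simp))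
  refine ContMDiffAt.congr_of_eventuallyEq ?_ h1
  have h2 : ContDiffOn ℝ ∞ (g ∘ σ) U := by
    rw [← contMDiffOn_iff_contDiffOn]
    exact hg.comp_contMDiffOn h.smooth
  have h3 : ContDiffAt ℝ ∞ (fderiv ℝ (g ∘ σ)) (u x) :=
    ((h2.contDiffAt (h.isOpen.mem_nhds hxU)).fderiv_right (m := ∞) (by simp))
  have h4 : ContDiffAt ℝ ∞ (fun z => ∇ (g ∘ σ) z) (u x) := by
    unfold gradient
    exact (InnerProductSpace.toDual ℝ E).symm.contDiff.contDiffAt.comp (u x) h3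
  exact ContMDiffAt.comp (g := fun z => ∇ (g ∘ σ) z) x h4.contMDiffAt hu.contMDiff.contMDiffAt

lemma inner_lift (g : N → ℝ) (X : N → E) (x : N) :
    mfderiv 𝓘(ℝ, E) 𝓘(ℝ, ℝ) g x (lift u X x) = ⟪gr u g x, X x⟫ := by
  rw [gr_inner]
  rfl

/-- characterisation of the gradient -/
lemma gr_eq_iff (g : N → ℝ) (x : N) (w : E) :
    gr u g x = w ↔ ∀ v : TangentSpace 𝓘(ℝ, E) x, mfderiv 𝓘(ℝ, E) 𝓘(ℝ, ℝ) g x v =
      ⟪w, mfderiv 𝓘(ℝ, E) 𝓘(ℝ, E) u x v⟫ := by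
  obtain ⟨L, hL, hL'⟩ := exists_equiv hu x
  constructor
  · rintro rfl v
    have h1 : (mfderiv 𝓘(ℝ, E) 𝓘(ℝ, E) u x v : E) = L v := (hL v).symm
    rw [h1, gr_inner, hL', L.symm_apply_apply]
    rfl
  · intro h
    refine ext_inner_right ℝ fun v => ?_
    rw [gr_inner, hL']
    have h6 := h (L.symm v)
    have h1 : (mfderiv 𝓘(ℝ, E) 𝓘(ℝ, E) u x (L.symm v) : E) = v := by
      have := hL (L.symm v)
      rw [L.apply_symm_apply] at this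
      exact this.symm
    rw [h1] at h6
    exact h6

end Pool.Agent.Q196.XB
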