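import Pool.Agent.Q196.XB.Second

/-! If the outward normal takes some value at exactly one boundary point, and regularly, then the
domain is a ball. -/

set_option autoImplicit false
set_option linter.unusedSectionVars false

open scoped Topology ContDiff Manifold RealInnerProductSpace Gradient
open Set Metric Filter Bundle

noncomputable section

namespace Pool.Agent.Q196.XB

variable {E : Type} [NormedAddCommGroup E] [InnerProductSpace ℝ E] [FiniteDimensional ℝ E]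
  {N : Type} [TopologicalSpace N] [ChartedSpace E N] [IsManifold 𝓘(ℝ, E) ∞ N]

/-- the derivative of a function along a line in a sheet -/
lemma sheet_deriv {u : N → E} (hu : IsLocalDiffeomorph 𝓘(ℝ, E) 𝓘(ℝ, E) ∞ u) {U : Set E}
    {σ : E → N} (h : Sec u U σ) {x : N} (hx : x ∈ σ '' U) {g : N → ℝ}
    (hg : ContMDiff 𝓘(ℝ, E) 𝓘(ℝ, ℝ) ∞ g) (v : E) :
    HasDerivAt (fun t : ℝ => g (σ (u x - t • v))) (-⟪gr u g x, v⟫) 0 := by
  have hxU := h.mem hx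
  have hline : HasDerivAt (fun t : ℝ => u x - t • v) (-v) 0 := by
    simpa using ((hasDerivAt_id (0:ℝ)).smul_const v).const_sub (u x)
  have h1 : ContDiffAt ℝ ∞ (g ∘ σ) (u x) := by
    have : ContDiffOn ℝ ∞ (g ∘ σ) U := by
      rw [← contMDiffOn_iff_contDiffOn]
      exact hg.comp_contMDiffOn h.smooth
    exact this.contDiffAt (h.isOpen.mem_nhds hxU)
  have h2 : HasGradientAt (g ∘ σ) (gr u g x) (u x) := by
    rw [gr_sec hu h hx (hg.mdifferentiableAt (by simp))]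
    exact (h1.differentiableAt (by simp)).hasGradientAt
  have h3 : HasFDerivAt (g ∘ σ) ((InnerProductSpace.toDual ℝ E) (gr u g x))
      (u x - (0:ℝ) • v) := by
    rw [zero_smul, sub_zero]; exact h2.hasFDerivAt
  have h4 := h3.comp_hasDerivAt 0 hline
  refine h4.congr_deriv ?_
  simp

/-- A minimum over the domain admits no descent direction. -/
lemma no_descent {u : N → E} (hu : IsLocalDiffeomorph 𝓘(ℝ, E) 𝓘(ℝ, E) ∞ u) {ρ : N → ℝ}
    (hρ : ContMDiff 𝓘(ℝ, E) 𝓘(ℝ, ℝ) ∞ ρ) {f : N → ℝ} (hf : ContMDiff 𝓘(ℝ, E) 𝓘(ℝ, ℝ) ∞ f)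
    {x : N} (hx : ρ x ≤ 0) (hmin : ∀ y, ρ y ≤ 0 → f x ≤ f y) (v : E)
    (hv1 : 0 < ⟪gr u f x, v⟫) (hv2 : ρ x = 0 → 0 < ⟪gr u ρ x, v⟫) : False := by
  obtain ⟨U, σ, h, hxU, hσx⟩ := exists_sec hu x
  have hx'' : x ∈ σ '' U := ⟨u x, hxU, hσx⟩
  have hbase : σ (u x - (0:ℝ) • v) = x := by rw [zero_smul, sub_zero]; exact hσx
  have hcs : ∀ g : N → ℝ, ContMDiff 𝓘(ℝ, E) 𝓘(ℝ, ℝ) ∞ g → 0 < ⟪gr u g x, v⟫ →
      ∀ᶠ t in 𝓝[>] (0:ℝ), g (σ (u x - t • v)) < g x := by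
    intro g hg hpos
    have h6 : ∀ᶠ r in 𝓝[>] (0:ℝ), slope (fun t : ℝ => g (σ (u x - t • v))) 0 r < 0 :=
      (hasDerivWithinAt_iff_tendsto_slope' (s := Ioi (0:ℝ)) self_notMem_Ioi).1
        (sheet_deriv hu h hx'' hg v).hasDerivWithinAt |>.eventually_lt_const (by linarith)
    filter_upwards [h6, self_mem_nhdsWithin] with r h7 hr
    have hr' : 0 < r := hr
    rw [slope_def_field, sub_zero, div_lt_iff₀ hr', hbase] at h7
    linarith
  have hf' := hcs f hf hv1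
  have hr : ∀ᶠ t in 𝓝[>] (0:ℝ), ρ (σ (u x - t • v)) ≤ 0 := by
    rcases hx.eq_or_lt with h0 | h0
    · filter_upwards [hcs ρ hρ (hv2 h0)] with t ht
      rw [h0] at ht
      exact ht.le
    · have hc : ContinuousAt (fun t : ℝ => ρ (σ (u x - t • v))) 0 :=
        (sheet_deriv hu h hx'' hρ v).continuousAt
      have h1 : ρ (σ (u x - (0:ℝ) • v)) < 0 := by rw [hbase]; exact h0
      exact nhdsWithin_le_nhds ((hc.eventually_lt_const h1).mono fun t ht => ht.le)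
  obtain ⟨t, ht1, ht2⟩ := (hf'.and hr).exists
  exact absurd ht1 (not_lt.2 (hmin _ ht2))

/-- The height in direction `e`. -/
def ht (u : N → E) (e : E) (x : N) : ℝ := ⟪e, u x⟫

lemma ht_smooth {u : N → E} (hu : ContMDiff 𝓘(ℝ, E) 𝓘(ℝ, E) ∞ u) (e : E) :
    ContMDiff 𝓘(ℝ, E) 𝓘(ℝ, ℝ) ∞ (ht u e) := by
  have : ContDiff ℝ ∞ (fun z : E => ⟪e, z⟫) := contDiff_const.inner ℝ contDiff_id
  exact this.contMDiff.comp hu

lemma gr_ht {u : N → E} (hu : IsLocalDiffeomorph 𝓘(ℝ, E) 𝓘(ℝ, E) ∞ u) (e : E) (x : N) :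
    gr u (ht u e) x = e := by
  have h1 : HasGradientAt (fun z : E => ⟪e, z⟫) e (u x) := by
    rw [hasGradientAt_iff_hasFDerivAt]
    have := (innerSL ℝ e).hasFDerivAt (x := u x)
    exact this
  have h2 : ht u e = (fun z : E => ⟪e, z⟫) ∘ u := rfl
  rw [h2, gr_comp hu x h1.differentiableAt]
  exact h1.gradient

/-- At a minimum of the height the outward normal is opposite. -/
lemma min_normal {u : N → E} (hu : IsLocalDiffeomorph 𝓘(ℝ, E) 𝓘(ℝ, E) ∞ u) {ρ : N → ℝ}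
    (hρ : ContMDiff 𝓘(ℝ, E) 𝓘(ℝ, ℝ) ∞ ρ) (hreg : ∀ x, ρ x = 0 → gr u ρ x ≠ 0)
    {e : E} (he : e ≠ 0) {x : N} (hx : ρ x ≤ 0) (hmin : ∀ y, ρ y ≤ 0 → ht u e x ≤ ht u e y) :
    ρ x = 0 ∧ ∃ c : ℝ, 0 < c ∧ gr u ρ x = -(c • e) := by
  have hs := ht_smooth hu.contMDiff e
  have h0 : ρ x = 0 := by
    rcases hx.eq_or_lt with h0 | h0
    · exact h0
    · exfalso
      refine no_descent hu hρ hs hx hmin e ?_ (fun h => absurd h h0.ne)
      rw [gr_ht hu, real_inner_self_eq_norm_sq]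
      have := norm_pos_iff.2 he
      positivity
  refine ⟨h0, ?_⟩
  by_contra hno
  obtain ⟨v, h1, h2⟩ := exists_common he (hreg x h0) (fun s hs' h => by
    have hs0 : s ≠ 0 := by
      rintro rfl
      rw [zero_smul, add_zero] at h
      exact he h
    have hsp : 0 < s := lt_of_le_of_ne hs' (Ne.symm hs0)
    apply hno
    refine ⟨s⁻¹, inv_pos.2 hsp, ?_⟩
    have h3 : gr u ρ x = s⁻¹ • (s • gr u ρ x) := by
      rw [smul_smul, inv_mul_cancel₀ hs0, one_smul]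
    have h4 : s • gr u ρ x = -e := (neg_eq_of_add_eq_zero_right h).symm
    rw [h3, h4, smul_neg])
  exact no_descent hu hρ hs hx hmin v (by rw [gr_ht hu]; exact h1) fun _ => h2

/-- The Hessian as a bilinear form. -/
def hb (u : N → E) (g : N → ℝ) (x : N) (v w : E) : ℝ :=
  ⟪(show E →L[ℝ] E from mfderiv 𝓘(ℝ, E) 𝓘(ℝ, E) (gr u g) x) (dI u x v), w⟫

lemma hb_sec {u : N → E} (hu : IsLocalDiffeomorph 𝓘(ℝ, E) 𝓘(ℝ, E) ∞ u) {g : N → ℝ}
    (hg : ContMDiff 𝓘(ℝ, E) 𝓘(ℝ, ℝ) ∞ g) {U : Set E} {σ : E → N} (h : Sec u U σ) {x : N}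
    (hx : x ∈ σ '' U) (v w : E) : hb u g x v w = ⟪fderiv ℝ (∇ (g ∘ σ)) (u x) v, w⟫ := by
  have hxU := h.mem hx
  have hσx := h.left hx
  have h1 : MDifferentiableAt 𝓘(ℝ, E) 𝓘(ℝ, E) σ (u x) :=
    (h.smoothAt hxU).mdifferentiableAt (by simp)
  have h2 : MDifferentiableAt 𝓘(ℝ, E) 𝓘(ℝ, E) (gr u g) (σ (u x)) :=
    (gr_smooth hu hg).mdifferentiableAt (by simp)
  have h3 := mfderiv_comp (u x) h2 h1
  have h4 := mfderiv_sec hu h hx
  have h5 : ∇ (g ∘ σ) =ᶠ[𝓝 (u x)] (gr u g) ∘ σ := by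
    filter_upwards [h.isOpen.mem_nhds hxU] with z hz
    have h6 := gr_sec hu h (x := σ z) ⟨z, hz, rfl⟩ (hg.mdifferentiableAt (by simp))
    rw [h.right z hz] at h6
    exact h6.symm
  unfold hb
  congr 1
  have h7 : fderiv ℝ (∇ (g ∘ σ)) (u x) = mfderiv 𝓘(ℝ, E) 𝓘(ℝ, E) ((gr u g) ∘ σ) (u x) := by
    rw [h5.fderiv_eq, mfderiv_eq_fderiv]
  rw [h7, h3, hσx, ← h4]
  rfl

/-- The derivative of the gradient is symmetric. -/
lemma grad_symm {g : E → ℝ} {z : E} (hg : ContDiffAt ℝ ∞ g z) (v w : E) :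
    ⟪fderiv ℝ (∇ g) z v, w⟫ = ⟪fderiv ℝ (∇ g) z w, v⟫ := by
  have hd : DifferentiableAt ℝ (fderiv ℝ g) z :=
    ((hg.fderiv_right (m := ∞) (by simp)).differentiableAt (by simp))
  have hdg : DifferentiableAt ℝ (∇ g) z := by
    have h3 : ContDiffAt ℝ ∞ (∇ g) z := by
      unfold gradient
      exact (InnerProductSpace.toDual ℝ E).symm.contDiff.contDiffAt.comp z
        (hg.fderiv_right (m := ∞) (by simp))
    exact h3.differentiableAt (by simp)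
  have key : ∀ a b : E, ⟪fderiv ℝ (∇ g) z a, b⟫ = fderiv ℝ (fderiv ℝ g) z a b := by
    intro a b
    have h1 : HasFDerivAt (fun y => ⟪∇ g y, b⟫) (fderiv ℝ (fun y => ⟪∇ g y, b⟫) z) z :=
      (hdg.inner ℝ (differentiableAt_const b)).hasFDerivAt
    have h2 : fderiv ℝ (fun y => ⟪∇ g y, b⟫) z a = ⟪fderiv ℝ (∇ g) z a, b⟫ := by
      rw [fderiv_inner_apply ℝ hdg (differentiableAt_const b)]
      simp
    have h3 : (fun y => ⟪∇ g y, b⟫) = fun y => fderiv ℝ g y b := by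
      funext y
      exact InnerProductSpace.toDual_symm_apply
    rw [← h2, h3, fderiv_clm_apply hd (differentiableAt_const b)]
    simp
  rw [key, key]
  have hs : IsSymmSndFDerivAt ℝ g z := hg.isSymmSndFDerivAt (by
    rw [minSmoothness_of_isRCLikeNormedField]
    exact (WithTop.coe_le_coe.2 (le_top : (2 : ℕ∞) ≤ ⊤)))
  exact hs v w

lemma hb_symm {u : N → E} (hu : IsLocalDiffeomorph 𝓘(ℝ, E) 𝓘(ℝ, E) ∞ u) {g : N → ℝ}
    (hg : ContMDiff 𝓘(ℝ, E) 𝓘(ℝ, ℝ) ∞ g) (x : N) (v w : E) : hb u g x v w = hb u g x w v := by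
  obtain ⟨U, σ, h, hxU, hσx⟩ := exists_sec hu x
  have hx' : x ∈ σ '' U := ⟨u x, hxU, hσx⟩
  rw [hb_sec hu hg h hx', hb_sec hu hg h hx']
  have hgU : ContDiffOn ℝ ∞ (g ∘ σ) U := by
    rw [← contMDiffOn_iff_contDiffOn]
    exact hg.comp_contMDiffOn h.smooth
  exact grad_symm (hgU.contDiffAt (h.isOpen.mem_nhds hxU)) v w

end Pool.Agent.Q196.XB
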