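import Pool.Agent.Q196.XB.Rays

/-! Mountain pass: in a connected domain the outward normal rays through an interior value cannot
all start at strict local minima of the distance. -/

set_option autoImplicit false
set_option linter.unusedSectionVars false

open scoped Topology ContDiff Manifold RealInnerProductSpace Gradient
open Set Metric Filter Bundle

noncomputable section

namespace Pool.Agent.Q196.XB

variable {E : Type} [NormedAddCommGroup E] [InnerProductSpace ℝ E] [FiniteDimensional ℝ E]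
  {N : Type} [TopologicalSpace N] [ChartedSpace E N] [IsManifold 𝓘(ℝ, E) ∞ N]

lemma isolated {K : Set N} [T2Space N] (hK : IsPreconnected K) {x q : N} (hx : x ∈ K) (hq : q ∈ K)
    (h : ∀ᶠ y in 𝓝 x, y ∈ K → y = x) : q = x := by
  by_contra hne
  obtain ⟨O, hO, hOo, hxO⟩ := _root_.eventually_nhds_iff.1 h
  have h1 := hK O {x}ᶜ hOo isOpen_compl_singleton (fun y hy => by
    by_cases hyx : y = x
    · left; rw [hyx]; exact hxO
    · right; exact hyx) ⟨x, hx, hxO⟩ ⟨q, hq, hne⟩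
  obtain ⟨y, hy, hy1, hy2⟩ := h1
  exact hy2 (hO y hy1 hy)

/-- The boundary points from which the outward normal ray goes through `p`. -/
def Cr (u : N → E) (ρ : N → ℝ) (p : E) : Set N :=
  {x | ρ x = 0 ∧ ⟪u x - p, gr u ρ x⟫ = -(‖u x - p‖ * ‖gr u ρ x‖)}

lemma mem_Cr_of {u : N → E} {ρ : N → ℝ} {p : E} {x : N} (hx : ρ x = 0) {s : ℝ} (hs : 0 ≤ s)
    (h : u x + s • gr u ρ x = p) : x ∈ Cr u ρ p := by
  refine ⟨hx, ?_⟩
  have h1 : u x - p = -(s • gr u ρ x) := by rw [← h]; abel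
  rw [h1, inner_neg_left, inner_smul_left, real_inner_self_eq_norm_sq, norm_neg, norm_smul,
    Real.norm_eq_abs, abs_of_nonneg hs]
  simp only [conj_trivial]
  ring

lemma of_mem_Cr {u : N → E} {ρ : N → ℝ} {p : E} {x : N} (hx : x ∈ Cr u ρ p) (hxp : u x ≠ p)
    (hg : gr u ρ x ≠ 0) : ∃ s : ℝ, 0 < s ∧ u x + s • gr u ρ x = p := by
  set a := u x - p with ha
  set b := gr u ρ x with hb
  have ha' : 0 < ‖a‖ := norm_pos_iff.2 (sub_ne_zero.2 hxp)
  have hb' : 0 < ‖b‖ := norm_pos_iff.2 hg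
  have h3 : ⟪a, -b⟫ = ‖a‖ * ‖-b‖ := by
    rw [inner_neg_right, norm_neg, hx.2, neg_neg]
  have h4 := inner_eq_norm_mul_iff_real.1 h3
  rw [norm_neg] at h4
  refine ⟨‖a‖ / ‖b‖, by positivity, ?_⟩
  have h7 : a = ‖b‖⁻¹ • (‖b‖ • a) := by
    rw [smul_smul, inv_mul_cancel₀ hb'.ne', one_smul]
  rw [h4, smul_neg, smul_neg, smul_smul] at h7
  have h8 : ‖a‖ / ‖b‖ = ‖b‖⁻¹ * ‖a‖ := by rw [div_eq_inv_mul]
  rw [h8]
  have h9 : u x = p + a := by rw [ha]; abel
  rw [h9]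
  nth_rewrite 1 [h7]
  abel

lemma exists_separation [T2Space N] {K : Set N} (hK : IsCompact K) (h : ¬IsPreconnected K) :
    ∃ O₁ O₂ : Set N, IsOpen O₁ ∧ IsOpen O₂ ∧ Disjoint O₁ O₂ ∧ K ⊆ O₁ ∪ O₂ ∧ (K ∩ O₁).Nonempty ∧
      (K ∩ O₂).Nonempty := by
  rw [isPreconnected_closed_iff] at h
  push Not at h
  obtain ⟨t, t', ht, ht', hKt, hne, hne', hem⟩ := h
  have hd : Disjoint (K ∩ t) (K ∩ t') := by
    rw [Set.disjoint_left]
    rintro x ⟨h1, h2⟩ ⟨-, h3⟩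
    have : x ∈ K ∩ (t ∩ t') := ⟨h1, h2, h3⟩
    rw [hem] at this
    exact this
  obtain ⟨O₁, O₂, h1, h2, h3, h4, h5⟩ :=
    SeparatedNhds.of_isCompact_isCompact (hK.inter_right ht) (hK.inter_right ht') hd
  refine ⟨O₁, O₂, h1, h2, h5, ?_, ?_, ?_⟩
  · intro x hx
    rcases hKt hx with h | h
    · exact Or.inl (h3 ⟨hx, h⟩)
    · exact Or.inr (h4 ⟨hx, h⟩)
  · obtain ⟨x, hx⟩ := hne
    exact ⟨x, hx.1, h3 hx⟩
  · obtain ⟨x, hx⟩ := hne'
    exact ⟨x, hx.1, h4 hx⟩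

lemma not_preconnected_of_separation {K O₁ O₂ : Set N} (h1 : IsOpen O₁) (h2 : IsOpen O₂)
    (hd : Disjoint O₁ O₂) (hK : K ⊆ O₁ ∪ O₂) (hn1 : (K ∩ O₁).Nonempty) (hn2 : (K ∩ O₂).Nonempty) :
    ¬IsPreconnected K := by
  intro h
  obtain ⟨x, -, hx⟩ := h O₁ O₂ h1 h2 hK hn1 hn2
  exact Set.disjoint_left.1 hd hx.1 hx.2

/-- A sublevel set of the distance retracts onto a lower one if there are no critical boundary
points in between. -/
theorem retract [T2Space N] [SigmaCompactSpace N] {u : N → E}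
    (hu : IsLocalDiffeomorph 𝓘(ℝ, E) 𝓘(ℝ, E) ∞ u) {ρ : N → ℝ}
    (hρ : ContMDiff 𝓘(ℝ, E) 𝓘(ℝ, ℝ) ∞ ρ) (hreg : ∀ x, ρ x = 0 → gr u ρ x ≠ 0)
    (hcomp : IsCompact {x | ρ x ≤ 0}) {p : E} (hb : ∀ x, ρ x = 0 → u x ≠ p) {c c₁ c₂ : ℝ}
    (hc0 : 0 < c) (hcc : c < c₁) (hcc' : c₁ < c₂)
    (hno : ∀ x ∈ Cr u ρ p, ¬(c ≤ fd u p x ∧ fd u p x ≤ c₂))
    (hconn : IsPreconnected {x | ρ x ≤ 0 ∧ fd u p x ≤ c₁}) :
    IsPreconnected {x | ρ x ≤ 0 ∧ fd u p x ≤ c} := by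
  have hus : ContMDiff 𝓘(ℝ, E) 𝓘(ℝ, E) ∞ u := hu.contMDiff
  have huc : Continuous u := hus.continuous
  have hgc : Continuous (gr u ρ) := (gr_smooth hu hρ).continuous
  have hfs := fd_smooth hus p
  have hfc : Continuous (fd u p) := hfs.continuous
  have hne : ∀ x, c ≤ fd u p x → u x - p ≠ 0 := by
    intro x hx h
    unfold fd at hx
    rw [h, norm_zero] at hx
    linarith
  let t : N → Set E := fun x =>
    {v | (ρ x ≤ 0 ∧ c ≤ fd u p x ∧ fd u p x ≤ c₂ → v ∈ {v : E | ⟪u x - p, v⟫ = (1:ℝ)}) ∧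
      (ρ x = 0 ∧ c ≤ fd u p x ∧ fd u p x ≤ c₂ → v ∈ {v : E | 0 < ⟪gr u ρ x, v⟫})}
  have ht : ∀ x, Convex ℝ (t x) := fun x => by
    refine (convex_imp ?_).inter (convex_imp (convex_pos _))
    intro v hv w hw a b _ _ hab
    show ⟪u x - p, a • v + b • w⟫ = (1:ℝ)
    rw [inner_add_right, inner_smul_right, inner_smul_right, show ⟪u x - p, v⟫ = (1:ℝ) from hv,
      show ⟪u x - p, w⟫ = (1:ℝ) from hw]
    linarith
  have hloc : ∀ x : N, ∃ U ∈ 𝓝 x, ∃ g : N → E, ContMDiffOn 𝓘(ℝ, E) 𝓘(ℝ, E) ∞ g U ∧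
      ∀ y ∈ U, g y ∈ t y := by
    intro x
    by_cases hx : ρ x ≤ 0 ∧ c ≤ fd u p x ∧ fd u p x ≤ c₂
    · obtain ⟨v, hv1, hv2⟩ : ∃ v, 0 < ⟪u x - p, v⟫ ∧ (ρ x = 0 → 0 < ⟪gr u ρ x, v⟫) := by
        by_cases hx0 : ρ x = 0
        · obtain ⟨v, h1, h2⟩ := exists_common (a := u x - p) (b := gr u ρ x)
            (sub_ne_zero.2 (hb x hx0)) (hreg x hx0) (fun s hs h => hno x (mem_Cr_of hx0 hs (by
              rw [← sub_eq_zero, ← h]; abel)) hx.2)
          exact ⟨v, h1, fun _ => h2⟩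
        · refine ⟨u x - p, ?_, fun h => absurd h hx0⟩
          rw [real_inner_self_eq_norm_sq]
          have := norm_pos_iff.2 (hne x hx.2.1)
          positivity
      refine ⟨{y | 0 < ⟪u y - p, v⟫ ∧ (ρ y = 0 → 0 < ⟪gr u ρ y, v⟫)}, ?_,
        fun y => (⟪u y - p, v⟫)⁻¹ • v, ?_, ?_⟩
      · have h3 : ∀ᶠ y in 𝓝 x, 0 < ⟪u y - p, v⟫ :=
          ev_gt (f := fun y => ⟪u y - p, v⟫) (by fun_prop) hv1
        by_cases hx0 : ρ x = 0
        · have h4 : ∀ᶠ y in 𝓝 x, 0 < ⟪gr u ρ y, v⟫ :=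
            ev_gt (f := fun y => ⟪gr u ρ y, v⟫) (by fun_prop) (hv2 hx0)
          filter_upwards [h3, h4] with y a b using ⟨a, fun _ => b⟩
        · have h4 : ∀ᶠ y in 𝓝 x, ρ y ≠ 0 := hρ.continuous.continuousAt.eventually_ne hx0
          filter_upwards [h3, h4] with y a b using ⟨a, fun h => absurd h b⟩
      · intro y hy
        have h5 : ContMDiffAt 𝓘(ℝ, E) 𝓘(ℝ, ℝ) ∞ (fun y => ⟪u y - p, v⟫) y := by
          have : ContDiff ℝ ∞ (fun z : E => ⟪z - p, v⟫) :=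
            (contDiff_id.sub contDiff_const).inner ℝ contDiff_const
          exact (this.contMDiff.comp hus).contMDiffAt
        have h6 : ContMDiffAt 𝓘(ℝ, E) 𝓘(ℝ, E) ∞ (fun y => (⟪u y - p, v⟫)⁻¹ • v) y := by
          have h7 : ContDiffAt ℝ ∞ (fun r : ℝ => r⁻¹ • v) ⟪u y - p, v⟫ :=
            (contDiffAt_inv ℝ hy.1.ne').smul contDiffAt_const
          exact ContMDiffAt.comp (g := fun r : ℝ => r⁻¹ • v) y h7.contMDiffAt h5
        exact h6.contMDiffWithinAt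
      · intro y hy
        refine ⟨fun _ => ?_, fun h => ?_⟩
        · show ⟪u y - p, (⟪u y - p, v⟫)⁻¹ • v⟫ = (1:ℝ)
          rw [inner_smul_right, inv_mul_cancel₀ hy.1.ne']
        · show 0 < ⟪gr u ρ y, (⟪u y - p, v⟫)⁻¹ • v⟫
          rw [inner_smul_right]
          exact mul_pos (inv_pos.2 hy.1) (hy.2 h.1)
    · have hcl : IsClosed {x | ρ x ≤ 0 ∧ c ≤ fd u p x ∧ fd u p x ≤ c₂} :=
        (isClosed_le hρ.continuous continuous_const).inter
          ((isClosed_le continuous_const hfc).inter (isClosed_le hfc continuous_const))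
      refine ⟨_, hcl.isOpen_compl.mem_nhds hx, fun _ => 0, contMDiffOn_const, ?_⟩
      intro y hy
      exact ⟨fun h => absurd h hy, fun h => absurd ⟨h.1.le, h.2⟩ hy⟩
  obtain ⟨X₀, hX₀⟩ := exists_contMDiffMap_forall_mem_convex_of_local (n := ⊤) 𝓘(ℝ, E) ht hloc
  obtain ⟨χ, K, hχ, hK, -, hχ1, hχ0⟩ := Helper186.exists_cutoff 𝓘(ℝ, E) hcomp isOpen_univ
    (subset_univ {x | ρ x ≤ 0})
  set X : N → E := fun x => χ x • X₀ x with hX
  have hXs : ContMDiff 𝓘(ℝ, E) 𝓘(ℝ, E) ∞ X := hχ.smul X₀.contMDiff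
  have hX1 : ∀ x, ρ x ≤ 0 → X x = X₀ x := by
    intro x hx
    have : χ x = 1 := hχ1.self_of_nhdsSet x hx
    simp only [hX]
    rw [this, one_smul]
  obtain ⟨Fl, hFl⟩ := exists_flow hu hXs hK (fun x hx => by
    simp only [hX]
    rw [hχ0 x hx, zero_smul])
  have hXf : ∀ x, ρ x ≤ 0 → c ≤ fd u p x → fd u p x ≤ c₂ → ⟪gr u (fd u p) x, X x⟫ = (1:ℝ) := by
    intro x h1 h2 h3
    rw [gr_fd hu, hX1 x h1]
    exact (hX₀ x).1 ⟨h1, h2, h3⟩
  have hXρ : ∀ x, ρ x = 0 → c ≤ fd u p x → fd u p x ≤ c₂ → 0 < ⟪gr u ρ x, X x⟫ := by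
    intro x h1 h2 h3
    rw [hX1 x h1.le]
    exact (hX₀ x).2 ⟨h1, h2, h3⟩
  -- the flow in the band
  have band : ∀ x, ρ x ≤ 0 → fd u p x ≤ c₁ → ∀ t ∈ Icc 0 (fd u p x - c),
      ρ (Fl (-t) x) ≤ 0 ∧ fd u p (Fl (-t) x) = fd u p x - t := by
    intro x hx hx1 t ht
    set T := fd u p x - c with hT
    set S : Set ℝ := {t | ρ (Fl (-t) x) ≤ 0 ∧ fd u p (Fl (-t) x) = fd u p x - t} with hS
    have hct : Continuous (fun t : ℝ => Fl (-t) x) := (hFl.cont_t x).comp continuous_neg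
    have hSc : IsClosed S :=
      (isClosed_le (hρ.continuous.comp hct) continuous_const).inter
        (isClosed_eq (hfc.comp hct) (by fun_prop))
    have h0S : (0:ℝ) ∈ S := by
      constructor
      · rw [neg_zero, hFl.zero]; exact hx
      · rw [neg_zero, hFl.zero, sub_zero]
    have hstep : ∀ s ∈ S ∩ Ico 0 T, S ∈ 𝓝[>] s := by
      rintro s ⟨⟨hs1, hs2⟩, hs3, hs4⟩
      have hlow : c < fd u p (Fl (-s) x) := by rw [hs2]; linarith
      have hup : fd u p (Fl (-s) x) < c₂ := by rw [hs2]; linarith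
      have e1 : ∀ᶠ r in 𝓝 s, c < fd u p (Fl (-r) x) := ev_gt (hfc.comp hct) hlow
      have e2 : ∀ᶠ r in 𝓝 s, fd u p (Fl (-r) x) < c₂ := ev_lt (hfc.comp hct) hup
      have e3 : ∀ᶠ r in 𝓝[>] s, ρ (Fl (-r) x) ≤ 0 := by
        rcases hs1.eq_or_lt with h1 | h1
        · have h2 := hFl.deriv_neg hρ x s
          have h3 := hXρ _ h1 hlow.le hup.le
          have h6 : ∀ᶠ r in 𝓝[>] s, slope (fun r => ρ (Fl (-r) x)) s r < 0 :=
            (hasDerivWithinAt_iff_tendsto_slope' (s := Ioi s) self_notMem_Ioi).1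
              h2.hasDerivWithinAt |>.eventually_lt_const (by linarith)
          filter_upwards [h6, self_mem_nhdsWithin] with r h7 hr
          have hr' : s < r := hr
          rw [slope_def_field, div_lt_iff₀ (by linarith), h1] at h7
          linarith
        · exact nhdsWithin_le_nhds ((ev_lt (hρ.continuous.comp hct) h1).mono fun r hr => hr.le)
      have e4 : ∀ᶠ r in 𝓝[>] s, ρ (Fl (-r) x) ≤ 0 ∧ c < fd u p (Fl (-r) x) ∧
          fd u p (Fl (-r) x) < c₂ := by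
        filter_upwards [e3, nhdsWithin_le_nhds e1, nhdsWithin_le_nhds e2] with r a b c
          using ⟨a, b, c⟩
      obtain ⟨b, hb1, hb2⟩ := mem_nhdsGT_iff_exists_Ioo_subset.1 e4
      refine mem_nhdsGT_iff_exists_Ioo_subset.2 ⟨b, hb1, ?_⟩
      intro r hr
      have hr2 := hb2 hr
      refine ⟨hr2.1, ?_⟩
      have hd : ∀ a ∈ Ioo s b, HasDerivAt (fun a => fd u p (Fl (-a) x) + a) 0 a := by
        intro a ha
        have h1 := hb2 ha
        have h2 := (hFl.deriv_neg hfs x a).add (hasDerivAt_id a)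
        rw [hXf _ h1.1 h1.2.1.le h1.2.2.le, neg_add_cancel] at h2
        exact h2
      have hsd : HasDerivAt (fun a => fd u p (Fl (-a) x) + a) 0 s := by
        have h2 := (hFl.deriv_neg hfs x s).add (hasDerivAt_id s)
        rw [hXf _ hs1 hlow.le hup.le, neg_add_cancel] at h2
        exact h2
      have hconst := constant_of_has_deriv_right_zero (a := s) (b := r)
        (f := fun a => fd u p (Fl (-a) x) + a)
        (((hfc.comp hct).add continuous_id).continuousOn)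
        (fun a ha => by
          rcases ha.1.eq_or_lt with h | h
          · rw [← h]; exact hsd.hasDerivWithinAt
          · exact (hd a ⟨h, ha.2.trans hr.2⟩).hasDerivWithinAt) r ⟨hr.1.le, le_rfl⟩
      have hconst' : fd u p (Fl (-r) x) + r = fd u p (Fl (-s) x) + s := hconst
      rw [hs2] at hconst'
      linarith
    have := (hSc.inter isClosed_Icc).Icc_subset_of_forall_mem_nhdsWithin h0S hstep ht
    exact this
  -- the retraction
  set R : N → N := fun x => Fl (-(max (fd u p x - c) 0)) x with hR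
  have hRc : Continuous R :=
    hFl.cont.comp (((hfc.sub continuous_const).max continuous_const).neg.prodMk continuous_id)
  have himg : R '' {x | ρ x ≤ 0 ∧ fd u p x ≤ c₁} = {x | ρ x ≤ 0 ∧ fd u p x ≤ c} := by
    ext y
    constructor
    · rintro ⟨x, ⟨hx1, hx2⟩, rfl⟩
      rcases le_total (fd u p x) c with h | h
      · have : max (fd u p x - c) 0 = 0 := max_eq_right (by linarith)
        simp only [hR, this, neg_zero, hFl.zero]
        exact ⟨hx1, h⟩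
      · have : max (fd u p x - c) 0 = fd u p x - c := max_eq_left (by linarith)
        have hb := band x hx1 hx2 (fd u p x - c) ⟨by linarith, le_rfl⟩
        simp only [hR, this]
        exact ⟨hb.1, by rw [hb.2]; linarith⟩
    · rintro ⟨hy1, hy2⟩
      refine ⟨y, ⟨hy1, hy2.trans hcc.le⟩, ?_⟩
      have : max (fd u p y - c) 0 = 0 := max_eq_right (by linarith)
      simp only [hR, this, neg_zero, hFl.zero]
  rw [← himg]
  exact hconn.image R hRc.continuousOn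

/-- **Mountain pass.** -/
theorem no_crit [T2Space N] [SigmaCompactSpace N] {u : N → E}
    (hu : IsLocalDiffeomorph 𝓘(ℝ, E) 𝓘(ℝ, E) ∞ u) {ρ : N → ℝ}
    (hρ : ContMDiff 𝓘(ℝ, E) 𝓘(ℝ, ℝ) ∞ ρ) (hreg : ∀ x, ρ x = 0 → gr u ρ x ≠ 0)
    (hcomp : IsCompact {x | ρ x ≤ 0}) (hconn : IsPreconnected {x | ρ x ≤ 0}) {p : E} {q₀ : N}
    (hq₀ : u q₀ = p) (hq₀' : ρ q₀ ≤ 0) (hb : ∀ x, ρ x = 0 → u x ≠ p)
    (hmin : ∀ x, ρ x = 0 → ∀ s : ℝ, 0 < s → u x + s • gr u ρ x = p →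
      ∀ᶠ y in 𝓝 x, ρ y ≤ 0 → y ≠ x → ‖u x - p‖ < ‖u y - p‖) :
    Cr u ρ p = ∅ := by
  have hus : ContMDiff 𝓘(ℝ, E) 𝓘(ℝ, E) ∞ u := hu.contMDiff
  have huc : Continuous u := hus.continuous
  have hgc : Continuous (gr u ρ) := (gr_smooth hu hρ).continuous
  have hfs := fd_smooth hus p
  have hfc : Continuous (fd u p) := hfs.continuous
  rw [Set.eq_empty_iff_forall_notMem]
  intro x₀ hx₀
  have hCrmin : ∀ x ∈ Cr u ρ p, ∀ᶠ y in 𝓝 x, ρ y ≤ 0 → y ≠ x → fd u p x < fd u p y := by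
    intro x hx
    obtain ⟨s, hs, hsp⟩ := of_mem_Cr hx (hb x hx.1) (hreg x hx.1)
    filter_upwards [hmin x hx.1 s hs hsp] with y hy h1 h2
    have h3 := hy h1 h2
    unfold fd
    have h4 := norm_nonneg (u x - p)
    nlinarith
  have hfq : fd u p q₀ = 0 := by unfold fd; rw [hq₀]; simp
  have hfpos : ∀ x, ρ x = 0 → 0 < fd u p x := by
    intro x hx
    unfold fd
    have := norm_pos_iff.2 (sub_ne_zero.2 (hb x hx))
    positivity
  set D : Set ℝ := {c | ¬IsPreconnected {x | ρ x ≤ 0 ∧ fd u p x ≤ c}} with hD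
  have hx₀D : fd u p x₀ ∈ D := by
    intro hpc
    have h1 := isolated hpc (x := x₀) (q := q₀) ⟨hx₀.1.le, le_rfl⟩
      ⟨hq₀', by rw [hfq]; exact (hfpos _ hx₀.1).le⟩ (by
        filter_upwards [hCrmin x₀ hx₀] with y hy hyK
        by_contra hne
        exact absurd (hy hyK.1 hne) (not_lt.2 hyK.2))
    exact hb x₀ hx₀.1 (by rw [← h1]; exact hq₀)
  have hDb : BddAbove D := by
    obtain ⟨m, hm⟩ := (hcomp.image hfc).bddAbove
    refine ⟨m, fun c hc => ?_⟩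
    by_contra hlt
    push Not at hlt
    apply hc
    have : {x | ρ x ≤ 0 ∧ fd u p x ≤ c} = {x | ρ x ≤ 0} := by
      ext x
      exact ⟨fun h => h.1, fun h => ⟨h, (hm ⟨x, h, rfl⟩).trans hlt.le⟩⟩
    rw [this]
    exact hconn
  set c₁ := sSup D with hc₁
  have hc₁x : fd u p x₀ ≤ c₁ := le_csSup hDb hx₀D
  have hc₁pos : 0 < c₁ := (hfpos _ hx₀.1).trans_le hc₁x
  -- the supremum is not attained
  have hc₁D : c₁ ∉ D := by
    intro hmem
    have hKc : IsCompact {x | ρ x ≤ 0 ∧ fd u p x ≤ c₁} :=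
      hcomp.inter_right (isClosed_le hfc continuous_const)
    obtain ⟨O₁, O₂, h1, h2, h3, h4, h5, h6⟩ := exists_separation hKc hmem
    have hK' : IsCompact ({x | ρ x ≤ 0} \ (O₁ ∪ O₂)) := hcomp.diff (h1.union h2)
    obtain ⟨m, hm, hm'⟩ : ∃ m > c₁, ∀ x ∈ {x | ρ x ≤ 0} \ (O₁ ∪ O₂), m ≤ fd u p x := by
      by_cases hne : ({x | ρ x ≤ 0} \ (O₁ ∪ O₂)).Nonempty
      · obtain ⟨y, hy, hymin⟩ := hK'.exists_isMinOn hne hfc.continuousOn
        refine ⟨fd u p y, ?_, fun x hx => isMinOn_iff.1 hymin x hx⟩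
        by_contra hle
        exact hy.2 (h4 ⟨hy.1, not_lt.1 hle⟩)
      · exact ⟨c₁ + 1, by linarith, fun x hx => absurd ⟨x, hx⟩ hne⟩
    have hc : (c₁ + m) / 2 ∈ D := by
      refine not_preconnected_of_separation h1 h2 h3 ?_ ?_ ?_
      · intro x hx
        by_contra hxO
        have := hm' x ⟨hx.1, hxO⟩
        have := hx.2
        linarith
      · obtain ⟨x, hx, hxO⟩ := h5
        exact ⟨x, ⟨hx.1, hx.2.trans (by linarith)⟩, hxO⟩
      · obtain ⟨x, hx, hxO⟩ := h6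
        exact ⟨x, ⟨hx.1, hx.2.trans (by linarith)⟩, hxO⟩
    have := le_csSup hDb hc
    linarith
  have hpre : IsPreconnected {x | ρ x ≤ 0 ∧ fd u p x ≤ c₁} := not_not.1 hc₁D
  -- no critical points at this level
  have hlev : ∀ x ∈ Cr u ρ p, fd u p x ≠ c₁ := by
    intro x hx hxc
    have h1 := isolated hpre (x := x) (q := q₀) ⟨hx.1.le, hxc.le⟩
      ⟨hq₀', by rw [hfq]; exact hc₁pos.le⟩ (by
        filter_upwards [hCrmin x hx] with y hy hyK
        by_contra hne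
        have := hy hyK.1 hne
        have := hyK.2
        linarith)
    exact hb x hx.1 (by rw [← h1]; exact hq₀)
  have hCrc : IsCompact (Cr u ρ p) := by
    refine hcomp.of_isClosed_subset ?_ (fun x hx => hx.1.le)
    exact (isClosed_eq hρ.continuous continuous_const).inter
      (isClosed_eq (by fun_prop) (by fun_prop))
  obtain ⟨δ, hδ, hδ'⟩ : ∃ δ > 0, ∀ x ∈ Cr u ρ p, δ ≤ |fd u p x - c₁| := by
    have h1 : IsClosed (fd u p '' Cr u ρ p) := (hCrc.image hfc).isClosed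
    have h2 : c₁ ∈ (fd u p '' Cr u ρ p)ᶜ := by
      rintro ⟨x, hx, hxc⟩
      exact hlev x hx hxc
    obtain ⟨δ, hδ, hδ'⟩ := Metric.isOpen_iff.1 h1.isOpen_compl c₁ h2
    refine ⟨δ, hδ, fun x hx => ?_⟩
    by_contra hlt
    have h3 : fd u p x ∈ ball c₁ δ := by
      rw [mem_ball, Real.dist_eq]; exact not_le.1 hlt
    exact hδ' h3 ⟨x, hx, rfl⟩
  obtain ⟨c, hcD, hc⟩ := exists_lt_of_lt_csSup ⟨_, hx₀D⟩
    (show max (c₁ - δ) 0 < sSup D from max_lt (by linarith) hc₁pos)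
  have hc0 : 0 < c := (le_max_right _ _).trans_lt hc
  have hcδ : c₁ - δ < c := (le_max_left _ _).trans_lt hc
  have hcle : c ≤ c₁ := le_csSup hDb hcD
  have hclt : c < c₁ := lt_of_le_of_ne hcle (by rintro rfl; exact hc₁D hcD)
  apply hcD
  refine retract hu hρ hreg hcomp hb hc0 hclt (c₂ := c₁ + δ / 2) (by linarith) ?_ hpre
  rintro x hx ⟨h1, h2⟩
  have h3 := hδ' x hx
  have h4 : |fd u p x - c₁| < δ := by
    rw [abs_lt]; constructor <;> linarith
  linarith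

end Pool.Agent.Q196.XB
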