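import Pool.Agent.Q196.XB.Core
import Pool.Agent.Helper186.Cutoff

/-! If some point lies on no outward normal ray, the domain is a ball. -/

set_option autoImplicit false
set_option linter.unusedSectionVars false

open scoped Topology ContDiff Manifold RealInnerProductSpace Gradient
open Set Metric Filter Bundle

noncomputable section

namespace Pool.Agent.Q196.XB

variable {E : Type} [NormedAddCommGroup E] [InnerProductSpace ℝ E] [FiniteDimensional ℝ E]
  {N : Type} [TopologicalSpace N] [ChartedSpace E N] [IsManifold 𝓘(ℝ, E) ∞ N]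

/-- Half of the squared distance from `p`. -/
def fd (u : N → E) (p : E) (x : N) : ℝ := ‖u x - p‖ ^ 2 / 2

lemma fd_smooth {u : N → E} (hu : ContMDiff 𝓘(ℝ, E) 𝓘(ℝ, E) ∞ u) (p : E) :
    ContMDiff 𝓘(ℝ, E) 𝓘(ℝ, ℝ) ∞ (fd u p) := by
  have : ContDiff ℝ ∞ (fun z : E => ‖z - p‖ ^ 2 / 2) :=
    ((contDiff_id.sub contDiff_const).norm_sq ℝ).div_const 2
  exact this.contMDiff.comp hu

lemma ev_gt {Y : Type} [TopologicalSpace Y] {f : Y → ℝ} (hf : Continuous f) {x : Y} {a : ℝ}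
    (h : a < f x) : ∀ᶠ y in 𝓝 x, a < f y := hf.continuousAt.eventually_const_lt h

lemma ev_lt {Y : Type} [TopologicalSpace Y] {f : Y → ℝ} (hf : Continuous f) {x : Y} {a : ℝ}
    (h : f x < a) : ∀ᶠ y in 𝓝 x, f y < a := hf.continuousAt.eventually_lt_const h

lemma gr_fd {u : N → E} (hu : IsLocalDiffeomorph 𝓘(ℝ, E) 𝓘(ℝ, E) ∞ u) (p : E) (x : N) :
    gr u (fd u p) x = u x - p := by
  have h1 : DifferentiableAt ℝ (fun z : E => ‖z - p‖ ^ 2 / 2) (u x) := by
    have : ContDiff ℝ ∞ (fun z : E => ‖z - p‖ ^ 2 / 2) :=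
      ((contDiff_id.sub contDiff_const).norm_sq ℝ).div_const 2
    exact this.differentiable (by simp) _
  have h2 : fd u p = (fun z : E => ‖z - p‖ ^ 2 / 2) ∘ u := rfl
  rw [h2, gr_comp hu x h1]
  have h3 : HasGradientAt (fun z : E => ‖z - p‖ ^ 2 / 2) (u x - p) (u x) := by
    rw [hasGradientAt_iff_hasFDerivAt]
    have h4 : HasFDerivAt (fun z : E => ‖z - p‖ ^ 2) (2 • (innerSL ℝ (u x - p))) (u x) := by
      have h5 := ((hasFDerivAt_id (𝕜 := ℝ) (u x)).sub_const p).norm_sq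
      refine h5.congr_fderiv ?_
      ext v
      simp
    have h6 := h4.const_mul (1 / 2 : ℝ)
    have h7 : (fun z : E => ‖z - p‖ ^ 2 / 2) = fun z => (1 / 2 : ℝ) * ‖z - p‖ ^ 2 := by
      funext z; ring
    rw [h7]
    refine h6.congr_fderiv ?_
    ext v
    simp
  exact h3.gradient

lemma convex_imp {P : Prop} {s : Set E} (hs : Convex ℝ s) : Convex ℝ {v : E | P → v ∈ s} := by
  by_cases h : P
  · simpa [h] using hs
  · simpa [h] using convex_univ

lemma convex_pos (c : E) : Convex ℝ {v : E | 0 < ⟪c, v⟫} := by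
  intro v hv w hw a b ha hb hab
  show 0 < ⟪c, a • v + b • w⟫
  rw [inner_add_right, inner_smul_right, inner_smul_right]
  have hv' : 0 < ⟪c, v⟫ := hv
  have hw' : 0 < ⟪c, w⟫ := hw
  rcases ha.eq_or_lt with h | h
  · have : b = 1 := by linarith
    rw [← h, this]; linarith
  · have h1 : 0 < a * ⟪c, v⟫ := mul_pos h hv'
    have h2 : 0 ≤ b * ⟪c, w⟫ := mul_nonneg hb hw'.le
    linarith

/-- Two vectors which are not opposite have a common positive direction. -/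
lemma exists_common {a b : E} (ha : a ≠ 0) (hb : b ≠ 0) (h : ∀ s : ℝ, 0 ≤ s → a + s • b ≠ 0) :
    ∃ v, 0 < ⟪a, v⟫ ∧ 0 < ⟪b, v⟫ := by
  have ha' : 0 < ‖a‖ := norm_pos_iff.2 ha
  have hb' : 0 < ‖b‖ := norm_pos_iff.2 hb
  have hlt : -(‖a‖ * ‖b‖) < ⟪a, b⟫ := by
    have h1 : -(‖a‖ * ‖b‖) ≤ ⟪a, b⟫ := by
      have := abs_real_inner_le_norm a b
      linarith [(abs_le.1 this).1]
    rcases h1.eq_or_lt with h2 | h2
    · exfalso
      have h3 : ⟪a, -b⟫ = ‖a‖ * ‖-b‖ := by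
        rw [inner_neg_right, norm_neg]; linarith
      have h4 := inner_eq_norm_mul_iff_real.1 h3
      rw [norm_neg] at h4
      have h5 : a + (‖a‖ / ‖b‖) • b = 0 := by
        have h6 : ‖b‖ • a = -(‖a‖ • b) := by
          rw [h4, smul_neg]
        have h7 : a = ‖b‖⁻¹ • (‖b‖ • a) := by
          rw [smul_smul, inv_mul_cancel₀ hb'.ne', one_smul]
        rw [h6, smul_neg, smul_smul] at h7
        have h8 : ‖a‖ / ‖b‖ = ‖b‖⁻¹ * ‖a‖ := by rw [div_eq_inv_mul]
        rw [h8]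
        nth_rewrite 1 [h7]
        abel
      exact h _ (by positivity) h5
    · exact h2
  refine ⟨‖b‖ • a + ‖a‖ • b, ?_, ?_⟩
  · rw [inner_add_right, inner_smul_right, inner_smul_right, real_inner_self_eq_norm_sq]
    have : ‖b‖ * ‖a‖ ^ 2 + ‖a‖ * ⟪a, b⟫ = ‖a‖ * (‖a‖ * ‖b‖ + ⟪a, b⟫) := by ring
    rw [this]
    exact mul_pos ha' (by linarith)
  · rw [inner_add_right, inner_smul_right, inner_smul_right, real_inner_self_eq_norm_sq,
      real_inner_comm]
    have : ‖b‖ * ⟪a, b⟫ + ‖a‖ * ‖b‖ ^ 2 = ‖b‖ * (‖a‖ * ‖b‖ + ⟪a, b⟫) := by ring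
    rw [this]
    exact mul_pos hb' (by linarith)

/-- **Outward normal rays.** If the point `p` of the image of the domain lies on no closed outward
normal ray, the domain is a ball. -/
theorem rays [T2Space N] [SigmaCompactSpace N] {u : N → E}
    (hu : IsLocalDiffeomorph 𝓘(ℝ, E) 𝓘(ℝ, E) ∞ u) {ρ : N → ℝ}
    (hρ : ContMDiff 𝓘(ℝ, E) 𝓘(ℝ, ℝ) ∞ ρ) (hreg : ∀ x, ρ x = 0 → gr u ρ x ≠ 0)
    (hcomp : IsCompact {x | ρ x ≤ 0}) (hconn : IsPreconnected {x | ρ x ≤ 0}) {p : E} {q₀ : N}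
    (hq₀ : u q₀ = p) (hq₀' : ρ q₀ ≤ 0)
    (hc : ∀ x, ρ x = 0 → ∀ s : ℝ, 0 ≤ s → u x + s • gr u ρ x ≠ p) :
    IsBall E {x | ρ x ≤ 0} := by
  classical
  have hus : ContMDiff 𝓘(ℝ, E) 𝓘(ℝ, E) ∞ u := hu.contMDiff
  have huc : Continuous u := hus.continuous
  have hgc : Continuous (gr u ρ) := (gr_smooth hu hρ).continuous
  have hb : ∀ x, ρ x = 0 → u x ≠ p := by
    intro x hx h
    exact hc x hx 0 le_rfl (by simpa using h)
  set ι := {q : N // ρ q ≤ 0 ∧ u q = p} with hι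
  have hneg : ∀ q : ι, ρ q.1 < 0 := by
    intro q
    rcases q.2.1.eq_or_lt with h | h
    · exact absurd q.2.2 (hb _ h)
    · exact h
  have hsec : ∀ q : ι, ∃ σ : E → N, ∃ r > 0, Sec u (ball p r) σ ∧ σ p = q.1 ∧
      σ '' ball p r ⊆ {x | ρ x < 0} := by
    intro q
    have h1 : {x | ρ x < 0} ∈ 𝓝 q.1 := (isOpen_lt hρ.continuous continuous_const).mem_nhds (hneg q)
    have h2 := exists_ball_sec hu q.1 h1
    rwa [q.2.2] at h2
  choose σ r' hr' hσ hσp hσρ using hsec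
  -- the uniform radius
  obtain ⟨r₀, hr₀, hr₀'⟩ : ∃ r₀ > 0, ∀ x, ρ x ≤ 0 → ‖u x - p‖ < r₀ →
      ∃ q : ι, x ∈ σ q '' ball p (r' q) := by
    set C : Set N := {x | ρ x ≤ 0} \ ⋃ q : ι, σ q '' ball p (r' q) with hC
    have hCc : IsCompact C := hcomp.diff (isOpen_iUnion fun q => (hσ q).image)
    by_cases hCn : C.Nonempty
    · obtain ⟨y, hy, hymin⟩ := hCc.exists_isMinOn hCn
        (f := fun x => ‖u x - p‖) (by fun_prop)
      refine ⟨‖u y - p‖, ?_, ?_⟩
      · rw [gt_iff_lt, norm_pos_iff, sub_ne_zero]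
        intro h
        apply hy.2
        rw [mem_iUnion]
        exact ⟨⟨y, hy.1, h⟩, p, mem_ball_self (hr' _), hσp _⟩
      · intro x hx hxr
        by_contra hne
        have hxC : x ∈ C := ⟨hx, by
          rw [mem_iUnion]; exact hne⟩
        have := isMinOn_iff.1 hymin x hxC
        exact absurd hxr (not_lt.2 this)
    · refine ⟨1, one_pos, fun x hx _ => ?_⟩
      by_contra hne
      exact hCn ⟨x, hx, by rw [mem_iUnion]; exact hne⟩
  set r := r₀ / 2 with hr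
  have hr0 : 0 < r := by positivity
  have hbd : ∀ x, ρ x = 0 → r₀ ≤ ‖u x - p‖ := by
    intro x hx
    by_contra hlt
    obtain ⟨q, hq⟩ := hr₀' x hx.le (not_le.1 hlt)
    have : ρ x < 0 := hσρ q hq
    linarith
  -- the field
  let t : N → Set E := fun x => {v | (ρ x ≤ 0 ∧ ‖u x - p‖ ≤ r → v ∈ ({u x - p} : Set E)) ∧
    (ρ x ≤ 0 ∧ r ≤ ‖u x - p‖ → v ∈ {v : E | 0 < ⟪u x - p, v⟫}) ∧
    (ρ x = 0 → v ∈ {v : E | 0 < ⟪gr u ρ x, v⟫})}
  have ht : ∀ x, Convex ℝ (t x) := fun x =>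
    (convex_imp (convex_singleton _)).inter ((convex_imp (convex_pos _)).inter
      (convex_imp (convex_pos _)))
  have hloc : ∀ x : N, ∃ U ∈ 𝓝 x, ∃ g : N → E, ContMDiffOn 𝓘(ℝ, E) 𝓘(ℝ, E) ∞ g U ∧
      ∀ y ∈ U, g y ∈ t y := by
    intro x
    rcases lt_trichotomy (ρ x) 0 with hx | hx | hx
    · by_cases hxr : ‖u x - p‖ < r₀
      · refine ⟨{y | ρ y < 0 ∧ u y ≠ p ∨ ‖u y - p‖ < r ∧ ρ y < 0}, ?_, fun y => u y - p,
          (hus.sub contMDiff_const).contMDiffOn, ?_⟩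
        · have h1 : ∀ᶠ y in 𝓝 x, ρ y < 0 := hρ.continuous.continuousAt.eventually_lt_const hx
          by_cases hxp : ‖u x - p‖ < r
          · have h2 : ∀ᶠ y in 𝓝 x, ‖u y - p‖ < r :=
              ev_lt (by fun_prop) hxp
            filter_upwards [h1, h2] with y h3 h4 using Or.inr ⟨h4, h3⟩
          · have h2 : ∀ᶠ y in 𝓝 x, 0 < ‖u y - p‖ :=
              ev_gt (by fun_prop) (hr0.trans_le (not_lt.1 hxp))
            filter_upwards [h1, h2] with y h3 h4
            exact Or.inl ⟨h3, sub_ne_zero.1 (norm_pos_iff.1 h4)⟩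
        · intro y hy
          have hy0 : ρ y < 0 := by
            rcases hy with h | h
            · exact h.1
            · exact h.2
          refine ⟨fun _ => rfl, fun h => ?_, fun h => absurd h hy0.ne⟩
          show 0 < ⟪u y - p, u y - p⟫
          rw [real_inner_self_eq_norm_sq]
          have : 0 < ‖u y - p‖ := hr0.trans_le h.2
          positivity
      · have hne : u x - p ≠ 0 := by
          intro h
          rw [h, norm_zero] at hxr
          exact hxr hr₀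
        refine ⟨{y | ρ y < 0 ∧ r < ‖u y - p‖ ∧ 0 < ⟪u y - p, u x - p⟫}, ?_, fun _ => u x - p,
          contMDiffOn_const, ?_⟩
        · have h1 : ∀ᶠ y in 𝓝 x, ρ y < 0 := hρ.continuous.continuousAt.eventually_lt_const hx
          have h2 : ∀ᶠ y in 𝓝 x, r < ‖u y - p‖ :=
            ev_gt (by fun_prop) (by linarith [not_lt.1 hxr])
          have h3 : ∀ᶠ y in 𝓝 x, 0 < ⟪u y - p, u x - p⟫ := by
            refine ev_gt (f := fun y => ⟪u y - p, u x - p⟫) (by fun_prop) ?_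
            show 0 < ⟪u x - p, u x - p⟫
            rw [real_inner_self_eq_norm_sq]
            have := norm_pos_iff.2 hne
            positivity
          filter_upwards [h1, h2, h3] with y a b c using ⟨a, b, c⟩
        · intro y hy
          exact ⟨fun h => absurd h.2 (not_le.2 hy.2.1), fun _ => hy.2.2, fun h => absurd h hy.1.ne⟩
    · -- boundary point
      obtain ⟨v, hv1, hv2⟩ := exists_common (a := u x - p) (b := gr u ρ x)
        (sub_ne_zero.2 (hb x hx)) (hreg x hx) (fun s hs h => hc x hx s hs (by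
          rw [← sub_eq_zero, ← h]; abel))
      refine ⟨{y | r < ‖u y - p‖ ∧ 0 < ⟪u y - p, v⟫ ∧ 0 < ⟪gr u ρ y, v⟫}, ?_, fun _ => v,
          contMDiffOn_const, ?_⟩
      · have h2 : ∀ᶠ y in 𝓝 x, r < ‖u y - p‖ :=
          ev_gt (by fun_prop) (by linarith [hbd x hx])
        have h3 : ∀ᶠ y in 𝓝 x, 0 < ⟪u y - p, v⟫ :=
          ev_gt (f := fun y => ⟪u y - p, v⟫) (by fun_prop) hv1
        have h4 : ∀ᶠ y in 𝓝 x, 0 < ⟪gr u ρ y, v⟫ :=
          ev_gt (f := fun y => ⟪gr u ρ y, v⟫) (by fun_prop) hv2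
        filter_upwards [h2, h3, h4] with y a b c using ⟨a, b, c⟩
      · intro y hy
        exact ⟨fun h => absurd h.2 (not_le.2 hy.1), fun _ => hy.2.1, fun _ => hy.2.2⟩
    · refine ⟨{y | 0 < ρ y}, (isOpen_lt continuous_const hρ.continuous).mem_nhds hx, fun _ => 0,
        contMDiffOn_const, ?_⟩
      intro y hy
      have hy' : 0 < ρ y := hy
      exact ⟨fun h => absurd h.1 (not_le.2 hy'), fun h => absurd h.1 (not_le.2 hy'),
        fun h => absurd h hy'.ne'⟩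
  obtain ⟨X₀, hX₀⟩ := exists_contMDiffMap_forall_mem_convex_of_local (n := ⊤) 𝓘(ℝ, E) ht hloc
  obtain ⟨χ, K, hχ, hK, -, hχ1, hχ0⟩ := Helper186.exists_cutoff 𝓘(ℝ, E) hcomp isOpen_univ
    (subset_univ {x | ρ x ≤ 0})
  set X : N → E := fun x => χ x • X₀ x with hX
  have hXs : ContMDiff 𝓘(ℝ, E) 𝓘(ℝ, E) ∞ X := hχ.smul X₀.contMDiff
  have hX1 : ∀ x, ρ x ≤ 0 → X x = X₀ x := by
    intro x hx
    have : χ x = 1 := hχ1.self_of_nhdsSet x hx
    simp only [hX]
    rw [this, one_smul]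
  obtain ⟨Fl, hFl⟩ := exists_flow hu hXs hK (fun x hx => by
    simp only [hX]
    rw [hχ0 x hx, zero_smul])
  have hout : ∀ x, ρ x = 0 → 0 < ⟪gr u ρ x, X x⟫ := by
    intro x hx
    rw [hX1 x hx.le]
    exact (hX₀ x).2.2 hx
  have hsrc : ∀ q : ι, Src u X (ball p (min r (r' q))) (σ q) p := by
    intro q
    refine ⟨(hσ q).mono huc isOpen_ball (ball_subset_ball (min_le_right _ _)),
      convex_ball _ _, mem_ball_self (lt_min hr0 (hr' q)), ?_⟩
    intro z hz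
    have hz1 : z ∈ ball p (r' q) := ball_subset_ball (min_le_right _ _) hz
    have hz2 : ‖z - p‖ < r := by
      rw [← dist_eq_norm]; exact (mem_ball.1 hz).trans_le (min_le_left _ _)
    have h1 : ρ (σ q z) < 0 := hσρ q ⟨z, hz1, rfl⟩
    have h2 : u (σ q z) = z := (hσ q).right z hz1
    rw [hX1 _ h1.le]
    have h3 := (hX₀ (σ q z)).1 ⟨h1.le, by rw [h2]; exact hz2.le⟩
    rw [mem_singleton_iff, h2] at h3
    exact h3
  have hbas : ∀ x ∈ {x | ρ x ≤ 0}, ∃ q : ι, ∃ t, 0 ≤ t ∧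
      Fl (-t) x ∈ σ q '' ball p (min r (r' q)) := by
    intro x hx
    obtain ⟨t, ht, hO⟩ := reach hu hXs.continuous hFl hρ hcomp hout (fd_smooth hus p)
      (O := {x | ‖u x - p‖ < r}) (isOpen_lt (by fun_prop) continuous_const)
      (fun y hy hyO => by
        rw [gr_fd hu, hX1 y hy]
        exact (hX₀ y).2.1 ⟨hy, not_lt.1 hyO⟩) hx
    have hin : ρ (Fl (-t) x) ≤ 0 := hFl.stay hρ hx (fun s _ _ _ hs => hout _ hs) t ⟨ht, le_rfl⟩
    have hO' : ‖u (Fl (-t) x) - p‖ < r := hO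
    obtain ⟨q, hq⟩ := hr₀' _ hin (by linarith)
    refine ⟨q, t, ht, u (Fl (-t) x), ?_, (hσ q).left hq⟩
    rw [mem_ball, dist_eq_norm]
    refine lt_min hO' ?_
    have := (hσ q).mem hq
    rwa [mem_ball, dist_eq_norm] at this
  have hone := one_source hFl hconn hsrc (fun i j hij => by
    rw [hσp, hσp] at hij
    exact Subtype.ext hij) hbas ⟨q₀, hq₀', hq₀⟩ (by rw [hσp]; exact hq₀')
  exact core hu hFl hρ hcomp (hsrc ⟨q₀, hq₀', hq₀⟩) (by rw [hσp]; exact hneg ⟨q₀, hq₀', hq₀⟩) hout hone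

end Pool.Agent.Q196.XB
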