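import Pool.Agent.Q196.XB.Pass

/-! The second order condition: principal curvatures. -/

set_option autoImplicit false
set_option linter.unusedSectionVars false

open scoped Topology ContDiff Manifold RealInnerProductSpace Gradient
open Set Metric Filter Bundle

noncomputable section

namespace Pool.Agent.Q196.XB

variable {E : Type} [NormedAddCommGroup E] [InnerProductSpace ℝ E] [FiniteDimensional ℝ E]
  {N : Type} [TopologicalSpace N] [ChartedSpace E N] [IsManifold 𝓘(ℝ, E) ∞ N]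

/-- The Hessian of `g` (for the flat metric pulled back by `u`) on the vector `v`. -/
def hs (u : N → E) (g : N → ℝ) (x : N) (v : E) : ℝ :=
  ⟪(show E →L[ℝ] E from mfderiv 𝓘(ℝ, E) 𝓘(ℝ, E) (gr u g) x) (dI u x v), v⟫

lemma hs_sec {u : N → E} (hu : IsLocalDiffeomorph 𝓘(ℝ, E) 𝓘(ℝ, E) ∞ u) {g : N → ℝ}
    (hg : ContMDiff 𝓘(ℝ, E) 𝓘(ℝ, ℝ) ∞ g) {U : Set E} {σ : E → N} (h : Sec u U σ) {x : N}
    (hx : x ∈ σ '' U) (v : E) : hs u g x v = ⟪fderiv ℝ (∇ (g ∘ σ)) (u x) v, v⟫ := by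
  have hxU := h.mem hx
  have hσx := h.left hx
  have h1 : MDifferentiableAt 𝓘(ℝ, E) 𝓘(ℝ, E) σ (u x) :=
    (h.smoothAt hxU).mdifferentiableAt (by simp)
  have h2 : MDifferentiableAt 𝓘(ℝ, E) 𝓘(ℝ, E) (gr u g) (σ (u x)) :=
    (gr_smooth hu hg).mdifferentiableAt (by simp)
  have h3 := mfderiv_comp (u x) h2 h1
  have h4 := mfderiv_sec hu h hx
  have h5 : ∇ (g ∘ σ) =ᶠ[𝓝 (u x)] (gr u g) ∘ σ := by
    filter_upwards [h.isOpen.mem_nhds hxU] with z hz
    have h6 := gr_sec hu h (x := σ z) ⟨z, hz, rfl⟩ (hg.mdifferentiableAt (by simp))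
    rw [h.right z hz] at h6
    exact h6.symm
  unfold hs
  congr 1
  have h7 : fderiv ℝ (∇ (g ∘ σ)) (u x) = mfderiv 𝓘(ℝ, E) 𝓘(ℝ, E) ((gr u g) ∘ σ) (u x) := by
    rw [h5.fderiv_eq, mfderiv_eq_fderiv]
  rw [h7, h3, hσx, ← h4]
  rfl

/-- Finsler's lemma. -/
lemma finsler {Q : E → ℝ} (hQ : Continuous Q) (w : E)
    (hpos : ∀ v, v ≠ 0 → ⟪w, v⟫ = 0 → 0 < Q v) :
    ∃ K : ℝ, 0 < K ∧ ∀ v ∈ sphere (0:E) 1, 0 < Q v + 2 * K * ⟪w, v⟫ ^ 2 := by
  set A : Set E := sphere (0:E) 1 ∩ {v | Q v ≤ 0} with hA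
  have hAc : IsCompact A := (isCompact_sphere 0 1).inter_right (isClosed_le hQ continuous_const)
  obtain ⟨B, hB⟩ := (isCompact_sphere (0:E) 1).exists_bound_of_continuousOn hQ.continuousOn
  by_cases hne : A.Nonempty
  · obtain ⟨y, hy, hymin⟩ := hAc.exists_isMinOn hne (f := fun v => ⟪w, v⟫ ^ 2)
      (Continuous.continuousOn (by fun_prop))
    set m := ⟪w, y⟫ ^ 2 with hm
    have hm0 : 0 < m := by
      have h1 : ⟪w, y⟫ ≠ 0 := by
        intro h0
        have hy0 : y ≠ 0 := by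
          rintro rfl
          have := hy.1
          simp at this
        have := hpos y hy0 h0
        exact absurd this (not_lt.2 hy.2)
      positivity
    have hB0 : 0 ≤ B := (norm_nonneg _).trans (hB y hy.1)
    refine ⟨(B + 1) / (2 * m), by positivity, fun v hv => ?_⟩
    rcases le_or_gt (Q v) 0 with h | h
    · have h1 : m ≤ ⟪w, v⟫ ^ 2 := isMinOn_iff.1 hymin v ⟨hv, h⟩
      have h2 : 2 * ((B + 1) / (2 * m)) * ⟪w, v⟫ ^ 2 ≥ 2 * ((B + 1) / (2 * m)) * m := by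
        gcongr
      have h3 : 2 * ((B + 1) / (2 * m)) * m = B + 1 := by field_simp
      have h4 := hB v hv
      rw [Real.norm_eq_abs] at h4
      have h5 := (abs_le.1 h4).1
      linarith
    · positivity
  · refine ⟨1, one_pos, fun v hv => ?_⟩
    have : 0 < Q v := by
      by_contra h
      exact hne ⟨v, hv, not_lt.1 h⟩
    positivity

/-- Second order sufficient condition for a strict local minimum. -/
lemma strict_min {L : E → ℝ} {G : E → E} {z₀ : E} {U : Set E} (hU : U ∈ 𝓝 z₀)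
    (hL : ∀ z ∈ U, HasGradientAt L (G z) z) (hG : ∀ z ∈ U, DifferentiableAt ℝ G z)
    (hG' : ContinuousAt (fderiv ℝ G) z₀) (hG0 : G z₀ = 0)
    (hpos : ∀ v ∈ sphere (0:E) 1, 0 < ⟪fderiv ℝ G z₀ v, v⟫) :
    ∀ᶠ z in 𝓝 z₀, z ≠ z₀ → L z₀ < L z := by
  have h1 : ∀ᶠ z in 𝓝 z₀, ∀ v ∈ sphere (0:E) 1, 0 < ⟪fderiv ℝ G z v, v⟫ := by
    apply (isCompact_sphere (0:E) 1).eventually_forall_of_forall_eventually
    intro v hv
    have h2 : ContinuousAt (fun q : E × E => ⟪fderiv ℝ G q.1 q.2, q.2⟫) (z₀, v) := by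
      have h3 : ContinuousAt (fun q : E × E => fderiv ℝ G q.1) (z₀, v) :=
        ContinuousAt.comp (g := fderiv ℝ G) (f := fun q : E × E => q.1) hG' continuousAt_fst
      exact (h3.clm_apply continuousAt_snd).inner continuousAt_snd
    exact h2.eventually_const_lt (hpos v hv)
  have h4 : ∀ᶠ z in 𝓝 z₀, z ∈ U := hU
  obtain ⟨ε, hε, hε'⟩ := Metric.eventually_nhds_iff_ball.1 (h1.and h4)
  filter_upwards [ball_mem_nhds z₀ hε] with z hz hne
  have hseg : ∀ t ∈ Icc (0:ℝ) 1, z₀ + t • (z - z₀) ∈ ball z₀ ε := by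
    intro t ht
    rw [mem_ball, dist_eq_norm, add_sub_cancel_left, norm_smul, Real.norm_eq_abs,
      abs_of_nonneg ht.1]
    rw [mem_ball, dist_eq_norm] at hz
    calc t * ‖z - z₀‖ ≤ 1 * ‖z - z₀‖ := by gcongr; exact ht.2
      _ < ε := by rw [one_mul]; exact hz
  set v := z - z₀ with hv
  have hv0 : 0 < ‖v‖ := norm_pos_iff.2 (sub_ne_zero.2 hne)
  have hline : ∀ t : ℝ, HasDerivAt (fun t : ℝ => z₀ + t • v) v t := by
    intro t
    simpa using ((hasDerivAt_id t).smul_const v).const_add z₀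
  have hd1 : ∀ t ∈ Icc (0:ℝ) 1, HasDerivAt (fun t : ℝ => L (z₀ + t • v)) ⟪G (z₀ + t • v), v⟫ t := by
    intro t ht
    have h5 := (hL _ (hε' _ (hseg t ht)).2).hasFDerivAt
    exact h5.comp_hasDerivAt t (hline t)
  have hd2 : ∀ t ∈ Icc (0:ℝ) 1, HasDerivAt (fun t : ℝ => ⟪G (z₀ + t • v), v⟫)
      ⟪fderiv ℝ G (z₀ + t • v) v, v⟫ t := by
    intro t ht
    have h5 := (hG _ (hε' _ (hseg t ht)).2).hasFDerivAt.comp_hasDerivAt t (hline t)
    have h6 := h5.inner ℝ (hasDerivAt_const t v)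
    simpa using h6
  have hpos2 : ∀ t ∈ Icc (0:ℝ) 1, 0 < ⟪fderiv ℝ G (z₀ + t • v) v, v⟫ := by
    intro t ht
    have h7 := (hε' _ (hseg t ht)).1 (‖v‖⁻¹ • v) (by
      rw [mem_sphere_zero_iff_norm, norm_smul, norm_inv, norm_norm, inv_mul_cancel₀ hv0.ne'])
    rw [map_smul, inner_smul_left, inner_smul_right] at h7
    simp only [conj_trivial] at h7
    have h8 : 0 < ‖v‖⁻¹ := inv_pos.2 hv0
    have h9 : 0 < ‖v‖⁻¹ * ‖v‖⁻¹ := mul_pos h8 h8
    have h10 : 0 < (‖v‖⁻¹ * ‖v‖⁻¹) * ⟪fderiv ℝ G (z₀ + t • v) v, v⟫ := by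
      rw [mul_assoc]; exact h7
    exact (mul_pos_iff_of_pos_left h9).1 h10
  have hmono : StrictMonoOn (fun t : ℝ => ⟪G (z₀ + t • v), v⟫) (Icc 0 1) := by
    apply strictMonoOn_of_deriv_pos (convex_Icc 0 1)
    · exact fun t ht => (hd2 t ht).continuousAt.continuousWithinAt
    · intro t ht
      rw [interior_Icc] at ht
      rw [(hd2 t ⟨ht.1.le, ht.2.le⟩).deriv]
      exact hpos2 t ⟨ht.1.le, ht.2.le⟩
  have hmono2 : StrictMonoOn (fun t : ℝ => L (z₀ + t • v)) (Icc 0 1) := by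
    apply strictMonoOn_of_deriv_pos (convex_Icc 0 1)
    · exact fun t ht => (hd1 t ht).continuousAt.continuousWithinAt
    · intro t ht
      rw [interior_Icc] at ht
      rw [(hd1 t ⟨ht.1.le, ht.2.le⟩).deriv]
      have h11 := hmono (⟨le_rfl, zero_le_one⟩ : (0:ℝ) ∈ Icc (0:ℝ) 1) ⟨ht.1.le, ht.2.le⟩ ht.1
      simp only at h11
      rw [zero_smul, add_zero, hG0, inner_zero_left] at h11
      exact h11
  have h12 := hmono2 (⟨le_rfl, zero_le_one⟩ : (0:ℝ) ∈ Icc (0:ℝ) 1)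
    (⟨zero_le_one, le_rfl⟩ : (1:ℝ) ∈ Icc (0:ℝ) 1) zero_lt_one
  simp only at h12
  rw [zero_smul, add_zero, one_smul, hv, add_sub_cancel] at h12
  exact h12

/-- If all principal curvatures of the boundary at `x` are larger than `-1/|u x - p|`, where `p`
lies on the outward normal ray, then `x` is a strict local minimum of the distance from `p`. -/
theorem second_order {u : N → E}
    (hu : IsLocalDiffeomorph 𝓘(ℝ, E) 𝓘(ℝ, E) ∞ u) {ρ : N → ℝ}
    (hρ : ContMDiff 𝓘(ℝ, E) 𝓘(ℝ, ℝ) ∞ ρ) {p : E} {x : N} (hx : ρ x = 0) {s : ℝ} (hs0 : 0 < s)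
    (hsp : u x + s • gr u ρ x = p)
    (hcurv : ∀ v, v ≠ 0 → ⟪gr u ρ x, v⟫ = 0 → 0 < ‖v‖ ^ 2 + s * hs u ρ x v) :
    ∀ᶠ y in 𝓝 x, ρ y ≤ 0 → y ≠ x → ‖u x - p‖ < ‖u y - p‖ := by
  have huc : Continuous u := hu.contMDiff.continuous
  obtain ⟨U, σ, h, hxU, hσx⟩ := exists_sec hu x
  have hx' : x ∈ σ '' U := ⟨u x, hxU, hσx⟩
  set w := gr u ρ x with hw
  set g : E → ℝ := ρ ∘ σ with hg
  have hgU : ContDiffOn ℝ ∞ g U := by
    rw [← contMDiffOn_iff_contDiffOn]
    exact hρ.comp_contMDiffOn h.smooth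
  have hgAt : ∀ z ∈ U, ContDiffAt ℝ ∞ g z := fun z hz => hgU.contDiffAt (h.isOpen.mem_nhds hz)
  have hgw : ∇ g (u x) = w := (gr_sec hu h hx' (hρ.mdifferentiableAt (by simp))).symm
  have hg0 : g (u x) = 0 := by show ρ (σ (u x)) = 0; rw [hσx, hx]
  have hGs : ∀ z ∈ U, ContDiffAt ℝ ∞ (∇ g) z := by
    intro z hz
    have h3 : ContDiffAt ℝ ∞ (fderiv ℝ g) z := (hgAt z hz).fderiv_right (m := ∞) (by simp)
    unfold gradient
    exact (InnerProductSpace.toDual ℝ E).symm.contDiff.contDiffAt.comp z h3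
  have hgrad : ∀ z ∈ U, HasGradientAt g (∇ g z) z := fun z hz =>
    ((hgAt z hz).differentiableAt (by simp)).hasGradientAt
  -- Finsler
  obtain ⟨K, hK, hKpos⟩ := finsler (Q := fun v => ‖v‖ ^ 2 + s * ⟪fderiv ℝ (∇ g) (u x) v, v⟫)
    (by fun_prop) w (fun v hv hwv => by
      have h1 := hcurv v hv hwv
      rw [hs_sec hu hρ h hx' v] at h1
      exact h1)
  set L : E → ℝ := fun z => ‖z - p‖ ^ 2 / 2 + s * g z + K * (g z * g z) with hL
  set G : E → E := fun z => (z - p) + s • ∇ g z + (2 * K * g z) • ∇ g z with hG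
  have hLG : ∀ z ∈ U, HasGradientAt L (G z) z := by
    intro z hz
    rw [hasGradientAt_iff_hasFDerivAt]
    have h1 : HasFDerivAt (fun z : E => ‖z - p‖ ^ 2) (2 • (innerSL ℝ (z - p))) z := by
      have h5 := ((hasFDerivAt_id (𝕜 := ℝ) z).sub_const p).norm_sq
      refine h5.congr_fderiv ?_
      ext v
      simp
    have h2 := (hgrad z hz).hasFDerivAt
    have h3 := ((h1.const_mul (1 / 2 : ℝ)).add (h2.const_mul s)).add ((h2.mul h2).const_mul K)
    have h4 : L = fun z => (1 / 2 : ℝ) * ‖z - p‖ ^ 2 + s * g z + K * (g z * g z) := by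
      funext z; simp only [hL]; ring
    rw [h4]
    refine h3.congr_fderiv ?_
    ext v
    simp [hG]
    ring
  have hGd : ∀ z ∈ U, HasFDerivAt G (ContinuousLinearMap.id ℝ E + s • fderiv ℝ (∇ g) z +
      ((2 * K * g z) • fderiv ℝ (∇ g) z +
        ((2 * K) • fderiv ℝ g z).smulRight (∇ g z))) z := by
    intro z hz
    have h1 := ((hGs z hz).differentiableAt (by simp)).hasFDerivAt
    have h2 := ((hgAt z hz).differentiableAt (by simp)).hasFDerivAt
    exact (((hasFDerivAt_id z).sub_const p).add (h1.const_smul s)).add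
      ((h2.const_mul (2 * K)).smul h1)
  have hGc : ContDiffAt ℝ ∞ G (u x) :=
    ((contDiffAt_id.sub contDiffAt_const).add (contDiffAt_const.smul (hGs _ hxU))).add
      ((contDiffAt_const.mul (hgAt _ hxU)).smul (hGs _ hxU))
  have hmin := strict_min (L := L) (G := G) (z₀ := u x) (h.isOpen.mem_nhds hxU) hLG
    (fun z hz => (hGd z hz).differentiableAt)
    ((hGc.fderiv_right (m := 0) (by simp)).continuousAt)
    (by
      simp only [hG]
      rw [hg0, hgw, ← hsp]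
      simp)
    (fun v hv => by
      rw [(hGd _ hxU).fderiv, hg0, hgw]
      have h1 := hKpos v hv
      have h2 : fderiv ℝ g (u x) v = ⟪w, v⟫ := by
        rw [← hgw]
        have := (hgrad _ hxU).hasFDerivAt.fderiv
        rw [this]
        rfl
      simp only [mul_zero, zero_smul, zero_add, _root_.add_apply,
        ContinuousLinearMap.id_apply, _root_.smul_apply,
        ContinuousLinearMap.smulRight_apply, inner_add_left, inner_smul_left, conj_trivial,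
        smul_eq_mul, h2]
      rw [real_inner_self_eq_norm_sq]
      nlinarith)
  -- back to `N`
  have h1 : ∀ᶠ y in 𝓝 x, u y ≠ u x → L (u x) < L (u y) :=
    huc.continuousAt.eventually hmin
  have h2 : ∀ᶠ y in 𝓝 x, y ∈ σ '' U := h.image.mem_nhds hx'
  have h3 : ∀ᶠ y in 𝓝 x, -(s / K) < ρ y := ev_gt hρ.continuous (by
    rw [hx]
    have : 0 < s / K := by positivity
    linarith)
  filter_upwards [h1, h2, h3] with y hy1 hy2 hy3 hρy hyx
  have hne : u y ≠ u x := fun he => hyx (h.inj hy2 hx' he)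
  have h4 := hy1 hne
  have hgy : g (u y) = ρ y := by show ρ (σ (u y)) = ρ y; rw [h.left hy2]
  simp only [hL] at h4
  rw [hg0, hgy] at h4
  have h5 : 0 ≤ s + K * ρ y := by
    have : -(s / K) * K < ρ y * K := mul_lt_mul_of_pos_right hy3 hK
    rw [neg_mul, div_mul_cancel₀ _ hK.ne'] at this
    linarith
  have h6 : s * ρ y + K * (ρ y * ρ y) ≤ 0 := by
    have : s * ρ y + K * (ρ y * ρ y) = (s + K * ρ y) * ρ y := by ring
    rw [this]
    exact mul_nonpos_of_nonneg_of_nonpos h5 hρy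
  have h7 : ‖u x - p‖ ^ 2 < ‖u y - p‖ ^ 2 := by linarith
  exact lt_of_pow_lt_pow_left₀ 2 (norm_nonneg _) h7

end Pool.Agent.Q196.XB
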